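import Mathlib
import Pool.Agent.MP_e50225_co.LLLProduct

set_option autoImplicit false

namespace Pool.Agent.SparseOrd

open Finset

/-- Counting with an injection of coordinates. -/
theorem card_pullback {A B T : Type*} [Fintype A] [DecidableEq A] [Fintype B] [DecidableEq B]
    [Fintype T] [DecidableEq T] (e : A ↪ B) (Q : (A → T) → Prop) [DecidablePred Q]
    [DecidablePred (fun f : B → T => Q (fun a => f (e a)))] :
    (univ.filter (fun f : B → T => Q (fun a => f (e a)))).card =
      (univ.filter Q).card * Fintype.card T ^ (Fintype.card B - Fintype.card A) := by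
  classical
  -- the complement of the range
  let C := {b : B // ¬ ∃ a, e a = b}
  have hC : Fintype.card C = Fintype.card B - Fintype.card A := by
    have h1 : Fintype.card {b : B // ∃ a, e a = b} = Fintype.card A := by
      refine (Fintype.card_congr (Equiv.ofBijective (fun a => ⟨e a, a, rfl⟩) ⟨?_, ?_⟩)).symm
      · intro a a' h
        exact e.injective (by simpa using h)
      · rintro ⟨b, a, rfl⟩
        exact ⟨a, rfl⟩
    have h2 := Fintype.card_subtype_compl (fun b : B => ∃ a, e a = b)
    rw [h1] at h2
    exact h2
  have h3 : Fintype.card (C → T) = Fintype.card T ^ (Fintype.card B - Fintype.card A) := by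
    rw [Fintype.card_fun, hC]
  rw [← h3, ← Fintype.card_coe (univ.filter Q), ← Fintype.card_prod, ← Fintype.card_coe]
  refine Fintype.card_congr ⟨fun f => (⟨fun a => f.1 (e a), ?_⟩, fun c => f.1 c.1),
    fun g => ⟨fun b => if h : ∃ a, e a = b then g.1.1 h.choose else g.2 ⟨b, h⟩, ?_⟩, ?_, ?_⟩
  · have := f.2
    simp only [mem_filter, mem_univ, true_and] at this ⊢
    exact this
  · have hg := g.1.2
    simp only [mem_filter, mem_univ, true_and] at hg ⊢
    have : (fun a => if h : ∃ a', e a' = e a then g.1.1 h.choose else g.2 ⟨e a, h⟩) = g.1.1 := by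
      funext a
      have h : ∃ a', e a' = e a := ⟨a, rfl⟩
      rw [dif_pos h, e.injective h.choose_spec]
    rw [this]
    exact hg
  · intro f
    apply Subtype.ext
    funext b
    by_cases h : ∃ a, e a = b
    · simp only [dif_pos h]
      rw [h.choose_spec]
    · simp only [dif_neg h]
  · intro g
    refine Prod.ext ?_ ?_
    · apply Subtype.ext
      funext a
      have h : ∃ a', e a' = e a := ⟨a, rfl⟩
      simp only [dif_pos h]
      rw [e.injective h.choose_spec]
    · funext c
      simp only [dif_neg c.2]
      rfl

open Classical in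
/-- Independence: `P` depends only on the coordinates in `F`, `Q` only on the other coordinates. -/
theorem card_indep {V T : Type*} [Fintype V] [DecidableEq V] [Fintype T] [DecidableEq T]
    (F : Finset V) (P Q : (V → T) → Prop)
    (hP : ∀ f g : V → T, (∀ v ∈ F, f v = g v) → (P f ↔ P g))
    (hQ : ∀ f g : V → T, (∀ v, v ∉ F → f v = g v) → (Q f ↔ Q g)) :
    (univ.filter (fun f => P f ∧ Q f)).card * Fintype.card (V → T) =
      (univ.filter P).card * (univ.filter Q).card :=
  MP_e50225_co.LLLProduct.card_and_mul_card F P Q hP hQ

end Pool.Agent.SparseOrd
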