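import Mathlib
import Pool.Agent.SparseOrd.Indep

set_option autoImplicit false

namespace Pool.Agent.SparseOrd

open Finset

open Classical in
/-- The symmetric Lovasz local lemma (with the condition `4 p d ≤ 1`) for uniform random functions
`V → T`; the event `E x` depends only on the coordinates in `F x`, and `d` bounds the number of `y`
(including `x`) with `F x ∩ F y ≠ ∅`. -/
theorem lll {V T ι : Type*} [Fintype V] [DecidableEq V] [Fintype T] [DecidableEq T] [Nonempty T]
    [Fintype ι] [DecidableEq ι] (F : ι → Finset V) (E : ι → (V → T) → Prop)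
    (hE : ∀ x f g, (∀ v ∈ F x, f v = g v) → (E x f ↔ E x g)) (d : ℕ) (hd1 : 1 ≤ d)
    (hd : ∀ x, (univ.filter (fun y => ¬ Disjoint (F x) (F y))).card ≤ d)
    (hprob : ∀ x, 4 * d * (univ.filter (fun f => E x f)).card ≤ Fintype.card (V → T)) :
    ∃ f, ∀ x, ¬ E x f := by
  have hN : (0 : ℝ) < Fintype.card (V → T) := by exact_mod_cast Fintype.card_pos
  have hd0 : (0 : ℝ) < d := by exact_mod_cast hd1
  refine MP_e50225_co.lll_product E F hE (1 / (4 * d)) d hd1 ?_ (by positivity) ?_ ?_
  · intro x
    convert hd x using 2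
  · intro x
    rw [MP_e50225_co.LLLProduct.pr_eq_card, div_le_div_iff₀ hN (by positivity)]
    have h1 : ((4 * d * (univ.filter (fun f => E x f)).card : ℕ) : ℝ) ≤
        (Fintype.card (V → T) : ℕ) := by exact_mod_cast hprob x
    push_cast at h1 ⊢
    linarith
  · apply le_of_eq
    field_simp

end Pool.Agent.SparseOrd
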