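import Mathlib
import Pool.Agent.MP_ef8d06_pr.Diag

set_option autoImplicit false

/-!
# Definitions for the upper bound `C c^2 e^c` for the dimension of sparse random graph orders

Vertices are natural numbers `< n`, a graph is a set `S` of pairs `(u, v)` with `u < v < n`
(`S ⊆ Ed n`), the order generated by `S` is `pleq S`, and the up-set generated by a set `X` of
vertices is `reach S X n`.
-/

namespace Pool.Agent.SparseOrd

open Finset Pool.Agent.MP_ef8d06_pr

/-- The up-set of the vertex `x`. -/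
abbrev up (S : Finset (ℕ × ℕ)) (n x : ℕ) : Finset ℕ := reach S {x} n

/-- `A` is closed upwards along the pairs of `S`. -/
def UpC (S : Finset (ℕ × ℕ)) (A : Finset ℕ) : Prop := ∀ e ∈ S, e.1 ∈ A → e.2 ∈ A

/-- The pairs of `S` whose lower end lies in `A`. -/
def Eg (S : Finset (ℕ × ℕ)) (A : Finset ℕ) : Finset (ℕ × ℕ) := S.filter (fun e => e.1 ∈ A)

/-- Adjacency inside `A`. -/
def Adj (S : Finset (ℕ × ℕ)) (A : Finset ℕ) (u v : ℕ) : Prop :=
  u ∈ A ∧ v ∈ A ∧ ((u, v) ∈ S ∨ (v, u) ∈ S)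

/-- `A` is nonempty and connected. -/
def Conn (S : Finset (ℕ × ℕ)) (A : Finset ℕ) : Prop :=
  A.Nonempty ∧ ∀ u ∈ A, ∀ v ∈ A, Relation.ReflTransGen (Adj S A) u v

/-- Every element of `A` is connected inside `A` to an element of `Y`. -/
def ConnTo (S : Finset (ℕ × ℕ)) (A Y : Finset ℕ) : Prop :=
  ∀ v ∈ A, ∃ y ∈ Y, Relation.ReflTransGen (Adj S A) v y

/-- There are `t` functions which increase along the pairs of `S` such that every pair `(x, y)` with
`Q x y` and `x` not below `y` is reversed by one of them. -/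
def Sep (S : Finset (ℕ × ℕ)) (n t : ℕ) (Q : ℕ → ℕ → Prop) : Prop :=
  ∃ F : Fin t → ℕ → ℕ, (∀ i, ∀ e ∈ S, F i e.1 ≤ F i e.2) ∧
    ∀ x y, x < n → y < n → Q x y → ¬ pleq S x y → ∃ i, F i y < F i x

/-- (H1) The up-set generated by at most `R` vertices contains at most as many edges as vertices. -/
def H1 (S : Finset (ℕ × ℕ)) (n R : ℕ) : Prop :=
  ∀ X ⊆ range n, X.Nonempty → X.card ≤ R →
    (Eg S (reach S X n)).card ≤ (reach S X n).card

/-- (H2) The up-set generated by at most `3 s` vertices has, if it has at least `s D` elements, fewer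
edges than a connected graph. -/
def H2 (S : Finset (ℕ × ℕ)) (n s D : ℕ) : Prop :=
  ∀ X ⊆ range n, 2 ≤ X.card → X.card ≤ 3 * s → s * D ≤ (reach S X n).card →
    (Eg S (reach S X n)).card + 1 < (reach S X n).card

/-- `κ v` is the component of `v` in the up-set of the vertices with large up-sets, and is empty if
`v` is not in this up-set. -/
def IsCompMap (S : Finset (ℕ × ℕ)) (n : ℕ) (κ : ℕ → Finset ℕ) : Prop :=
  (∀ v w, w ∈ κ v → κ w = κ v) ∧
  (∀ v, (κ v).Nonempty → v ∈ κ v ∧ κ v ⊆ range n ∧ UpC S (κ v) ∧ Conn S (κ v) ∧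
    (Eg S (κ v)).card ≤ (κ v).card)

/-- The reversed graph: the vertex `x` is replaced by `n - 1 - x`. -/
def flp (n : ℕ) (S : Finset (ℕ × ℕ)) : Finset (ℕ × ℕ) :=
  (Ed n).filter (fun e => (n - 1 - e.2, n - 1 - e.1) ∈ S)

/-- The tuple `f` of codes is bad for the family `M` of sets of codes. -/
def BadTuple {q k : ℕ} {ι : Type*} (M : Fin k → Finset (Fin q)) (f : ι → Fin q) : Prop :=
  ∃ t, ∀ j, ¬ (t ∈ M j ∧ ∀ i, f i ≠ t → f i ∉ M j)

end Pool.Agent.SparseOrd
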