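import Mathlib
import Pool.Agent.SparseOrd.Defs

set_option autoImplicit false

namespace Pool.Agent.SparseOrd

open Finset Pool.Agent.MP_ef8d06_pr

/-- The edge from `v` to its parent. -/
def edg (par : ℕ → ℕ) (v : ℕ) : ℕ × ℕ := if v < par v then (v, par v) else (par v, v)

/-- there is a chain of exactly `k` steps from `v` to `Y` -/
def bfsWalk (S : Finset (ℕ × ℕ)) (A Y : Finset ℕ) : ℕ → ℕ → Prop
  | 0, v => v ∈ Y
  | k + 1, v => ∃ w, Adj S A v w ∧ bfsWalk S A Y k w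

theorem bfs {S : Finset (ℕ × ℕ)} {A Y : Finset ℕ} (h : ConnTo S A Y) :
    ∃ par lev : ℕ → ℕ, ∀ v ∈ A, v ∉ Y → Adj S A v (par v) ∧ lev (par v) < lev v := by
  classical
  have hex : ∀ v ∈ A, ∃ k, bfsWalk S A Y k v := by
    intro v hv
    obtain ⟨y, hy, hvy⟩ := h v hv
    induction hvy using Relation.ReflTransGen.head_induction_on with
    | refl => exact ⟨0, hy⟩
    | head hab _ ih =>
      obtain ⟨k, hk⟩ := ih hab.2.1
      exact ⟨k + 1, _, hab, hk⟩
  have hstep : ∀ v, ∃ w, (v ∈ A ∧ v ∉ Y) → (Adj S A v w ∧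
      sInf {k | bfsWalk S A Y k w} < sInf {k | bfsWalk S A Y k v}) := by
    intro v
    by_cases hv : v ∈ A ∧ v ∉ Y
    · have hne : {k | bfsWalk S A Y k v}.Nonempty := hex v hv.1
      have hmem : bfsWalk S A Y (sInf {k | bfsWalk S A Y k v}) v := Nat.sInf_mem hne
      rcases hk : sInf {k | bfsWalk S A Y k v} with _ | k
      · rw [hk] at hmem
        exact absurd hmem hv.2
      · rw [hk] at hmem
        obtain ⟨w, hw, hwk⟩ := hmem
        refine ⟨w, fun _ => ⟨hw, ?_⟩⟩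
        exact Nat.lt_succ_of_le (Nat.sInf_le hwk)
    · exact ⟨v, fun h => absurd h hv⟩
  choose par hpar using hstep
  exact ⟨par, fun v => sInf {k | bfsWalk S A Y k v}, fun v hv hvY => hpar v ⟨hv, hvY⟩⟩

/-- The edges to the parents are different edges of `S`. -/
theorem edg_inj {n : ℕ} {S : Finset (ℕ × ℕ)} (hS : S ⊆ Ed n) {A Y : Finset ℕ} {par lev : ℕ → ℕ}
    (h : ∀ v ∈ A, v ∉ Y → Adj S A v (par v) ∧ lev (par v) < lev v) :
    Set.InjOn (edg par) (A \ Y : Finset ℕ) ∧ ∀ v ∈ A \ Y, edg par v ∈ Eg S A := by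
  constructor
  · intro v hv w hw hvw
    rw [mem_coe, mem_sdiff] at hv hw
    have h1 := (h v hv.1 hv.2).2
    have h2 := (h w hw.1 hw.2).2
    unfold edg at hvw
    by_contra hne
    have : v = par w ∧ w = par v := by
      split_ifs at hvw <;> simp only [Prod.mk.injEq] at hvw <;> omega
    obtain ⟨h3, h4⟩ := this
    rw [← h3] at h2
    rw [← h4] at h1
    omega
  · intro v hv
    rw [mem_sdiff] at hv
    obtain ⟨h1, h2, h3⟩ := (h v hv.1 hv.2).1
    rw [Eg, mem_filter]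
    unfold edg
    rcases h3 with h3 | h3
    · have h4 := (mem_Ed.1 (hS h3)).1
      simp only at h4
      rw [if_pos h4]
      exact ⟨h3, h1⟩
    · have h4 := (mem_Ed.1 (hS h3)).1
      simp only at h4
      rw [if_neg (by omega)]
      exact ⟨h3, h2⟩

/-- If `Y` is an up-set, the edges to the parents do not belong to `Eg S Y`. -/
theorem edg_notMem {n : ℕ} {S : Finset (ℕ × ℕ)} (hS : S ⊆ Ed n) {A Y : Finset ℕ} {par lev : ℕ → ℕ}
    (hY : UpC S Y) (h : ∀ v ∈ A, v ∉ Y → Adj S A v (par v) ∧ lev (par v) < lev v) :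
    ∀ v ∈ A \ Y, edg par v ∉ Eg S Y := by
  intro v hv hmem
  have hv' := mem_sdiff.1 hv
  rw [Eg, mem_filter] at hmem
  have h1 := hY _ hmem.1 hmem.2
  have h2 := hmem.2
  unfold edg at h1 h2
  split_ifs at h1 h2
  · exact hv'.2 h2
  · exact hv'.2 h1

/-- Hence `|A| - |Y| ≤ |Eg A| - |Eg Y|`. -/
theorem mono_card {n : ℕ} {S : Finset (ℕ × ℕ)} (hS : S ⊆ Ed n) {A Y : Finset ℕ} (hY : UpC S Y)
    (hYA : Y ⊆ A) (h : ConnTo S A Y) :
    A.card + (Eg S Y).card ≤ Y.card + (Eg S A).card := by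
  classical
  obtain ⟨par, lev, h0⟩ := bfs h
  obtain ⟨h1, h2⟩ := edg_inj hS h0
  have h3 := edg_notMem hS hY h0
  have h4 : (A \ Y).image (edg par) ⊆ Eg S A \ Eg S Y := by
    intro e he
    obtain ⟨v, hv, rfl⟩ := mem_image.1 he
    exact mem_sdiff.2 ⟨h2 v hv, h3 v hv⟩
  have h5 := card_le_card h4
  rw [card_image_of_injOn h1, card_sdiff_of_subset hYA, card_sdiff_of_subset] at h5
  · have h6 := card_le_card hYA
    have h7 : (Eg S Y).card ≤ (Eg S A).card :=
      card_le_card (fun e he => by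
        rw [Eg, mem_filter] at he ⊢
        exact ⟨he.1, hYA he.2⟩)
    omega
  · intro e he
    rw [Eg, mem_filter] at he ⊢
    exact ⟨he.1, hYA he.2⟩

/-- A connected up-set has at least `|A| - 1` edges (use `bfs` with `Y = {root}` and `edg_inj`). -/
theorem conn_card {n : ℕ} {S : Finset (ℕ × ℕ)} (hS : S ⊆ Ed n) {A : Finset ℕ} (h : Conn S A) :
    A.card ≤ (Eg S A).card + 1 := by
  classical
  obtain ⟨ρ, hρ⟩ := h.1
  have hto : ConnTo S A {ρ} := fun v hv => ⟨ρ, mem_singleton_self ρ, h.2 v hv ρ hρ⟩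
  obtain ⟨par, lev, h0⟩ := bfs hto
  obtain ⟨h1, h2⟩ := edg_inj hS h0
  have h4 : (A \ {ρ}).image (edg par) ⊆ Eg S A := by
    intro e he
    obtain ⟨v, hv, rfl⟩ := mem_image.1 he
    exact h2 v hv
  have h5 := card_le_card h4
  rw [card_image_of_injOn h1, card_sdiff_of_subset (singleton_subset_iff.2 hρ),
    card_singleton] at h5
  omega

end Pool.Agent.SparseOrd
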