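import Mathlib
import Pool.Agent.SparseOrd.Defs

set_option autoImplicit false

namespace Pool.Agent.SparseOrd

open Finset Pool.Agent.MP_ef8d06_pr

/-- One more edge at most doubles the number of functions. -/
theorem extra_sep {n t : ℕ} {S : Finset (ℕ × ℕ)} (hS : S ⊆ Ed n) {a b : ℕ} (hab : (a, b) ∈ Ed n)
    (h : Sep S n t (fun _ _ => True)) : Sep (insert (a, b) S) n (t + t) (fun _ _ => True) := by
  classical
  obtain ⟨F, hF, hsep⟩ := h
  have hab' := mem_Ed.1 hab
  simp only at hab'
  -- a bound for all values
  set N : ℕ := (∑ i : Fin t, ∑ z ∈ range n, F i z) + 1 with hN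
  have hFN : ∀ i : Fin t, ∀ z, z < n → F i z < N := by
    intro i z hz
    have h1 : F i z ≤ ∑ z ∈ range n, F i z :=
      Finset.single_le_sum (f := fun z => F i z) (fun _ _ => Nat.zero_le _) (mem_range.2 hz)
    have h2 : ∑ z ∈ range n, F i z ≤ ∑ i : Fin t, ∑ z ∈ range n, F i z :=
      Finset.single_le_sum (f := fun i => ∑ z ∈ range n, F i z) (fun _ _ => Nat.zero_le _)
        (mem_univ i)
    omega
  have hend : ∀ e ∈ insert (a, b) S, e.1 < n ∧ e.2 < n := by
    intro e he
    rcases mem_insert.1 he with rfl | he
    · exact ⟨by simp only; omega, hab'.2⟩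
    · have := mem_Ed.1 (hS he)
      omega
  have hsub : ∀ x y, pleq S x y → pleq (insert (a, b) S) x y :=
    fun x y h => pleq_mono (Finset.subset_insert _ _) h
  refine ⟨Fin.append (fun i v => if pleq S v a then 0 else F i v + 1)
    (fun i v => if pleq S b v then N else F i v), ?_, ?_⟩
  · intro i
    refine Fin.addCases (fun j => ?_) (fun j => ?_) i
    · rw [Fin.append_left]
      intro e he
      rcases mem_insert.1 he with rfl | he
      · have h0 : pleq S (a, b).1 a := Relation.ReflTransGen.refl
        rw [if_pos h0]
        exact Nat.zero_le _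
      · by_cases h2 : pleq S e.2 a
        · have h1 : pleq S e.1 a := Relation.ReflTransGen.head he h2
          rw [if_pos h1]
          exact Nat.zero_le _
        · rw [if_neg h2]
          split_ifs
          · exact Nat.zero_le _
          · have := hF j e he
            omega
    · rw [Fin.append_right]
      intro e he
      have hends := hend e he
      rcases mem_insert.1 he with rfl | he
      · simp only at hends ⊢
        rw [if_pos (show pleq S b b from Relation.ReflTransGen.refl)]
        split_ifs
        · exact le_rfl
        · exact (hFN j a hends.1).le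
      · by_cases h1 : pleq S b e.1
        · have h2 : pleq S b e.2 := Relation.ReflTransGen.tail h1 he
          rw [if_pos h1, if_pos h2]
        · rw [if_neg h1]
          split_ifs
          · exact (hFN j _ hends.1).le
          · exact hF j e he
  · intro x y hx hy _ hxy
    have h1 : ¬ pleq S x y := fun h => hxy (hsub _ _ h)
    obtain ⟨i, hi⟩ := hsep x y hx hy trivial h1
    by_cases hxa : pleq S x a
    · have hby : ¬ pleq S b y := by
        intro hby
        apply hxy
        have h2 : pleq (insert (a, b) S) x b :=
          Relation.ReflTransGen.tail (hsub _ _ hxa) (mem_insert_self _ _)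
        exact Relation.ReflTransGen.trans h2 (hsub _ _ hby)
      refine ⟨Fin.natAdd t i, ?_⟩
      rw [Fin.append_right]
      rw [if_neg hby]
      split_ifs
      · exact hFN i y hy
      · exact hi
    · refine ⟨Fin.castAdd t i, ?_⟩
      rw [Fin.append_left]
      rw [if_neg hxa]
      split_ifs
      · exact Nat.succ_pos _
      · omega

end Pool.Agent.SparseOrd
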