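import Mathlib
import Pool.Agent.SparseOrd.Defs

set_option autoImplicit false

namespace Pool.Agent.SparseOrd

open Finset Pool.Agent.MP_ef8d06_pr

/-- The (reflexive) ancestor relation of the rooted forest given by the parent function `par`
(roots are the fixed points of `par`): `Anc par z v` means that `z` is an ancestor of `v`. -/
def Anc (par : ℕ → ℕ) (z v : ℕ) : Prop := ∃ k : ℕ, par^[k] v = z

theorem DFS_aux (par lev : ℕ → ℕ) (s : Finset ℕ) (hs : ∀ v ∈ s, par v ∈ s)
    (hlev : ∀ v ∈ s, par v ≠ v → lev (par v) < lev v) :
    ∃ pos lo hi : ℕ → ℕ, ∀ z ∈ s, ∀ v ∈ s, (Anc par z v ↔ lo z ≤ pos v ∧ pos v ≤ hi z) := by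
  classical
  induction hc : s.card generalizing s with
  | zero =>
    rw [card_eq_zero] at hc
    subst hc
    exact ⟨id, id, id, fun z hz => absurd hz (notMem_empty z)⟩
  | succ m ih =>
    have hne : s.Nonempty := by rw [← card_pos]; omega
    obtain ⟨v, hv, hmax⟩ := exists_max_image s lev hne
    have hcl : ∀ w ∈ s.erase v, par w ∈ s.erase v := by
      intro w hw
      rw [mem_erase] at hw ⊢
      refine ⟨fun h => ?_, hs w hw.2⟩
      have h1 : par w ≠ w := fun h' => hw.1 (h'.symm.trans h)
      have h2 := hlev w hw.2 h1
      rw [h] at h2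
      have h3 := hmax w hw.2
      omega
    obtain ⟨pos, lo, hi, hI⟩ := ih (s.erase v) hcl (fun w hw => hlev w (mem_of_mem_erase hw)) (by
      rw [card_erase_of_mem hv]; omega)
    have hiter : ∀ w ∈ s.erase v, ∀ k, par^[k] w ∈ s.erase v := by
      intro w hw k
      induction k with
      | zero => exact hw
      | succ k ihk => rw [Function.iterate_succ_apply']; exact hcl _ ihk
    let N : ℕ := if par v = v then (∑ z ∈ s.erase v, hi z) + 1 else pos (par v)
    refine ⟨fun w => if w = v then 2 * N + 1 else 2 * pos w,
      fun z => if z = v then 2 * N + 1 else 2 * lo z,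
      fun z => if z = v then 2 * N + 1 else 2 * hi z + 1, ?_⟩
    intro z hz w hw
    by_cases hzv : z = v
    · by_cases hwv : w = v
      · subst hzv
        subst hwv
        simp only [if_true]
        exact ⟨fun _ => ⟨le_rfl, le_rfl⟩, fun _ => ⟨0, rfl⟩⟩
      · subst hzv
        simp only [if_true, if_neg hwv]
        constructor
        · rintro ⟨k, hk⟩
          have := hiter w (mem_erase.2 ⟨hwv, hw⟩) k
          rw [hk] at this
          exact absurd rfl (ne_of_mem_erase this)
        · rintro ⟨h1, h2⟩
          omega
    · have hz' : z ∈ s.erase v := mem_erase.2 ⟨hzv, hz⟩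
      by_cases hwv : w = v
      · subst hwv
        simp only [if_true, if_neg hzv]
        by_cases hroot : par w = w
        · have hN : N = (∑ z ∈ s.erase w, hi z) + 1 := if_pos hroot
          constructor
          · rintro ⟨k, hk⟩
            rw [Function.iterate_fixed hroot] at hk
            exact absurd hk.symm hzv
          · rintro ⟨h1, h2⟩
            have h3 := single_le_sum (f := hi) (fun _ _ => Nat.zero_le _) hz'
            omega
        · have hN : N = pos (par w) := if_neg hroot
          have hp : par w ∈ s.erase w := mem_erase.2 ⟨hroot, hs w hw⟩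
          have h1 := hI z hz' (par w) hp
          have h2 : Anc par z w ↔ Anc par z (par w) := by
            constructor
            · rintro ⟨k, hk⟩
              rcases k with _ | k
              · exact absurd hk.symm hzv
              · exact ⟨k, hk⟩
            · rintro ⟨k, hk⟩
              exact ⟨k + 1, hk⟩
          rw [h2, h1, hN]
          constructor
          · rintro ⟨h3, h4⟩
            constructor <;> omega
          · rintro ⟨h3, h4⟩
            constructor <;> omega
      · have hw' : w ∈ s.erase v := mem_erase.2 ⟨hwv, hw⟩
        simp only [if_neg hzv, if_neg hwv]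
        rw [hI z hz' w hw']
        constructor
        · rintro ⟨h3, h4⟩
          constructor <;> omega
        · rintro ⟨h3, h4⟩
          constructor <;> omega

/-- Depth first search: there is a numbering of the vertices for which the set of descendants of
every vertex is an interval. -/
theorem dfs (n : ℕ) (par lev : ℕ → ℕ) (hpar : ∀ v < n, par v < n)
    (hlev : ∀ v < n, par v ≠ v → lev (par v) < lev v) :
    ∃ pos lo hi : ℕ → ℕ, ∀ z v, z < n → v < n → (Anc par z v ↔ lo z ≤ pos v ∧ pos v ≤ hi z) := by
  obtain ⟨pos, lo, hi, h⟩ := DFS_aux par lev (range n)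
    (fun v hv => mem_range.2 (hpar v (mem_range.1 hv)))
    (fun v hv => hlev v (mem_range.1 hv))
  exact ⟨pos, lo, hi, fun z v hz hv => h z (mem_range.2 hz) v (mem_range.2 hv)⟩

end Pool.Agent.SparseOrd
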