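import Mathlib
import Pool.Agent.SparseOrd.Dfs

set_option autoImplicit false

namespace Pool.Agent.SparseOrd

open Finset Pool.Agent.MP_ef8d06_pr

lemma forest_ferrers {n t : ℕ} {S : Finset (ℕ × ℕ)} (f g : Fin t → ℕ → ℕ)
    (h1 : ∀ i x y, x < n → y < n → pleq S x y → f i x ≤ g i y)
    (h2 : ∀ x y, x < n → y < n → ¬ pleq S x y → ∃ i, g i y < f i x) :
    Sep S n t (fun _ _ => True) := by
  classical
  refine ⟨fun i v => ((range n).filter (fun u => pleq S u v)).sup (f i), ?_, ?_⟩
  · intro i e he
    apply Finset.sup_mono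
    intro u hu
    rw [mem_filter] at hu ⊢
    exact ⟨hu.1, Relation.ReflTransGen.tail hu.2 he⟩
  · intro x y hx hy _ hxy
    obtain ⟨i, hi⟩ := h2 x y hx hy hxy
    refine ⟨i, lt_of_le_of_lt ?_ (lt_of_lt_of_le hi ?_)⟩
    · apply Finset.sup_le
      intro u hu
      rw [mem_filter, mem_range] at hu
      exact h1 i u y hu.1 hy hu.2
    · apply Finset.le_sup (f := f i)
      rw [mem_filter, mem_range]
      exact ⟨hx, Relation.ReflTransGen.refl⟩

lemma forest_iter_lt {n : ℕ} {par : ℕ → ℕ} (hpar : ∀ v < n, par v < n) {v : ℕ} (hv : v < n)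
    (k : ℕ) : par^[k] v < n := by
  induction k with
  | zero => exact hv
  | succ k ih => rw [Function.iterate_succ_apply']; exact hpar _ ih

lemma forest_iter_lev {n : ℕ} {par lev : ℕ → ℕ} (hpar : ∀ v < n, par v < n)
    (hlev : ∀ v < n, par v ≠ v → lev (par v) < lev v) (k : ℕ) :
    ∀ v < n, par^[k] v = v ∨ lev (par^[k] v) < lev v := by
  induction k with
  | zero => intro v _; exact Or.inl rfl
  | succ k ih =>
    intro v hv
    rw [Function.iterate_succ_apply]
    by_cases h : par v = v
    · rw [h]; exact ih v hv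
    · right
      have h1 := hlev v hv h
      rcases ih (par v) (hpar v hv) with h2 | h2
      · rw [h2]; exact h1
      · omega

lemma forest_anc_antisymm {n : ℕ} {par lev : ℕ → ℕ} (hpar : ∀ v < n, par v < n)
    (hlev : ∀ v < n, par v ≠ v → lev (par v) < lev v) {z w : ℕ} (hz : z < n) (hw : w < n)
    (h1 : Anc par z w) (h2 : Anc par w z) : z = w := by
  obtain ⟨k, hk⟩ := h1
  obtain ⟨m, hm⟩ := h2
  rcases forest_iter_lev hpar hlev k w hw with h3 | h3
  · rw [hk] at h3; exact h3
  · rcases forest_iter_lev hpar hlev m z hz with h4 | h4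
    · rw [hm] at h4; exact h4.symm
    · rw [hk] at h3
      rw [hm] at h4
      omega

/-- the upward run from `x` of length `k` -/
def UpRun (S : Finset (ℕ × ℕ)) (par : ℕ → ℕ) (x k : ℕ) : Prop :=
  ∀ m < k, (par^[m] x, par^[m + 1] x) ∈ S

/-- the downward run from `y` of length `k` -/
def DownRun (S : Finset (ℕ × ℕ)) (par : ℕ → ℕ) (y k : ℕ) : Prop :=
  ∀ m < k, (par^[m + 1] y, par^[m] y) ∈ S

lemma upRun_pleq {S : Finset (ℕ × ℕ)} {par : ℕ → ℕ} {x k : ℕ} (h : UpRun S par x k) {j : ℕ}
    (hj : j ≤ k) : pleq S x (par^[j] x) := by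
  induction j with
  | zero => exact Relation.ReflTransGen.refl
  | succ j ih => exact Relation.ReflTransGen.tail (ih (by omega)) (h j (by omega))

lemma downRun_pleq {S : Finset (ℕ × ℕ)} {par : ℕ → ℕ} {y k : ℕ} (h : DownRun S par y k) {j : ℕ}
    (hj : j ≤ k) : pleq S (par^[j] y) y := by
  induction j with
  | zero => exact Relation.ReflTransGen.refl
  | succ j ih => exact Relation.ReflTransGen.head (h j (by omega)) (ih (by omega))

lemma exists_upRun {n : ℕ} {S : Finset (ℕ × ℕ)} (hS : S ⊆ Ed n) {par : ℕ → ℕ} (d : ℕ) :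
    ∀ x < n, n - x ≤ d → ∃ k, UpRun S par x k ∧ (par^[k] x, par^[k + 1] x) ∉ S := by
  induction d with
  | zero => intro x hx h; omega
  | succ d ih =>
    intro x hx h
    by_cases hs : (x, par x) ∈ S
    · have h1 := mem_Ed.1 (hS hs)
      simp only at h1
      obtain ⟨k, hk1, hk2⟩ := ih (par x) h1.2 (by omega)
      refine ⟨k + 1, ?_, hk2⟩
      intro m hm
      rcases m with _ | m
      · exact hs
      · exact hk1 m (by omega)
    · exact ⟨0, fun m hm => absurd hm (Nat.not_lt_zero _), hs⟩

lemma exists_downRun {n : ℕ} {S : Finset (ℕ × ℕ)} (hS : S ⊆ Ed n) {par : ℕ → ℕ} (y : ℕ) :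
    ∃ k, DownRun S par y k ∧ (par^[k + 1] y, par^[k] y) ∉ S := by
  induction y using Nat.strong_induction_on with
  | _ y ih =>
    by_cases hs : (par y, y) ∈ S
    · have h1 := mem_Ed.1 (hS hs)
      simp only at h1
      obtain ⟨k, hk1, hk2⟩ := ih (par y) h1.1
      refine ⟨k + 1, ?_, hk2⟩
      intro m hm
      rcases m with _ | m
      · exact hs
      · exact hk1 m (by omega)
    · exact ⟨0, fun m hm => absurd hm (Nat.not_lt_zero _), hs⟩

/-- the implication from left to right -/
lemma forest_forward {n : ℕ} {S : Finset (ℕ × ℕ)} (hS : S ⊆ Ed n) {par : ℕ → ℕ}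
    (hE : ∀ e ∈ S, e.1 = par e.2 ∨ e.2 = par e.1) {x y : ℕ} (h : pleq S x y) {l : ℕ}
    (hl : (par^[l + 1] y, par^[l] y) ∉ S) :
    (∀ k, UpRun S par x k → (par^[k] x, par^[k + 1] x) ∉ S → Anc par (par^[k] x) y) ∧
      Anc par (par^[l] y) x := by
  induction h using Relation.ReflTransGen.head_induction_on with
  | refl => exact ⟨fun k _ _ => ⟨k, rfl⟩, ⟨l, rfl⟩⟩
  | @head x x' hxx' _ ih =>
    obtain ⟨ih1, ih2⟩ := ih
    rcases hE _ hxx' with h1 | h1
    · -- `x = par x'`
      simp only at h1
      have h2 := mem_Ed.1 (hS hxx')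
      simp only at h2
      have h3 : Anc par x' y := by
        refine ih1 0 (fun m hm => absurd hm (Nat.not_lt_zero _)) ?_
        intro h4
        have h5 := mem_Ed.1 (hS h4)
        simp only [Function.iterate_zero, id_eq, Function.iterate_one, zero_add] at h5
        omega
      have h4 : Anc par x y := by
        obtain ⟨k, hk⟩ := h3
        exact ⟨k + 1, by rw [Function.iterate_succ_apply', hk, h1]⟩
      refine ⟨fun k _ _ => ?_, ?_⟩
      · obtain ⟨m, hm⟩ := h4
        exact ⟨k + m, by rw [Function.iterate_add_apply, hm]⟩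
      · obtain ⟨k, hk⟩ := ih2
        rcases k with _ | k
        · exfalso
          apply hl
          have h6 : x' = par^[l] y := hk
          rw [Function.iterate_succ_apply', ← h6, ← h1]
          exact hxx'
        · refine ⟨k, ?_⟩
          rw [h1]
          exact hk
    · -- `x' = par x`
      simp only at h1
      refine ⟨fun k hk1 hk2 => ?_, ?_⟩
      · rcases k with _ | k
        · exfalso
          apply hk2
          have : par^[0 + 1] x = x' := by rw [h1]; rfl
          rw [this]
          exact hxx'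
        · have h7 : par^[k + 1] x = par^[k] x' := by rw [h1]; rfl
          have h8 : par^[k + 1 + 1] x = par^[k + 1] x' := by rw [h1]; rfl
          rw [h7]
          apply ih1 k
          · intro m hm
            have := hk1 (m + 1) (by omega)
            have h9 : par^[m + 1] x = par^[m] x' := by rw [h1]; rfl
            have h10 : par^[m + 1 + 1] x = par^[m + 1] x' := by rw [h1]; rfl
            rw [h9, h10] at this
            exact this
          · rw [h7, h8] at hk2
            exact hk2
      · obtain ⟨k, hk⟩ := ih2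
        refine ⟨k + 1, ?_⟩
        rw [← hk, h1]
        rfl

/-- the implication from right to left -/
lemma forest_backward {n : ℕ} {S : Finset (ℕ × ℕ)} {par lev : ℕ → ℕ}
    (hpar : ∀ v < n, par v < n) (hlev : ∀ v < n, par v ≠ v → lev (par v) < lev v)
    {x y : ℕ} (hx : x < n) (hy : y < n) {k l : ℕ} (hk : UpRun S par x k) (hl : DownRun S par y l)
    (h1 : Anc par (par^[k] x) y) (h2 : Anc par (par^[l] y) x) : pleq S x y := by
  obtain ⟨i, hi⟩ := h1
  obtain ⟨j, hj⟩ := h2
  have hkn := forest_iter_lt hpar hx k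
  have hln := forest_iter_lt hpar hy l
  have hxk := upRun_pleq hk le_rfl
  have hly := downRun_pleq hl le_rfl
  by_cases hji : i ≤ l
  · -- `par^[k] x` lies on the run from `y`
    have := downRun_pleq hl hji
    rw [hi] at this
    exact Relation.ReflTransGen.trans hxk this
  · by_cases hjk : j ≤ k
    · have := upRun_pleq hk hjk
      rw [hj] at this
      exact Relation.ReflTransGen.trans this hly
    · -- both are ancestors of each other
      have h3 : Anc par (par^[k] x) (par^[l] y) := by
        refine ⟨i - l, ?_⟩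
        rw [← Function.iterate_add_apply, Nat.sub_add_cancel (by omega)]
        exact hi
      have h4 : Anc par (par^[l] y) (par^[k] x) := by
        refine ⟨j - k, ?_⟩
        rw [← Function.iterate_add_apply, Nat.sub_add_cancel (by omega)]
        exact hj
      have h5 := forest_anc_antisymm hpar hlev hkn hln h3 h4
      rw [h5] at hxk
      exact Relation.ReflTransGen.trans hxk hly

/-- The order generated by the edges of a forest is separated by four functions. -/
theorem forest_sep (n : ℕ) (S : Finset (ℕ × ℕ)) (hS : S ⊆ Ed n) (par lev : ℕ → ℕ)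
    (hpar : ∀ v < n, par v < n) (hlev : ∀ v < n, par v ≠ v → lev (par v) < lev v)
    (hE : ∀ e ∈ S, e.1 = par e.2 ∨ e.2 = par e.1) :
    Sep S n 4 (fun _ _ => True) := by
  classical
  obtain ⟨pos, lo, hi, hdfs⟩ := dfs n par lev hpar hlev
  have hA : ∀ x, ∃ k, x < n → UpRun S par x k ∧ (par^[k] x, par^[k + 1] x) ∉ S := by
    intro x
    by_cases hx : x < n
    · obtain ⟨k, hk⟩ := exists_upRun hS (par := par) (n - x) x hx le_rfl
      exact ⟨k, fun _ => hk⟩
    · exact ⟨0, fun h => absurd h hx⟩
  choose ka hka using hA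
  choose kb hkb using fun y => exists_downRun hS (par := par) y
  set a : ℕ → ℕ := fun x => par^[ka x] x with ha
  set b : ℕ → ℕ := fun y => par^[kb y] y with hb
  have han : ∀ x < n, a x < n := fun x hx => forest_iter_lt hpar hx _
  have hbn : ∀ x < n, b x < n := fun x hx => forest_iter_lt hpar hx _
  have hchar : ∀ x y, x < n → y < n → (pleq S x y ↔ Anc par (a x) y ∧ Anc par (b y) x) := by
    intro x y hx hy
    constructor
    · intro h
      obtain ⟨h1, h2⟩ := forest_forward hS hE h (hkb y).2
      exact ⟨h1 _ (hka x hx).1 (hka x hx).2, h2⟩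
    · rintro ⟨h1, h2⟩
      exact forest_backward hpar hlev hx hy (hka x hx).1 (hkb y).1 h1 h2
  set N : ℕ := ∑ z ∈ range n, (pos z + lo z + hi z) with hN
  have hNz : ∀ z < n, pos z + lo z + hi z ≤ N := fun z hz =>
    Finset.single_le_sum (f := fun z => pos z + lo z + hi z) (fun _ _ => Nat.zero_le _)
      (mem_range.2 hz)
  refine forest_ferrers
    ![fun x => lo (a x), fun x => N - hi (a x), fun x => N - pos x, fun x => pos x]
    ![fun y => pos y, fun y => N - pos y, fun y => N - lo (b y), fun y => hi (b y)] ?_ ?_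
  · intro i x y hx hy hxy
    obtain ⟨h1, h2⟩ := (hchar x y hx hy).1 hxy
    rw [hdfs _ _ (han x hx) hy] at h1
    rw [hdfs _ _ (hbn y hy) hx] at h2
    fin_cases i
    · exact h1.1
    · have := h1.2
      change N - hi (a x) ≤ N - pos y
      omega
    · have := h2.1
      change N - pos x ≤ N - lo (b y)
      omega
    · exact h2.2
  · intro x y hx hy hxy
    rw [hchar x y hx hy, hdfs _ _ (han x hx) hy, hdfs _ _ (hbn y hy) hx] at hxy
    have g1 := hNz (a x) (han x hx)
    have g2 := hNz (b y) (hbn y hy)
    have g3 := hNz x hx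
    have g4 := hNz y hy
    by_cases c1 : lo (a x) ≤ pos y
    · by_cases c2 : pos y ≤ hi (a x)
      · by_cases c3 : lo (b y) ≤ pos x
        · by_cases c4 : pos x ≤ hi (b y)
          · exact absurd ⟨⟨c1, c2⟩, c3, c4⟩ hxy
          · refine ⟨3, ?_⟩
            change hi (b y) < pos x
            omega
        · refine ⟨2, ?_⟩
          change N - lo (b y) < N - pos x
          omega
      · refine ⟨1, ?_⟩
        change N - pos y < N - hi (a x)
        omega
    · refine ⟨0, ?_⟩
      change pos y < lo (a x)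
      omega

end Pool.Agent.SparseOrd
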