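import Mathlib
import Pool.Agent.SparseOrd.Defs

set_option autoImplicit false

namespace Pool.Agent.SparseOrd

open Finset Pool.Agent.MP_ef8d06_pr

/-- the linear order given by a function, ties broken by the natural order -/
def lexOf {n : ℕ} (f : Fin n → ℕ) (x y : Fin n) : Prop := f x < f y ∨ (f x = f y ∧ x ≤ y)

lemma lexOf_linear {n : ℕ} (f : Fin n → ℕ) : IsLinearOrder (Fin n) (lexOf f) where
  refl := fun x => Or.inr ⟨rfl, le_rfl⟩
  trans := by
    rintro x y z (h | ⟨h, h'⟩) (k | ⟨k, k'⟩)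
    · exact Or.inl (h.trans k)
    · exact Or.inl (k ▸ h)
    · exact Or.inl (h ▸ k)
    · exact Or.inr ⟨h.trans k, h'.trans k'⟩
  antisymm := by
    rintro x y (h | ⟨h, h'⟩) (k | ⟨k, k'⟩)
    · omega
    · omega
    · omega
    · exact le_antisymm h' k'
  total := by
    intro x y
    unfold lexOf
    rcases lt_trichotomy (f x) (f y) with h | h | h
    · exact Or.inl (Or.inl h)
    · rcases le_total x y with h' | h'
      · exact Or.inl (Or.inr ⟨h, h'⟩)
      · exact Or.inr (Or.inr ⟨h.symm, h'⟩)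
    · exact Or.inr (Or.inl h)

lemma mono_of_sep {S : Finset (ℕ × ℕ)} {F : ℕ → ℕ} (hF : ∀ e ∈ S, F e.1 ≤ F e.2) {x y : ℕ}
    (h : pleq S x y) : F x ≤ F y := by
  induction h with
  | refl => exact le_rfl
  | tail _ hbc ih => exact ih.trans (hF _ hbc)

theorem dim_le_of_sep {n t : ℕ} {S : Finset (ℕ × ℕ)} (hS : S ⊆ Ed n) {Q : ℕ → ℕ → Prop}
    (hQ : ∀ x y, x < y → y < n → Q x y) (h : Sep S n t Q) : orderDim (prel n S) ≤ t + 1 := by
  obtain ⟨F, hF, hsep⟩ := h
  refine Nat.sInf_le ⟨fun i => Fin.cases (motive := fun _ => Fin n → Fin n → Prop)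
    (fun x y => x ≤ y) (fun j => lexOf (fun x => F j x)) i, ?_, ?_⟩
  · intro i
    refine Fin.cases ?_ (fun j => ?_) i
    · exact le_linear
    · exact lexOf_linear _
  · intro x y
    constructor
    · intro hxy i
      refine Fin.cases ?_ (fun j => ?_) i
      · exact prel_le hS x y hxy
      · have h1 : F j x ≤ F j y := mono_of_sep (hF j) hxy
        rcases lt_or_eq_of_le h1 with h2 | h2
        · exact Or.inl h2
        · exact Or.inr ⟨h2, prel_le hS x y hxy⟩
    · intro hall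
      by_contra hcon
      have h0 : x ≤ y := hall 0
      rcases lt_or_eq_of_le h0 with hlt | heq
      · obtain ⟨i, hi⟩ := hsep x y x.2 y.2 (hQ x y hlt y.2) hcon
        have h1 : lexOf (fun x : Fin n => F i x) x y := hall i.succ
        rcases h1 with h2 | ⟨h2, _⟩ <;> simp only at h2 <;> omega
      · subst heq
        exact hcon (prel_refl n S x)

theorem sep_mono {n t : ℕ} {S : Finset (ℕ × ℕ)} {Q R : ℕ → ℕ → Prop}
    (hQ : ∀ x y, x < n → y < n → R x y → Q x y) (h : Sep S n t Q) : Sep S n t R := by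
  obtain ⟨F, hF, hsep⟩ := h
  exact ⟨F, hF, fun x y hx hy hR hxy => hsep x y hx hy (hQ x y hx hy hR) hxy⟩

theorem sep_or {n t u : ℕ} {S : Finset (ℕ × ℕ)} {Q R : ℕ → ℕ → Prop}
    (h : Sep S n t Q) (h' : Sep S n u R) : Sep S n (t + u) (fun x y => Q x y ∨ R x y) := by
  obtain ⟨F, hF, hsep⟩ := h
  obtain ⟨G, hG, hsep'⟩ := h'
  refine ⟨Fin.append F G, ?_, ?_⟩
  · intro i
    refine Fin.addCases (fun j => ?_) (fun j => ?_) i
    · rw [Fin.append_left]; exact hF j
    · rw [Fin.append_right]; exact hG j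
  · rintro x y hx hy (hQ | hR) hxy
    · obtain ⟨i, hi⟩ := hsep x y hx hy hQ hxy
      exact ⟨Fin.castAdd u i, by rw [Fin.append_left]; exact hi⟩
    · obtain ⟨i, hi⟩ := hsep' x y hx hy hR hxy
      exact ⟨Fin.natAdd t i, by rw [Fin.append_right]; exact hi⟩

end Pool.Agent.SparseOrd
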