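import Mathlib
import Pool.Agent.SparseOrd.Mono
import Pool.Agent.SparseOrd.Forest
import Pool.Agent.SparseOrd.Extra
import Pool.Agent.SparseOrd.Bfs

set_option autoImplicit false

namespace Pool.Agent.SparseOrd

open Finset Pool.Agent.MP_ef8d06_pr

/-- A connected up-set with at most as many edges as vertices is separated by eight functions. -/
theorem comp_sep {n : ℕ} {S : Finset (ℕ × ℕ)} (hS : S ⊆ Ed n) {K : Finset ℕ} (hK : K ⊆ range n)
    (hup : UpC S K) (hc : Conn S K) (hcard : (Eg S K).card ≤ K.card) :
    Sep (Eg S K) n 8 (fun _ _ => True) := by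
  classical
  obtain ⟨ρ, hρ⟩ := hc.1
  have hto : ConnTo S K {ρ} := fun v hv => ⟨ρ, mem_singleton_self ρ, hc.2 v hv ρ hρ⟩
  obtain ⟨par₀, lev, h₀⟩ := bfs hto
  obtain ⟨hinj, hmem⟩ := edg_inj hS h₀
  set E₀ : Finset (ℕ × ℕ) := (K \ {ρ}).image (edg par₀) with hE₀
  have hE₀sub : E₀ ⊆ Eg S K := by
    intro e he
    obtain ⟨v, hv, rfl⟩ := mem_image.1 he
    exact hmem v hv
  have hEgS : Eg S K ⊆ Ed n := (filter_subset _ _).trans hS
  have hE₀card : E₀.card = K.card - 1 := by
    rw [hE₀, card_image_of_injOn hinj, card_sdiff_of_subset (singleton_subset_iff.2 hρ),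
      card_singleton]
  have hK1 : 1 ≤ K.card := card_pos.2 ⟨ρ, hρ⟩
  have hforest : Sep E₀ n 4 (fun _ _ => True) := by
    refine forest_sep n E₀ (hE₀sub.trans hEgS) (fun v => if v ∈ K ∧ v ≠ ρ then par₀ v else v) lev
      ?_ ?_ ?_
    · intro v hv
      by_cases h : v ∈ K ∧ v ≠ ρ
      · simp only [if_pos h]
        have h1 := (h₀ v h.1 (by simpa using h.2)).1.2.1
        exact mem_range.1 (hK h1)
      · simp only [if_neg h]
        exact hv
    · intro v hv
      by_cases h : v ∈ K ∧ v ≠ ρ
      · simp only [if_pos h]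
        intro _
        exact (h₀ v h.1 (by simpa using h.2)).2
      · simp only [if_neg h]
        intro h'
        exact absurd rfl h'
    · intro e he
      obtain ⟨v, hv, rfl⟩ := mem_image.1 he
      rw [mem_sdiff, mem_singleton] at hv
      have hv' : v ∈ K ∧ v ≠ ρ := hv
      by_cases hlt : v < par₀ v
      · have he : edg par₀ v = (v, par₀ v) := by unfold edg; rw [if_pos hlt]
        rw [he]
        right
        exact (if_pos hv').symm
      · have he : edg par₀ v = (par₀ v, v) := by unfold edg; rw [if_neg hlt]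
        rw [he]
        left
        exact (if_pos hv').symm
  have hdiff : (Eg S K \ E₀).card ≤ 1 := by
    rw [card_sdiff_of_subset hE₀sub, hE₀card]
    omega
  rcases Nat.eq_zero_or_pos (Eg S K \ E₀).card with h0 | h0
  · have heq : Eg S K = E₀ := by
      apply Subset.antisymm _ hE₀sub
      rw [card_eq_zero] at h0
      intro e he
      by_contra hne
      have : e ∈ Eg S K \ E₀ := mem_sdiff.2 ⟨he, hne⟩
      rw [h0] at this
      simp at this
    rw [heq]
    exact sep_mono (fun _ _ _ _ _ => Or.inl trivial) (sep_or hforest hforest)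
  · have h1 : (Eg S K \ E₀).card = 1 := by omega
    obtain ⟨e, he⟩ := card_eq_one.1 h1
    have heq : Eg S K = insert e E₀ := by
      ext f
      rw [mem_insert]
      constructor
      · intro hf
        by_cases hf0 : f ∈ E₀
        · exact Or.inr hf0
        · left
          have : f ∈ Eg S K \ E₀ := mem_sdiff.2 ⟨hf, hf0⟩
          rw [he] at this
          exact mem_singleton.1 this
      · rintro (rfl | hf)
        · have : f ∈ Eg S K \ E₀ := by rw [he]; exact mem_singleton_self _
          exact (mem_sdiff.1 this).1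
        · exact hE₀sub hf
    have heE : e ∈ Eg S K := by rw [heq]; exact mem_insert_self _ _
    have heEd : (e.1, e.2) ∈ Ed n := hEgS heE
    have := extra_sep (hE₀sub.trans hEgS) heEd hforest
    rw [heq]
    exact this

end Pool.Agent.SparseOrd
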