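import Mathlib
import Pool.Agent.SparseOrd.CompSep

set_option autoImplicit false

namespace Pool.Agent.SparseOrd

open Finset Pool.Agent.MP_ef8d06_pr

/-- HINT. For every nonempty `K = κ v` choose the eight functions `f K i` of `comp_sep`. Put
`F i v = 0` if `κ v = ∅`, else `1 + f (κ v) i v`; two more functions: `0` if `κ v = ∅`, else
`1 + encode (κ v)`, resp. `1 + N - encode (κ v)` (`N` large, only finitely many values occur for
`v < n`). If `κ x ≠ ∅` and not `pleq S x y`: `κ y = ∅`: any function; `κ y = κ x = K`: one of the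
eight (`pleq (Eg S K) x y` would give `pleq S x y`); `κ y ≠ κ x`: one of the last two. Monotone along
`e ∈ S`: if `κ e.1 ≠ ∅` then `e.2 ∈ κ e.1`, so `κ e.2 = κ e.1`, and `e ∈ Eg S (κ e.1)`. -/
theorem asm {n : ℕ} {S : Finset (ℕ × ℕ)} (hS : S ⊆ Ed n) {κ : ℕ → Finset ℕ}
    (hκ : IsCompMap S n κ) : Sep S n 10 (fun x _ => (κ x).Nonempty) := by
  classical
  obtain ⟨hκ1, hκ2⟩ := hκ
  -- the eight functions
  have hf : ∀ K : Finset ℕ, ∃ f : Fin 8 → ℕ → ℕ, (∃ v, κ v = K) → K.Nonempty →
      (∀ i, ∀ e ∈ Eg S K, f i e.1 ≤ f i e.2) ∧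
      ∀ x y, x < n → y < n → ¬ pleq (Eg S K) x y → ∃ i, f i y < f i x := by
    intro K
    by_cases hK : (∃ v, κ v = K) ∧ K.Nonempty
    · obtain ⟨⟨v, rfl⟩, hne⟩ := hK
      obtain ⟨h1, h2, h3, h4, h5⟩ := hκ2 v hne
      obtain ⟨f, hf1, hf2⟩ := comp_sep hS h2 h3 h4 h5
      exact ⟨f, fun _ _ => ⟨hf1, fun x y hx hy hxy => hf2 x y hx hy trivial hxy⟩⟩
    · exact ⟨fun _ _ => 0, fun h1 h2 => absurd ⟨h1, h2⟩ hK⟩
  choose f hf using hf
  set N : ℕ := (range n).sup (fun v => Encodable.encode (κ v)) with hN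
  have hNle : ∀ v < n, Encodable.encode (κ v) ≤ N := fun v hv =>
    Finset.le_sup (f := fun v => Encodable.encode (κ v)) (mem_range.mpr hv)
  let F : Fin 10 → ℕ → ℕ := fun i v => if κ v = ∅ then 0 else
    if h : i.val < 8 then 1 + f (κ v) ⟨i, h⟩ v else
      if i.val = 8 then 1 + Encodable.encode (κ v) else 1 + (N - Encodable.encode (κ v))
  have hstep : ∀ e ∈ S, κ e.1 ≠ ∅ → κ e.2 = κ e.1 := by
    intro e he hne
    obtain ⟨h1, h2, h3, h4, h5⟩ := hκ2 e.1 (nonempty_iff_ne_empty.mpr hne)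
    exact hκ1 e.1 e.2 (h3 e he h1)
  refine ⟨F, ?_, ?_⟩
  · intro i e he
    by_cases hne : κ e.1 = ∅
    · simp only [F, hne, if_true]
      exact Nat.zero_le _
    · have h1 := hstep e he hne
      have hmem : e ∈ Eg S (κ e.1) := by
        unfold Eg
        rw [mem_filter]
        exact ⟨he, (hκ2 e.1 (nonempty_iff_ne_empty.mpr hne)).1⟩
      have h2 := (hf (κ e.1) ⟨e.1, rfl⟩ (nonempty_iff_ne_empty.mpr hne)).1
      simp only [F, h1, hne, if_false]
      split_ifs with h3 h4
      · exact Nat.add_le_add_left (h2 ⟨i, h3⟩ e hmem) 1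
      · exact le_rfl
      · exact le_rfl
  · intro x y hx hy hxK hxy
    have hxne : κ x ≠ ∅ := nonempty_iff_ne_empty.mp hxK
    by_cases hyne : κ y = ∅
    · refine ⟨8, ?_⟩
      simp only [F, hyne, hxne, if_true, if_false]
      split_ifs <;> omega
    · by_cases heq : κ y = κ x
      · obtain ⟨i, hi⟩ := (hf (κ x) ⟨x, rfl⟩ hxK).2 x y hx hy (fun h => hxy
          (pleq_mono (filter_subset _ _) h))
        refine ⟨⟨i.val, by omega⟩, ?_⟩
        simp only [F, hxne, heq, if_false, i.isLt, dif_pos]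
        exact Nat.add_lt_add_left hi 1
      · have hne : Encodable.encode (κ y) ≠ Encodable.encode (κ x) := fun h =>
          heq (Encodable.encode_injective h)
        have h1 := hNle y hy
        have h2 := hNle x hx
        rcases Nat.lt_or_gt_of_ne hne with h | h
        · refine ⟨⟨8, by omega⟩, ?_⟩
          simp only [F, hxne, hyne, if_false, lt_irrefl, dif_neg, not_false_eq_true, if_true]
          omega
        · refine ⟨⟨9, by omega⟩, ?_⟩
          have h3 : ¬ (9 < 8) := by omega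
          have h4 : ¬ (9 = 8) := by omega
          simp only [F, hxne, hyne, if_false, dif_neg h3, if_neg h4]
          omega

end Pool.Agent.SparseOrd
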