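import Mathlib
import Pool.Agent.SparseOrd.Defs

set_option autoImplicit false

namespace Pool.Agent.SparseOrd

open Finset Pool.Agent.MP_ef8d06_pr

/-- the number of vertices is at most the number of edges plus the number of starting points -/
lemma reach_card_le (S : Finset (ℕ × ℕ)) (X : Finset ℕ) (v : ℕ) :
    (reach S X v).card ≤ (Eg S (reach S X v)).card + (X ∩ range v).card := by
  have h1 : reach S X v ⊆ (Eg S (reach S X v)).image Prod.snd ∪ (X ∩ range v) := by
    intro y hy
    have hyv := mem_reach_lt hy
    rw [mem_reach_iff S X hyv] at hy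
    rw [mem_union]
    rcases hy with h | ⟨u, hu, he⟩
    · right
      rw [mem_inter, mem_range]
      exact ⟨h, hyv⟩
    · left
      rw [mem_image]
      refine ⟨(u, y), ?_, rfl⟩
      rw [Eg, mem_filter]
      exact ⟨he, mem_reach_of_mem_reach hu ((mem_reach_lt hu).trans hyv)⟩
  refine (card_le_card h1).trans ((card_union_le _ _).trans ?_)
  exact Nat.add_le_add_right card_image_le _

lemma inter_range_subset_reach (S : Finset (ℕ × ℕ)) (X : Finset ℕ) (v : ℕ) :
    X ∩ range v ⊆ reach S X v := by
  intro y hy
  rw [mem_inter, mem_range] at hy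
  exact mem_reach_of_mem hy.2 hy.1

lemma reach_eq_empty {S : Finset (ℕ × ℕ)} {X : Finset ℕ} {v : ℕ} (h : X ∩ range v = ∅) :
    reach S X v = ∅ := by
  rw [Finset.eq_empty_iff_forall_notMem]
  intro y
  induction y using Nat.strong_induction_on with
  | _ y ih =>
    intro hy
    have hyv := mem_reach_lt hy
    rw [mem_reach_iff S X hyv] at hy
    rcases hy with h' | ⟨u, hu, _⟩
    · have : y ∈ X ∩ range v := by rw [mem_inter, mem_range]; exact ⟨h', hyv⟩
      rw [h] at this
      simp at this
    · have huy := mem_reach_lt hu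
      exact ih u huy (mem_reach_of_mem_reach hu (huy.trans hyv))

lemma pow_diff_le {b h : ℝ} (hb0 : 0 ≤ b) (hb1 : b ≤ 1) (hh : 0 ≤ h) (x : ℕ) :
    (b + h) ^ x - b ^ x ≤ (1 + h) ^ x - 1 ∧ 0 ≤ (b + h) ^ x - b ^ x := by
  refine ⟨?_, ?_⟩
  · induction x with
    | zero => simp
    | succ x ih =>
      have h1 : (b + h) ^ (x + 1) - b ^ (x + 1) = (b + h) * ((b + h) ^ x - b ^ x) + h * b ^ x := by
        ring
      have h2 : (1 + h) ^ (x + 1) - 1 = (1 + h) * ((1 + h) ^ x - 1) + h * 1 := by ring
      rw [h1, h2]
      have h3 : 0 ≤ (b + h) ^ x - b ^ x :=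
        sub_nonneg.2 (pow_le_pow_left₀ hb0 (by linarith) x)
      have h4 : b ^ x ≤ 1 := pow_le_one₀ hb0 hb1
      have h5 : (b + h) * ((b + h) ^ x - b ^ x) ≤ (1 + h) * ((1 + h) ^ x - 1) :=
        mul_le_mul (by linarith) ih h3 (by linarith)
      have h6 : h * b ^ x ≤ h * 1 := mul_le_mul_of_nonneg_left h4 hh
      linarith
  · exact sub_nonneg.2 (pow_le_pow_left₀ hb0 (by linarith) x)

lemma exp_neg_le' {u : ℝ} (hu : 0 ≤ u) : Real.exp (-u) ≤ 1 - u + u ^ 2 / 2 := by
  have h1 := Real.quadratic_le_exp_of_nonneg hu
  have h2 : 0 < 1 - u + u ^ 2 / 2 := by nlinarith [sq_nonneg (u - 1)]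
  have h3 : 1 ≤ (1 - u + u ^ 2 / 2) * Real.exp u := by
    have h4 : (1 - u + u ^ 2 / 2) * (1 + u + u ^ 2 / 2) ≤ (1 - u + u ^ 2 / 2) * Real.exp u :=
      mul_le_mul_of_nonneg_left h1 h2.le
    have h5 : (1 - u + u ^ 2 / 2) * (1 + u + u ^ 2 / 2) = 1 + u ^ 4 / 4 := by ring
    have h6 : 0 ≤ u ^ 4 := by positivity
    linarith
  rw [Real.exp_neg, inv_le_iff_one_le_mul₀ (Real.exp_pos _)]
  exact h3

/-- the numerical inequality for one step -/
lemma step_num {p z M q x : ℝ} (hp0 : 0 ≤ p) (hp1 : p ≤ 1) (hz : 1 ≤ z) (hq : 0 ≤ q)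
    (hx : 0 ≤ x) (hxM : x ≤ M) (hη : p * z * M ≤ 1) :
    Real.exp (-(p * x)) + p * (x + q) * Real.exp (p * z * x) ≤
      Real.exp (p * q * Real.exp (p * z * M) + 5 / 2 * p ^ 2 * M ^ 2 * z) := by
  have hpx : 0 ≤ p * x := by positivity
  have hu0 : 0 ≤ p * z * x := by positivity
  have hu1 : p * z * x ≤ p * z * M := mul_le_mul_of_nonneg_left hxM (by positivity)
  have h1 := exp_neg_le' hpx
  have h2 : Real.exp (p * z * x) ≤ 1 + 2 * (p * z * x) := by
    have h3 := Real.abs_exp_sub_one_sub_id_le (x := p * z * x) (by
      rw [abs_of_nonneg hu0]; linarith)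
    have h4 := (abs_le.1 h3).2
    nlinarith
  have h5 : Real.exp (p * z * x) ≤ Real.exp (p * z * M) := Real.exp_le_exp.2 hu1
  have h6 : p * x * Real.exp (p * z * x) ≤ p * x * (1 + 2 * (p * z * x)) :=
    mul_le_mul_of_nonneg_left h2 hpx
  have h7 : p * q * Real.exp (p * z * x) ≤ p * q * Real.exp (p * z * M) :=
    mul_le_mul_of_nonneg_left h5 (by positivity)
  have h8 := Real.add_one_le_exp (p * q * Real.exp (p * z * M) + 5 / 2 * p ^ 2 * M ^ 2 * z)
  have h9 : p ^ 2 * x ^ 2 * z ≤ p ^ 2 * M ^ 2 * z := by
    have : x ^ 2 ≤ M ^ 2 := pow_le_pow_left₀ hx hxM 2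
    have h10 : p ^ 2 * x ^ 2 ≤ p ^ 2 * M ^ 2 := mul_le_mul_of_nonneg_left this (by positivity)
    exact mul_le_mul_of_nonneg_right h10 (by linarith)
  have h11 : (p * x) ^ 2 ≤ p ^ 2 * x ^ 2 * z := by
    have : 0 ≤ p ^ 2 * x ^ 2 := by positivity
    nlinarith
  have h12 : p * (x + q) * Real.exp (p * z * x) =
      p * x * Real.exp (p * z * x) + p * q * Real.exp (p * z * x) := by ring
  have h13 : p * x * (1 + 2 * (p * z * x)) = p * x + 2 * (p ^ 2 * x ^ 2 * z) := by ring
  rw [h12]
  nlinarith

lemma asc_succ_ratio {x r q : ℕ} (hrx : r ≤ x) (hr0 : r = 0 → x = 0) :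
    ((x + 1).ascFactorial q : ℝ) * ((max r 1).ascFactorial q : ℝ) ≤
      ((max x 1).ascFactorial q : ℝ) * ((max (r + 1) 1).ascFactorial q : ℝ) := by
  rcases Nat.eq_zero_or_pos r with h | h
  · have hx := hr0 h
    subst hx; subst h
    simp
  · have hx : 1 ≤ x := by omega
    have e1 : max r 1 = r := by omega
    have e2 : max x 1 = x := by omega
    have e3 : max (r + 1) 1 = r + 1 := by omega
    rw [e1, e2, e3]
    have hx0 : (0 : ℝ) < x := by exact_mod_cast hx
    have hr' : (0 : ℝ) < r := by exact_mod_cast h
    have hrx' : (r : ℝ) ≤ x := by exact_mod_cast hrx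
    have f1 := ascFactorial_succ_left' x q
    have f2 := ascFactorial_succ_left' r q
    have g1 : ((x + 1).ascFactorial q : ℝ) = (x + q) / x * (x.ascFactorial q : ℝ) := by
      field_simp; linarith
    have g2 : ((r + 1).ascFactorial q : ℝ) = (r + q) / r * (r.ascFactorial q : ℝ) := by
      field_simp; linarith
    rw [g1, g2]
    have h3 : ((x : ℝ) + q) / x ≤ (r + q) / r := by
      rw [div_le_div_iff₀ hx0 hr']
      have : (0 : ℝ) ≤ q := by positivity
      nlinarith
    have h4 : 0 ≤ (x.ascFactorial q : ℝ) * (r.ascFactorial q : ℝ) := by positivity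
    nlinarith [mul_le_mul_of_nonneg_right h3 h4]

/-- the weight at time `v` -/
noncomputable def wt (X : Finset ℕ) (M q : ℕ) (z : ℝ) (v : ℕ) (S : Finset (ℕ × ℕ)) : ℝ :=
  if (reach S X v).card ≤ M then
    z ^ ((Eg S (reach S X v)).card + (X ∩ range v).card - (reach S X v).card) *
      ((max (reach S X v).card 1).ascFactorial q : ℝ) else 0

lemma wt_nonneg (X : Finset ℕ) (M q : ℕ) {z : ℝ} (hz : 0 ≤ z) (v : ℕ) (S : Finset (ℕ × ℕ)) :
    0 ≤ wt X M q z v S := by
  unfold wt
  split_ifs
  · positivity
  · exact le_rfl

/-- how everything changes in one step -/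
lemma step_data {v : ℕ} {X : Finset ℕ} {S₁ S₂ : Finset (ℕ × ℕ)} (h₁ : S₁ ⊆ Ed v)
    (h₂ : S₂ ⊆ star v) :
    let R := reach S₁ X v
    let F := R.image (fun u => (u, v))
    (reach (S₁ ∪ S₂) X (v + 1) = if v ∈ X ∨ ¬ Disjoint S₂ F then insert v R else R) ∧
    (Eg (S₁ ∪ S₂) (reach (S₁ ∪ S₂) X (v + 1))).card = (Eg S₁ R).card + (S₂ ∩ F).card := by
  intro R F
  have e2 : reach (S₁ ∪ S₂) X v = R := by
    refine reach_congr X fun e he => ?_
    simp only [mem_union, or_iff_left_iff_imp]
    intro h3
    have := mem_star.1 (h₂ h3)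
    have := mem_Ed.1 he
    omega
  have e3 : (∃ u ∈ R, (u, v) ∈ S₁ ∪ S₂) ↔ ¬ Disjoint S₂ F := by
    rw [Finset.not_disjoint_iff]
    constructor
    · rintro ⟨u, hu, h3⟩
      rcases Finset.mem_union.1 h3 with h4 | h4
      · have := mem_Ed.1 (h₁ h4)
        simp at this
      · exact ⟨(u, v), h4, Finset.mem_image.2 ⟨u, hu, rfl⟩⟩
    · rintro ⟨e, he, heF⟩
      obtain ⟨u, hu, rfl⟩ := Finset.mem_image.1 heF
      exact ⟨u, hu, Finset.mem_union_right _ he⟩
  have e4 : reach (S₁ ∪ S₂) X (v + 1) = if v ∈ X ∨ ¬ Disjoint S₂ F then insert v R else R := by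
    rw [reach, e2]
    by_cases hv : v ∈ X
    · simp [hv]
    · simp only [hv, false_or]
      by_cases hd : Disjoint S₂ F
      · rw [if_neg (by rw [e3]; exact not_not.2 hd), if_neg (not_not.2 hd)]
      · rw [if_pos (e3.2 hd), if_pos hd]
  refine ⟨e4, ?_⟩
  have e5 : Eg (S₁ ∪ S₂) (reach (S₁ ∪ S₂) X (v + 1)) = Eg S₁ R ∪ (S₂ ∩ F) := by
    ext e
    simp only [Eg, mem_filter, mem_union, mem_inter]
    have hsub : e.1 ≠ v → (e.1 ∈ reach (S₁ ∪ S₂) X (v + 1) ↔ e.1 ∈ R) := by
      intro hne
      rw [e4]
      split_ifs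
      · rw [mem_insert]; simp [hne]
      · rfl
    constructor
    · rintro ⟨h3 | h3, h4⟩
      · left
        have h5 := mem_Ed.1 (h₁ h3)
        exact ⟨h3, (hsub (by omega)).1 h4⟩
      · right
        have h5 := mem_star.1 (h₂ h3)
        refine ⟨h3, mem_image.2 ⟨e.1, (hsub (by omega)).1 h4, ?_⟩⟩
        rw [← h5.2]
    · rintro (⟨h3, h4⟩ | ⟨h3, h4⟩)
      · have h5 := mem_Ed.1 (h₁ h3)
        exact ⟨Or.inl h3, (hsub (by omega)).2 h4⟩
      · obtain ⟨u, hu, rfl⟩ := mem_image.1 h4
        have h5 := mem_star.1 (h₂ h3)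
        exact ⟨Or.inr h3, (hsub (by simp only at h5 ⊢; omega)).2 hu⟩
  rw [e5, card_union_of_disjoint]
  rw [disjoint_left]
  intro e he he'
  have h3 := mem_Ed.1 (h₁ (mem_filter.1 he).1)
  have h4 := mem_star.1 (h₂ (mem_inter.1 he').1)
  omega

/-- one step of the exploration -/
lemma step_wt {p : ℝ} (hp0 : 0 ≤ p) (hp1 : p ≤ 1) {X : Finset ℕ} (M q : ℕ) {z : ℝ} (hz : 1 ≤ z)
    (hη : p * z * M ≤ 1) (v : ℕ) {S₁ : Finset (ℕ × ℕ)} (h₁ : S₁ ⊆ Ed v) :
    EE p (star v) (fun S₂ => wt X M q z (v + 1) (S₁ ∪ S₂)) *
        ((max (X ∩ range v).card 1).ascFactorial q : ℝ) ≤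
      (if v ∈ X then Real.exp (p * z * M) else
        Real.exp (p * q * Real.exp (p * z * M) + 5 / 2 * p ^ 2 * M ^ 2 * z)) *
      wt X M q z v S₁ * ((max (X ∩ range (v + 1)).card 1).ascFactorial q : ℝ) := by
  have hz0 : (0 : ℝ) ≤ z := by linarith
  have hzp : (0 : ℝ) < z := by linarith
  set R := reach S₁ X v with hR
  set F : Finset (ℕ × ℕ) := R.image (fun u => (u, v)) with hF
  have hFcard : F.card = R.card := by
    apply Finset.card_image_of_injective
    intro a b hab
    simpa using hab
  have hFs : F ⊆ star v := by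
    intro e he
    obtain ⟨u, hu, rfl⟩ := Finset.mem_image.1 he
    rw [mem_star]
    exact ⟨mem_reach_lt hu, rfl⟩
  have hvR : v ∉ R := fun h => by have := mem_reach_lt h; omega
  have hEp : EE p (star v) (fun S => z ^ (S ∩ F).card) = (1 - p + p * z) ^ R.card := by
    rw [EE_pow_card p z hFs, hFcard]
  have hle := reach_card_le S₁ X v
  rw [← hR] at hle
  have hrx : (X ∩ range v).card ≤ R.card := card_le_card (inter_range_subset_reach S₁ X v)
  have hr0 : (X ∩ range v).card = 0 → R.card = 0 := by
    intro h
    rw [card_eq_zero] at h ⊢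
    exact reach_eq_empty h
  have hw0 := wt_nonneg X M q hz0 v S₁
  have hasc0 : ∀ m : ℕ, (0 : ℝ) ≤ (m.ascFactorial q : ℝ) := fun m => by positivity
  by_cases hv : v ∈ X
  · rw [if_pos hv]
    have hrv : (X ∩ range (v + 1)).card = (X ∩ range v).card + 1 := by
      have : X ∩ range (v + 1) = insert v (X ∩ range v) := by
        ext y
        simp only [mem_inter, mem_range, mem_insert]
        constructor
        · rintro ⟨h3, h4⟩
          rcases Nat.lt_succ_iff_lt_or_eq.1 h4 with h5 | h5
          · exact Or.inr ⟨h3, h5⟩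
          · exact Or.inl h5
        · rintro (rfl | ⟨h3, h4⟩)
          · exact ⟨hv, Nat.lt_succ_self _⟩
          · exact ⟨h3, by omega⟩
      rw [this, card_insert_of_notMem]
      simp
    -- pointwise
    by_cases hM : R.card ≤ M
    · set a := (Eg S₁ R).card + (X ∩ range v).card - R.card with ha
      have hwt : wt X M q z v S₁ = z ^ a * ((max R.card 1).ascFactorial q : ℝ) := by
        unfold wt
        rw [← hR, if_pos hM]
      have hpt : EE p (star v) (fun S₂ => wt X M q z (v + 1) (S₁ ∪ S₂)) ≤
          EE p (star v) (fun S₂ => (z ^ a * ((R.card + 1).ascFactorial q : ℝ)) *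
            z ^ (S₂ ∩ F).card) := by
        refine EE_mono hp0 hp1 fun S₂ h₂ => ?_
        obtain ⟨d1, d2⟩ := step_data (X := X) h₁ h₂
        simp only [← hR] at d1 d2
        rw [if_pos (Or.inl hv)] at d1
        unfold wt
        rw [d2, d1, card_insert_of_notMem hvR, hrv]
        split_ifs with hc
        · have e1 : (Eg S₁ R).card + (S₂ ∩ F).card + ((X ∩ range v).card + 1) - (R.card + 1) =
              a + (S₂ ∩ F).card := by omega
          have e2 : max (R.card + 1) 1 = R.card + 1 := by omega
          rw [← hF, e1, e2, pow_add]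
          apply le_of_eq
          ring
        · positivity
      rw [EE_const_mul, hEp] at hpt
      have h3 : (1 - p + p * z) ^ R.card ≤ Real.exp (p * z * M) := by
        have h4 : 1 - p + p * z ≤ Real.exp (p * z) := by
          have := Real.add_one_le_exp (p * z); linarith
        have h5 : 0 ≤ 1 - p + p * z := by
          have : 0 ≤ p * z := by positivity
          linarith
        calc (1 - p + p * z) ^ R.card ≤ (Real.exp (p * z)) ^ R.card := pow_le_pow_left₀ h5 h4 _
          _ = Real.exp (p * z * R.card) := by rw [← Real.exp_nat_mul]; ring_nf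
          _ ≤ Real.exp (p * z * M) := by
              apply Real.exp_le_exp.2
              have : (R.card : ℝ) ≤ M := by exact_mod_cast hM
              exact mul_le_mul_of_nonneg_left this (by positivity)
      have h6 := asc_succ_ratio (q := q) hrx hr0
      rw [hwt, hrv]
      have hza : 0 ≤ z ^ a := by positivity
      calc EE p (star v) (fun S₂ => wt X M q z (v + 1) (S₁ ∪ S₂)) *
            ((max (X ∩ range v).card 1).ascFactorial q : ℝ)
          ≤ (z ^ a * ((R.card + 1).ascFactorial q : ℝ) * (1 - p + p * z) ^ R.card) *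
            ((max (X ∩ range v).card 1).ascFactorial q : ℝ) :=
            mul_le_mul_of_nonneg_right hpt (hasc0 _)
        _ ≤ (z ^ a * ((R.card + 1).ascFactorial q : ℝ) * Real.exp (p * z * M)) *
            ((max (X ∩ range v).card 1).ascFactorial q : ℝ) := by
            apply mul_le_mul_of_nonneg_right _ (hasc0 _)
            exact mul_le_mul_of_nonneg_left h3 (mul_nonneg hza (hasc0 _))
        _ = (z ^ a * Real.exp (p * z * M)) * (((R.card + 1).ascFactorial q : ℝ) *
            ((max (X ∩ range v).card 1).ascFactorial q : ℝ)) := by ring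
        _ ≤ (z ^ a * Real.exp (p * z * M)) * (((max R.card 1).ascFactorial q : ℝ) *
            ((max ((X ∩ range v).card + 1) 1).ascFactorial q : ℝ)) :=
            mul_le_mul_of_nonneg_left h6 (mul_nonneg hza (Real.exp_pos _).le)
        _ = _ := by ring
    · -- too large
      have h0 : EE p (star v) (fun S₂ => wt X M q z (v + 1) (S₁ ∪ S₂)) = 0 := by
        rw [← EE_const p (star v) 0]
        refine EE_congr fun S₂ h₂ => ?_
        obtain ⟨d1, d2⟩ := step_data (X := X) h₁ h₂
        simp only [← hR] at d1 d2
        rw [if_pos (Or.inl hv)] at d1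
        unfold wt
        rw [if_neg]
        rw [d1, card_insert_of_notMem hvR]
        omega
      rw [h0, zero_mul]
      positivity
  · rw [if_neg hv]
    have hrv : X ∩ range (v + 1) = X ∩ range v := by
      ext y
      simp only [mem_inter, mem_range]
      constructor
      · rintro ⟨h3, h4⟩
        refine ⟨h3, ?_⟩
        rcases Nat.lt_succ_iff_lt_or_eq.1 h4 with h5 | h5
        · exact h5
        · exact absurd (h5 ▸ h3) hv
      · rintro ⟨h3, h4⟩
        exact ⟨h3, by omega⟩
    rw [hrv]
    apply mul_le_mul_of_nonneg_right _ (hasc0 _)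
    set ρ := Real.exp (p * q * Real.exp (p * z * M) + 5 / 2 * p ^ 2 * M ^ 2 * z) with hρ
    have hρ1 : 1 ≤ ρ := Real.one_le_exp (by positivity)
    by_cases hM : R.card ≤ M
    · set a := (Eg S₁ R).card + (X ∩ range v).card - R.card with ha
      have hwt : wt X M q z v S₁ = z ^ a * ((max R.card 1).ascFactorial q : ℝ) := by
        unfold wt
        rw [← hR, if_pos hM]
      rcases Nat.eq_zero_or_pos R.card with hx0 | hx0
      · -- nothing reached yet
        have hF0 : F = ∅ := by
          rw [hF, card_eq_zero.1 hx0]; rfl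
        have h0 : EE p (star v) (fun S₂ => wt X M q z (v + 1) (S₁ ∪ S₂)) = wt X M q z v S₁ := by
          rw [← EE_const p (star v) (wt X M q z v S₁)]
          refine EE_congr fun S₂ h₂ => ?_
          obtain ⟨d1, d2⟩ := step_data (X := X) h₁ h₂
          simp only [← hR, ← hF, hF0, hv, false_or, disjoint_empty_right, not_true_eq_false,
            if_false, inter_empty, card_empty, add_zero] at d1 d2
          unfold wt
          rw [d2, d1, hrv]
        rw [h0]
        nlinarith
      · -- the main case
        have e2 : max R.card 1 = R.card := by omega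
        have hx : (0 : ℝ) < R.card := by exact_mod_cast hx0
        have hpt : EE p (star v) (fun S₂ => z * wt X M q z (v + 1) (S₁ ∪ S₂)) ≤
            EE p (star v) (fun S₂ => z ^ a * (z * (R.card.ascFactorial q : ℝ) *
              (if Disjoint S₂ F then 1 else 0)) + z ^ a * ((R.card + 1).ascFactorial q : ℝ) *
              (z ^ (S₂ ∩ F).card - (if Disjoint S₂ F then 1 else 0))) := by
          refine EE_mono hp0 hp1 fun S₂ h₂ => ?_
          obtain ⟨d1, d2⟩ := step_data (X := X) h₁ h₂
          simp only [← hR, ← hF, hv, false_or] at d1 d2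
          by_cases hd : Disjoint S₂ F
          · rw [if_neg (not_not.2 hd)] at d1
            have hd0 : (S₂ ∩ F).card = 0 := by
              rw [card_eq_zero]; exact disjoint_iff_inter_eq_empty.1 hd
            unfold wt
            rw [d2, d1, hrv, if_pos hM, hd0, if_pos hd, e2, add_zero]
            rw [← ha]
            apply le_of_eq
            simp only [pow_zero]
            ring
          · rw [if_pos hd] at d1
            have hd1 : 1 ≤ (S₂ ∩ F).card := by
              rw [Nat.one_le_iff_ne_zero, Ne, card_eq_zero]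
              exact fun h => hd (disjoint_iff_inter_eq_empty.2 h)
            unfold wt
            rw [d2, d1, card_insert_of_notMem hvR, hrv, if_neg hd]
            split_ifs with hc
            · have e3 : max (R.card + 1) 1 = R.card + 1 := by omega
              have e4 : z * z ^ ((Eg S₁ R).card + (S₂ ∩ F).card + (X ∩ range v).card -
                  (R.card + 1)) = z ^ a * z ^ (S₂ ∩ F).card := by
                rw [← pow_succ', ← pow_add]
                congr 1
                omega
              rw [e3, ← mul_assoc, e4]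
              apply le_of_eq
              ring
            · rw [mul_zero, mul_zero, mul_zero, zero_add, sub_zero]
              positivity
        have hav : EE p (star v) (fun S => if Disjoint S F then (1:ℝ) else 0) =
            (1 - p) ^ R.card := by
          have h5 := PP_avoid p hFs
          unfold PP at h5
          rw [← hFcard, ← h5]
          refine EE_congr fun S _ => ?_
          by_cases hd : Disjoint S F <;> simp [hd]
        have hsum : EE p (star v) (fun S₂ => z ^ a * (z * (R.card.ascFactorial q : ℝ) *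
              (if Disjoint S₂ F then 1 else 0)) + z ^ a * ((R.card + 1).ascFactorial q : ℝ) *
              (z ^ (S₂ ∩ F).card - (if Disjoint S₂ F then 1 else 0))) =
            z ^ a * (z * (R.card.ascFactorial q : ℝ) * (1 - p) ^ R.card) +
            z ^ a * ((R.card + 1).ascFactorial q : ℝ) *
              ((1 - p + p * z) ^ R.card - (1 - p) ^ R.card) := by
          rw [EE_add, EE_const_mul, EE_const_mul, EE_const_mul, hav]
          congr 2
          have h6 : EE p (star v) (fun S₂ => z ^ (S₂ ∩ F).card -
              (if Disjoint S₂ F then (1:ℝ) else 0)) =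
              EE p (star v) (fun S₂ => z ^ (S₂ ∩ F).card +
              (-1) * (if Disjoint S₂ F then (1:ℝ) else 0)) := by
            refine EE_congr fun S _ => by ring
          rw [h6, EE_add, EE_const_mul, hav, hEp]
          ring
        rw [hsum, EE_const_mul] at hpt
        have hasc : ((R.card + 1).ascFactorial q : ℝ) =
            (R.card + q) / R.card * (R.card.ascFactorial q : ℝ) := by
          have := ascFactorial_succ_left' R.card q
          field_simp; linarith
        have hh0 : 0 ≤ p * z := by positivity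
        obtain ⟨g1, g2⟩ := pow_diff_le (b := 1 - p) (h := p * z) (by linarith) (by linarith) hh0
          R.card
        have g3 : (1 + p * z) ^ R.card - 1 ≤ p * z * R.card * Real.exp (p * z * R.card) := by
          have h7 : (1 + p * z) ^ R.card ≤ Real.exp (p * z * R.card) := by
            have h8 := Real.add_one_le_exp (p * z)
            calc (1 + p * z) ^ R.card ≤ (Real.exp (p * z)) ^ R.card :=
                  pow_le_pow_left₀ (by linarith) (by linarith) _
              _ = Real.exp (p * z * R.card) := by rw [← Real.exp_nat_mul]; ring_nf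
          have h9 : Real.exp (p * z * R.card) - 1 ≤
              p * z * R.card * Real.exp (p * z * R.card) := by
            have h10 := Real.add_one_le_exp (-(p * z * R.card))
            have h11 : Real.exp (-(p * z * R.card)) * Real.exp (p * z * R.card) = 1 := by
              rw [← Real.exp_add]; simp
            have h12 := mul_le_mul_of_nonneg_right h10 (Real.exp_pos (p * z * R.card)).le
            linarith
          linarith
        have g4 : (1 - p) ^ R.card ≤ Real.exp (-(p * R.card)) := by
          have h8 := Real.add_one_le_exp (-p)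
          calc (1 - p) ^ R.card ≤ (Real.exp (-p)) ^ R.card :=
                pow_le_pow_left₀ (by linarith) (by linarith) _
            _ = Real.exp (-(p * R.card)) := by rw [← Real.exp_nat_mul]; ring_nf
        have hnum := step_num (q := q) (M := M) (x := R.card) hp0 hp1 hz (by positivity) hx.le
          (by exact_mod_cast hM) hη
        rw [← hρ] at hnum
        have hza : 0 ≤ z ^ a := by positivity
        have hasc1 := hasc0 R.card
        have g5 : z ^ a * ((R.card + 1).ascFactorial q : ℝ) *
              ((1 - p + p * z) ^ R.card - (1 - p) ^ R.card) ≤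
            z ^ a * (z * (R.card.ascFactorial q : ℝ) *
              (p * (R.card + q) * Real.exp (p * z * R.card))) := by
          have h13 : z ^ a * ((R.card + 1).ascFactorial q : ℝ) *
              ((1 - p + p * z) ^ R.card - (1 - p) ^ R.card) ≤
              z ^ a * ((R.card + 1).ascFactorial q : ℝ) *
              (p * z * R.card * Real.exp (p * z * R.card)) :=
            mul_le_mul_of_nonneg_left (g1.trans g3) (mul_nonneg hza (hasc0 _))
          refine h13.trans (le_of_eq ?_)
          rw [hasc]
          field_simp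
        have g6 : z ^ a * (z * (R.card.ascFactorial q : ℝ) * (1 - p) ^ R.card) ≤
            z ^ a * (z * (R.card.ascFactorial q : ℝ) * Real.exp (-(p * R.card))) := by
          apply mul_le_mul_of_nonneg_left _ hza
          exact mul_le_mul_of_nonneg_left g4 (mul_nonneg hz0 hasc1)
        have g7 : z * EE p (star v) (fun S₂ => wt X M q z (v + 1) (S₁ ∪ S₂)) ≤
            z * (ρ * wt X M q z v S₁) := by
          refine hpt.trans ?_
          rw [hwt, e2]
          have h14 : z ^ a * (z * (R.card.ascFactorial q : ℝ)) *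
              (Real.exp (-(p * R.card)) + p * (R.card + q) * Real.exp (p * z * R.card)) ≤
              z ^ a * (z * (R.card.ascFactorial q : ℝ)) * ρ :=
            mul_le_mul_of_nonneg_left hnum (mul_nonneg hza (mul_nonneg hz0 hasc1))
          calc _ ≤ z ^ a * (z * (R.card.ascFactorial q : ℝ) * Real.exp (-(p * R.card))) +
                z ^ a * (z * (R.card.ascFactorial q : ℝ) *
              (p * (R.card + q) * Real.exp (p * z * R.card))) := add_le_add g6 g5
            _ = z ^ a * (z * (R.card.ascFactorial q : ℝ)) *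
              (Real.exp (-(p * R.card)) + p * (R.card + q) * Real.exp (p * z * R.card)) := by ring
            _ ≤ _ := h14
            _ = _ := by ring
        exact le_of_mul_le_mul_left g7 hzp
    · have h0 : EE p (star v) (fun S₂ => wt X M q z (v + 1) (S₁ ∪ S₂)) = 0 := by
        rw [← EE_const p (star v) 0]
        refine EE_congr fun S₂ h₂ => ?_
        obtain ⟨d1, d2⟩ := step_data (X := X) h₁ h₂
        simp only [← hR] at d1 d2
        unfold wt
        rw [if_neg]
        rw [d1]
        split_ifs
        · rw [card_insert_of_notMem hvR]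
          omega
        · omega
      rw [h0]
      positivity

/-- The generating function of the excess. `r = |X|`, `R = reach S X n`, the exponent of `z` is
`|Eg R| + r - |R| ≥ 0`. -/
theorem moment {p : ℝ} (hp0 : 0 ≤ p) (hp1 : p ≤ 1) {n : ℕ} {X : Finset ℕ} (hX : X ⊆ range n)
    (hne : X.Nonempty) (M q : ℕ) {z : ℝ} (hz : 1 ≤ z) (hη : p * z * M ≤ 1) :
    EE p (Ed n) (fun S => if (reach S X n).card ≤ M then
        z ^ ((Eg S (reach S X n)).card + X.card - (reach S X n).card) *
          ((reach S X n).card.ascFactorial q : ℝ) else 0) ≤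
      Real.exp (p * q * Real.exp (p * z * M) + 5 / 2 * p ^ 2 * M ^ 2 * z) ^ n *
        Real.exp (p * z * M) ^ X.card * (X.card.ascFactorial q : ℝ) := by
  set ρ := Real.exp (p * q * Real.exp (p * z * M) + 5 / 2 * p ^ 2 * M ^ 2 * z) with hρ
  have hz0 : (0 : ℝ) ≤ z := by linarith
  have hρ1 : 1 ≤ ρ := Real.one_le_exp (by positivity)
  have hasc0 : ∀ m : ℕ, 1 ≤ m → (0 : ℝ) < (m.ascFactorial q : ℝ) :=
    fun m hm => ascFactorial_pos' hm
  have key : ∀ v, EE p (Ed v) (wt X M q z v) ≤ ρ ^ v * Real.exp (p * z * M) ^ (X ∩ range v).card *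
      ((max (X ∩ range v).card 1).ascFactorial q : ℝ) := by
    intro v
    induction v with
    | zero =>
      have hE : Ed 0 = ∅ := by
        rw [Finset.eq_empty_iff_forall_notMem]
        intro e he
        have := mem_Ed.1 he
        omega
      rw [hE, EE_empty]
      unfold wt
      simp [reach, Eg]
    | succ v ih =>
      have hA0 := hasc0 (max (X ∩ range v).card 1) (le_max_right _ _)
      rw [Ed_succ, EE_union p (disjoint_Ed_star le_rfl)]
      set κ : ℝ := if v ∈ X then Real.exp (p * z * M) else ρ with hκ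
      have h1 : EE p (Ed v) (fun S₁ => EE p (star v) (fun S₂ => wt X M q z (v + 1) (S₁ ∪ S₂))) ≤
          EE p (Ed v) (fun S₁ => (κ * ((max (X ∩ range (v + 1)).card 1).ascFactorial q : ℝ) /
            ((max (X ∩ range v).card 1).ascFactorial q : ℝ)) * wt X M q z v S₁) := by
        refine EE_mono hp0 hp1 fun S₁ h₁ => ?_
        have h2 := step_wt hp0 hp1 (X := X) M q hz hη v h₁
        rw [← hρ, ← hκ] at h2
        have h3 : κ * ((max (X ∩ range (v + 1)).card 1).ascFactorial q : ℝ) /
            ((max (X ∩ range v).card 1).ascFactorial q : ℝ) * wt X M q z v S₁ =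
            (κ * wt X M q z v S₁ * ((max (X ∩ range (v + 1)).card 1).ascFactorial q : ℝ)) /
            ((max (X ∩ range v).card 1).ascFactorial q : ℝ) := by ring
        rw [h3, le_div_iff₀ hA0]
        exact h2
      refine h1.trans ?_
      rw [EE_const_mul]
      have hκ0 : 0 ≤ κ := by
        rw [hκ]; split_ifs <;> positivity
      have hB0 := (hasc0 (max (X ∩ range (v + 1)).card 1) (le_max_right _ _)).le
      have h4 : κ * ((max (X ∩ range (v + 1)).card 1).ascFactorial q : ℝ) /
            ((max (X ∩ range v).card 1).ascFactorial q : ℝ) * EE p (Ed v) (wt X M q z v) ≤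
          κ * ((max (X ∩ range (v + 1)).card 1).ascFactorial q : ℝ) /
            ((max (X ∩ range v).card 1).ascFactorial q : ℝ) *
          (ρ ^ v * Real.exp (p * z * M) ^ (X ∩ range v).card *
            ((max (X ∩ range v).card 1).ascFactorial q : ℝ)) :=
        mul_le_mul_of_nonneg_left ih (by positivity)
      refine h4.trans ?_
      have h5 : κ * ((max (X ∩ range (v + 1)).card 1).ascFactorial q : ℝ) /
            ((max (X ∩ range v).card 1).ascFactorial q : ℝ) *
          (ρ ^ v * Real.exp (p * z * M) ^ (X ∩ range v).card *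
            ((max (X ∩ range v).card 1).ascFactorial q : ℝ)) =
          κ * (ρ ^ v * Real.exp (p * z * M) ^ (X ∩ range v).card) *
          ((max (X ∩ range (v + 1)).card 1).ascFactorial q : ℝ) := by
        field_simp
      rw [h5]
      apply mul_le_mul_of_nonneg_right _ hB0
      by_cases hv : v ∈ X
      · have hrv : (X ∩ range (v + 1)).card = (X ∩ range v).card + 1 := by
          have : X ∩ range (v + 1) = insert v (X ∩ range v) := by
            ext y
            simp only [mem_inter, mem_range, mem_insert]
            constructor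
            · rintro ⟨h3, h4⟩
              rcases Nat.lt_succ_iff_lt_or_eq.1 h4 with h5 | h5
              · exact Or.inr ⟨h3, h5⟩
              · exact Or.inl h5
            · rintro (rfl | ⟨h3, h4⟩)
              · exact ⟨hv, Nat.lt_succ_self _⟩
              · exact ⟨h3, by omega⟩
          rw [this, card_insert_of_notMem]
          simp
        rw [hκ, if_pos hv, hrv, pow_succ ρ v, pow_succ (Real.exp (p * z * M))]
        have h6 : 0 ≤ ρ ^ v * Real.exp (p * z * M) ^ (X ∩ range v).card *
            Real.exp (p * z * M) := by positivity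
        nlinarith
      · have hrv : X ∩ range (v + 1) = X ∩ range v := by
          ext y
          simp only [mem_inter, mem_range]
          constructor
          · rintro ⟨h3, h4⟩
            refine ⟨h3, ?_⟩
            rcases Nat.lt_succ_iff_lt_or_eq.1 h4 with h5 | h5
            · exact h5
            · exact absurd (h5 ▸ h3) hv
          · rintro ⟨h3, h4⟩
            exact ⟨h3, by omega⟩
        rw [hκ, if_neg hv, hrv, pow_succ ρ v]
        apply le_of_eq
        ring
  have h1 := key n
  have hXn : X ∩ range n = X := Finset.inter_eq_left.2 hX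
  have hXc : 1 ≤ X.card := hne.card_pos
  rw [hXn] at h1
  have e1 : max X.card 1 = X.card := by omega
  rw [e1] at h1
  refine le_trans (le_of_eq ?_) h1
  refine EE_congr fun S hS => ?_
  unfold wt
  rw [hXn]
  have h2 : 1 ≤ (reach S X n).card := by
    have h3 := card_le_card (inter_range_subset_reach S X n)
    rw [hXn] at h3
    omega
  have e2 : max (reach S X n).card 1 = (reach S X n).card := by omega
  rw [e2]

end Pool.Agent.SparseOrd
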