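import Mathlib
import Pool.Agent.SparseOrd.Moment

set_option autoImplicit false

namespace Pool.Agent.SparseOrd

open Finset Pool.Agent.MP_ef8d06_pr

private lemma ProbOne_exp_le {η : ℝ} (h0 : 0 ≤ η) (h1 : η ≤ 1) : Real.exp η ≤ 1 + 2 * η := by
  have h := Real.abs_exp_sub_one_sub_id_le (x := η) (by rw [abs_of_nonneg h0]; exact h1)
  have h2 := (abs_le.1 h).2
  nlinarith

private lemma ProbOne_asc {r : ℕ} (hr : 1 ≤ r) (q : ℕ) :
    (r.ascFactorial q : ℝ) ≤ (q : ℝ) ^ q * (2 : ℝ) ^ (q + r) := by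
  obtain ⟨y, rfl⟩ : ∃ y, r = y + 1 := ⟨r - 1, by omega⟩
  rw [Nat.ascFactorial_eq_factorial_mul_choose]
  push_cast
  have h1 : (q.factorial : ℝ) ≤ (q : ℝ) ^ q := by exact_mod_cast Nat.factorial_le_pow q
  have h2 : ((y + q).choose q : ℝ) ≤ (2 : ℝ) ^ (q + (y + 1)) := by
    have h3 : (y + q).choose q ≤ 2 ^ (y + q) := Nat.choose_le_two_pow _ _
    have h4 : 2 ^ (y + q) ≤ 2 ^ (q + (y + 1)) := Nat.pow_le_pow_right (by norm_num) (by omega)
    exact_mod_cast h3.trans h4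
  exact mul_le_mul h1 h2 (by positivity) (by positivity)

/-- HINT. `p = c / n`, `z = k n / (2 c^2 M^2) ≥ 1`, `p z M = k / (2 c M) =: η ≤ 1`,
`q = ⌊M / (2 exp (c+1))⌋₊ ≤ M / 2`. Markov with `moment`: the event implies that the random variable is
at least `z^k M^q` (`Nat.pow_succ_le_ascFactorial`, compare `upper_tail`). Exponents:
`n (p q e^η + 5/2 p^2 M^2 z) ≤ c q + 2 c q η + 5/4 k = c q + q k / M + 5/4 k ≤ c q + 7/4 k`
(`e^η ≤ 1 + 2 η`), `e^(η r) ≤ e^r`, `r.ascFactorial q ≤ q^q 2^(q + r)`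
(`= q! * choose (q+r-1) q`). So the probability is at most
`(2 e^(7/4) c^2 M^2/(k n))^k (2e)^r (2 q e^c / M)^q` and the last factor is at most
`e^(-q) ≤ e * exp (-M/(2 exp (c+1)))` (also for `q = 0`); `2 e^(7/4) ≤ e^3`. (`M ≥ 1` as `X ≠ ∅`; if
`M = 0` the event is impossible.) -/
theorem prob_one {n : ℕ} {c : ℝ} (hc : 1 ≤ c) (hcn : c ≤ Real.log n) {X : Finset ℕ}
    (hX : X ⊆ range n) (hne : X.Nonempty) {M k : ℕ} (hk : 1 ≤ k) (hkM : k ≤ 2 * M)
    (hM : 2 * c ^ 2 * M ^ 2 ≤ k * n) :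
    PP (c / n) (Ed n) (fun S => (reach S X n).card = M ∧
        M + k ≤ (Eg S (reach S X n)).card + X.card) ≤
      Real.exp 1 * (Real.exp 3 * c ^ 2 * M ^ 2 / (k * n)) ^ k * (2 * Real.exp 1) ^ X.card *
        Real.exp (-(M / (2 * Real.exp (c + 1)))) := by
  have hn0 : (0 : ℝ) < n := by
    rcases Nat.eq_zero_or_pos n with rfl | h
    · simp at hcn; linarith
    · exact_mod_cast h
  obtain ⟨hp0, hp1⟩ := PP_nonneg' (by linarith : 0 ≤ c) hcn
  have hM1 : 1 ≤ M := by omega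
  have hM0 : (0 : ℝ) < M := by exact_mod_cast hM1
  have hk0 : (0 : ℝ) < k := by exact_mod_cast hk
  have hkM' : (k : ℝ) ≤ 2 * M := by exact_mod_cast hkM
  have hc0 : 0 < c := by linarith
  have hr1 : 1 ≤ X.card := hne.card_pos
  obtain ⟨z, hz⟩ : ∃ z : ℝ, z = k * n / (2 * c ^ 2 * M ^ 2) := ⟨_, rfl⟩
  have hz1 : 1 ≤ z := by
    rw [hz, le_div_iff₀ (by positivity), one_mul]; exact hM
  have hz0 : 0 < z := by linarith
  obtain ⟨θ, hθ⟩ : ∃ θ : ℝ, θ = c / n * z * M := ⟨_, rfl⟩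
  have hθe : θ = k / (2 * c * M) := by
    rw [hθ, hz]; field_simp
  have hθ0 : 0 ≤ θ := by rw [hθe]; positivity
  have hθ1 : θ ≤ 1 := by
    rw [hθe, div_le_one (by positivity)]
    nlinarith
  obtain ⟨E, hE⟩ : ∃ E : ℝ, E = Real.exp (c + 1) := ⟨_, rfl⟩
  have hE1 : 1 ≤ E := by rw [hE]; exact Real.one_le_exp (by linarith)
  obtain ⟨q, hq⟩ : ∃ q : ℕ, q = ⌊(M : ℝ) / (2 * E)⌋₊ := ⟨_, rfl⟩
  have hq1 : (q : ℝ) ≤ M / (2 * E) := by rw [hq]; exact Nat.floor_le (by positivity)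
  have hq2 : (M : ℝ) / (2 * E) < q + 1 := by rw [hq]; exact Nat.lt_floor_add_one _
  have hqM : (q : ℝ) ≤ M / 2 := by
    refine hq1.trans ?_
    apply div_le_div_of_nonneg_left hM0.le (by norm_num)
    linarith
  have hmom := moment hp0 hp1 hX hne M q hz1 (by rw [← hθ]; exact hθ1)
  rw [← hθ] at hmom
  have ha : (0 : ℝ) < z ^ k * (M : ℝ) ^ q := by positivity
  -- Markov
  have h1 : PP (c / n) (Ed n) (fun S => (reach S X n).card = M ∧
        M + k ≤ (Eg S (reach S X n)).card + X.card) ≤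
      PP (c / n) (Ed n) (fun S => z ^ k * (M : ℝ) ^ q ≤
        (if (reach S X n).card ≤ M then
        z ^ ((Eg S (reach S X n)).card + X.card - (reach S X n).card) *
          ((reach S X n).card.ascFactorial q : ℝ) else 0)) := by
    refine PP_mono hp0 hp1 fun S _ h => ?_
    obtain ⟨h2, h3⟩ := h
    rw [if_pos h2.le, h2]
    have h4 : z ^ k ≤ z ^ ((Eg S (reach S X n)).card + X.card - M) :=
      pow_le_pow_right₀ hz1 (by omega)
    have h5 : ((M : ℝ)) ^ q ≤ (M.ascFactorial q : ℝ) := by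
      exact_mod_cast Nat.pow_succ_le_ascFactorial M q
    exact mul_le_mul h4 h5 (by positivity) (by positivity)
  refine h1.trans ((PP_markov hp0 hp1 _ _ (fun S _ => ?_) ha).trans ?_)
  · split_ifs
    · positivity
    · exact le_rfl
  rw [div_le_iff₀ ha]
  refine hmom.trans ?_
  -- the exponent
  have hexp : Real.exp θ ≤ 1 + 2 * θ := ProbOne_exp_le hθ0 hθ1
  have hb1 : (n : ℝ) * (c / n * q * Real.exp θ + 5 / 2 * (c / n) ^ 2 * M ^ 2 * z) ≤
      c * q + 7 / 4 * k := by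
    have e1 : (n : ℝ) * (c / n * q * Real.exp θ + 5 / 2 * (c / n) ^ 2 * M ^ 2 * z) =
        c * q * Real.exp θ + 5 / 4 * k := by
      rw [hz]; field_simp; ring
    rw [e1]
    have e2 : c * q * Real.exp θ ≤ c * q * (1 + 2 * θ) :=
      mul_le_mul_of_nonneg_left hexp (by positivity)
    have e3 : c * q * (2 * θ) = q * k / M := by
      rw [hθe]; field_simp
    have e4 : (q : ℝ) * k / M ≤ k / 2 := by
      rw [div_le_iff₀ hM0]
      nlinarith
    nlinarith
  have hb2 : Real.exp (c / n * q * Real.exp θ + 5 / 2 * (c / n) ^ 2 * M ^ 2 * z) ^ n ≤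
      Real.exp c ^ q * Real.exp (7 / 4) ^ k := by
    rw [← Real.exp_nat_mul, ← Real.exp_nat_mul, ← Real.exp_nat_mul, ← Real.exp_add]
    refine Real.exp_le_exp.2 (hb1.trans (le_of_eq ?_))
    ring
  have hb3 : Real.exp θ ^ X.card ≤ Real.exp 1 ^ X.card :=
    pow_le_pow_left₀ (Real.exp_pos _).le (Real.exp_le_exp.2 hθ1) _
  have hb4 := ProbOne_asc hr1 q
  have hb5 : Real.exp (7 / 4) ^ k ≤ (Real.exp 3 * c ^ 2 * M ^ 2 / (k * n)) ^ k * z ^ k := by
    rw [← mul_pow]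
    refine pow_le_pow_left₀ (Real.exp_pos _).le ?_ _
    have e1 : Real.exp 3 * c ^ 2 * M ^ 2 / (k * n) * z = Real.exp 3 / 2 := by
      rw [hz]; field_simp
    rw [e1]
    have e2 : Real.exp 3 = Real.exp (7 / 4) * Real.exp (5 / 4) := by
      rw [← Real.exp_add]; norm_num
    have e3 : 2 ≤ Real.exp (5 / 4) := by
      have := Real.add_one_le_exp (5 / 4 : ℝ); linarith
    have e4 := Real.exp_pos (7 / 4 : ℝ)
    rw [e2]
    nlinarith
  have hb6 : Real.exp c ^ q * ((q : ℝ) ^ q * (2 : ℝ) ^ q) ≤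
      Real.exp 1 * Real.exp (-(M / (2 * E))) * (M : ℝ) ^ q := by
    have e1 : Real.exp c * (q * 2) ≤ Real.exp (-1) * M := by
      have e2 : (q : ℝ) * (2 * E) ≤ M := by
        rwa [le_div_iff₀ (by positivity)] at hq1
      have e3 : E = Real.exp c * Real.exp 1 := by rw [hE, Real.exp_add]
      have e4 : Real.exp (-1) * Real.exp 1 = 1 := by rw [← Real.exp_add]; simp
      calc Real.exp c * (q * 2) = Real.exp (-1) * (q * (2 * E)) := by
            rw [e3]
            linear_combination (-(2 * (q : ℝ) * Real.exp c)) * e4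
        _ ≤ Real.exp (-1) * M := mul_le_mul_of_nonneg_left e2 (Real.exp_pos _).le
    have e5 : Real.exp (-1) ^ q ≤ Real.exp 1 * Real.exp (-(M / (2 * E))) := by
      rw [← Real.exp_nat_mul, ← Real.exp_add]
      refine Real.exp_le_exp.2 ?_
      linarith
    calc Real.exp c ^ q * ((q : ℝ) ^ q * (2 : ℝ) ^ q) = (Real.exp c * (q * 2)) ^ q := by
          rw [mul_pow, mul_pow]
      _ ≤ (Real.exp (-1) * M) ^ q := pow_le_pow_left₀ (by positivity) e1 _
      _ = Real.exp (-1) ^ q * (M : ℝ) ^ q := by rw [mul_pow]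
      _ ≤ _ := mul_le_mul_of_nonneg_right e5 (by positivity)
  calc Real.exp (c / n * q * Real.exp θ + 5 / 2 * (c / n) ^ 2 * M ^ 2 * z) ^ n *
        Real.exp θ ^ X.card * (X.card.ascFactorial q : ℝ)
      ≤ (Real.exp c ^ q * Real.exp (7 / 4) ^ k) * Real.exp 1 ^ X.card *
        ((q : ℝ) ^ q * (2 : ℝ) ^ (q + X.card)) := by
        refine mul_le_mul (mul_le_mul hb2 hb3 (by positivity) (by positivity)) hb4
          (by positivity) (by positivity)
    _ = Real.exp (7 / 4) ^ k * (2 * Real.exp 1) ^ X.card *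
        (Real.exp c ^ q * ((q : ℝ) ^ q * (2 : ℝ) ^ q)) := by
        rw [pow_add, mul_pow 2 (Real.exp 1)]; ring
    _ ≤ ((Real.exp 3 * c ^ 2 * M ^ 2 / (k * n)) ^ k * z ^ k) * (2 * Real.exp 1) ^ X.card *
        (Real.exp 1 * Real.exp (-(M / (2 * E))) * (M : ℝ) ^ q) := by
        refine mul_le_mul (mul_le_mul_of_nonneg_right hb5 (by positivity)) hb6
          (by positivity) (by positivity)
    _ = Real.exp 1 * (Real.exp 3 * c ^ 2 * M ^ 2 / (k * n)) ^ k * (2 * Real.exp 1) ^ X.card *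
        Real.exp (-(M / (2 * Real.exp (c + 1)))) * (z ^ k * (M : ℝ) ^ q) := by
        rw [hE]; ring

end Pool.Agent.SparseOrd
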