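import Mathlib
import Pool.Agent.SparseOrd.ProbOne

set_option autoImplicit false

namespace Pool.Agent.SparseOrd

open Finset Pool.Agent.MP_ef8d06_pr

private theorem sumA_step {a : ℝ} (ha : 0 < a) (M : ℕ) :
    Real.exp (-(M / a)) ≤ (a + 1) * (Real.exp (-(M / a)) - Real.exp (-((M + 1 : ℕ) / a))) := by
  have h1 : Real.exp (-((M + 1 : ℕ) / a)) = Real.exp (-(M / a)) * Real.exp (-(1 / a)) := by
    rw [← Real.exp_add]
    congr 1
    push_cast
    ring
  have h2 : Real.exp (-(1 / a)) ≤ a / (a + 1) := by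
    rw [Real.exp_neg, inv_le_comm₀ (Real.exp_pos _) (by positivity), inv_div]
    have h3 := Real.add_one_le_exp (1 / a)
    have h4 : (a + 1) / a = 1 / a + 1 := by
      rw [add_div, div_self ha.ne', add_comm]
    rw [h4]
    exact h3
  have h5 : 1 ≤ (a + 1) * (1 - Real.exp (-(1 / a))) := by
    have h6 : (a + 1) * (1 - a / (a + 1)) = 1 := by field_simp; ring
    nlinarith
  rw [h1]
  have h7 := Real.exp_pos (-(M / a))
  nlinarith

private theorem sumA_geom {a : ℝ} (ha : 0 < a) (s₀ M₀ : ℕ) :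
    ∑ M ∈ Icc s₀ M₀, Real.exp (-(M / a)) ≤ (a + 1) * Real.exp (-(s₀ / a)) := by
  have key : ∀ N : ℕ, s₀ ≤ N → ∑ M ∈ Ico s₀ N, Real.exp (-(M / a)) ≤
      (a + 1) * (Real.exp (-(s₀ / a)) - Real.exp (-(N / a))) := by
    intro N hN
    induction N, hN using Nat.le_induction with
    | base => simp
    | succ N hN ih =>
      rw [Finset.sum_Ico_succ_top hN]
      have h1 := sumA_step ha N
      linarith
  have h2 : Icc s₀ M₀ ⊆ Ico s₀ (M₀ + 1 + s₀) := by
    intro x hx
    simp only [mem_Icc, mem_Ico] at *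
    omega
  refine (Finset.sum_le_sum_of_subset_of_nonneg h2 fun _ _ _ => (Real.exp_pos _).le).trans ?_
  refine (key _ (by omega)).trans ?_
  have h3 := Real.exp_pos (-((M₀ + 1 + s₀ : ℕ) / a))
  nlinarith

private theorem sumA_pow {a : ℝ} (ha : 0 < a) (M k : ℕ) :
    (M : ℝ) ^ (2 * k) * Real.exp (-(M / a)) ≤ (4 * k ^ 2 * a ^ 2) ^ k := by
  have h1 := Real.pow_div_factorial_le_exp (M / a) (by positivity) (2 * k)
  have h2 : ((2 * k).factorial : ℝ) ≤ (2 * k : ℝ) ^ (2 * k) := by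
    exact_mod_cast Nat.factorial_le_pow (2 * k)
  have hf : (0 : ℝ) < ((2 * k).factorial : ℝ) := by exact_mod_cast Nat.factorial_pos _
  rw [div_le_iff₀ hf, div_pow, div_le_iff₀ (by positivity)] at h1
  rw [Real.exp_neg, ← div_eq_mul_inv, div_le_iff₀ (Real.exp_pos _)]
  calc (M : ℝ) ^ (2 * k) ≤ Real.exp (M / a) * ((2 * k).factorial : ℝ) * a ^ (2 * k) := h1
    _ ≤ Real.exp (M / a) * (2 * k : ℝ) ^ (2 * k) * a ^ (2 * k) := by
        gcongr
    _ = (4 * k ^ 2 * a ^ 2) ^ k * Real.exp (M / a) := by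
        rw [pow_mul, pow_mul, mul_assoc, ← mul_pow, mul_comm]
        congr 2
        ring

private theorem sumA_subset (S : Finset (ℕ × ℕ)) (X : Finset ℕ) (n : ℕ) (hX : X ⊆ range n) :
    X ⊆ reach S X n := by
  intro x hx
  have h1 : x + 1 ≤ n := by simpa using hX hx
  apply reach_mono_right S X h1
  rw [reach, if_pos (Or.inl hx)]
  exact mem_insert_self _ _

/-- HINT. Union bound over `X` (`(range n).powersetCard r`, `PP_exists_le`) and over
`M ∈ [s₀, M₀]`, `M ≥ r` (`X ⊆ reach S X n`), so `k ≤ r + 1 ≤ 2 M` and `prob_one` applies. With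
`a = 4 exp (c+1)`: `M^(2k) ≤ (2k)! a^(2k) exp (M/a) ≤ (4 k^2 a^2)^k exp (M/a)`
(`Real.pow_div_factorial_le_exp`), so each term is at most
`e (4 e^3 c^2 a^2 k / n)^k (2e)^r exp (-M/a)`; and `∑_{M ≥ s₀} exp (-M/a) ≤ (a+1) exp (-s₀/a)`. -/
theorem sum_prob {n : ℕ} {c : ℝ} (hc : 1 ≤ c) (hcn : c ≤ Real.log n) {r k s₀ M₀ : ℕ} (hr : 1 ≤ r)
    (hk : 1 ≤ k) (hkr : k ≤ r + 1) (hM : 2 * c ^ 2 * M₀ ^ 2 ≤ k * n) :
    PP (c / n) (Ed n) (fun S => ∃ X ⊆ range n, X.card = r ∧ s₀ ≤ (reach S X n).card ∧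
        (reach S X n).card ≤ M₀ ∧ (reach S X n).card + k ≤ (Eg S (reach S X n)).card + r) ≤
      (n.choose r : ℝ) * (Real.exp 1 *
        (4 * Real.exp 3 * c ^ 2 * (4 * Real.exp (c + 1)) ^ 2 * k / n) ^ k *
        (2 * Real.exp 1) ^ r *
        ((4 * Real.exp (c + 1) + 1) * Real.exp (-(s₀ / (4 * Real.exp (c + 1)))))) := by
  have hn0 : (0 : ℝ) < n := by
    rcases Nat.eq_zero_or_pos n with rfl | hn
    · simp at hcn
      linarith
    · exact_mod_cast hn
  have hp0 : 0 ≤ c / n := by positivity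
  have hp1 : c / n ≤ 1 := by
    rw [div_le_one hn0]
    have := Real.log_le_sub_one_of_pos hn0
    linarith
  have hk0 : (0 : ℝ) < k := by exact_mod_cast hk
  have ha0 : 0 < 4 * Real.exp (c + 1) := by positivity
  have hhalf : ∀ M : ℕ, Real.exp (-(M / (2 * Real.exp (c + 1)))) =
      Real.exp (-(M / (4 * Real.exp (c + 1)))) * Real.exp (-(M / (4 * Real.exp (c + 1)))) := by
    intro M
    rw [← Real.exp_add]
    congr 1
    have := Real.exp_pos (c + 1)
    field_simp
    ring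
  generalize ha : 4 * Real.exp (c + 1) = a at *
  obtain ⟨T, hT⟩ : ∃ T, T = Real.exp 1 * (4 * Real.exp 3 * c ^ 2 * a ^ 2 * k / n) ^ k *
      (2 * Real.exp 1) ^ r := ⟨_, rfl⟩
  have hT0 : 0 ≤ T := by rw [hT]; positivity
  rw [← hT]
  have h1 : ∀ X ∈ (range n).powersetCard r, PP (c / n) (Ed n) (fun S => ∃ M ∈ Icc s₀ M₀,
      r ≤ M ∧ (reach S X n).card = M ∧ M + k ≤ (Eg S (reach S X n)).card + X.card) ≤
      T * ((a + 1) * Real.exp (-(s₀ / a))) := by
    intro X hX
    rw [mem_powersetCard] at hX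
    obtain ⟨hXn, hXr⟩ := hX
    refine (PP_exists_le hp0 hp1 _ _ _).trans ?_
    refine (sum_le_sum (g := fun M : ℕ => T * Real.exp (-(M / a))) ?_).trans ?_
    · intro M hMm
      rw [mem_Icc] at hMm
      by_cases hrM : r ≤ M
      · simp only [hrM, true_and]
        have hM' : 2 * c ^ 2 * (M : ℝ) ^ 2 ≤ k * n := by
          refine le_trans ?_ hM
          have h2 : (M : ℝ) ≤ M₀ := by exact_mod_cast hMm.2
          gcongr
        refine (prob_one hc hcn hXn (card_pos.1 (by omega)) hk (by omega) hM').trans ?_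
        rw [hhalf, hT, hXr]
        have e3 : (Real.exp 3 * c ^ 2 * M ^ 2 / (k * n)) ^ k * Real.exp (-(M / a)) ≤
            (4 * Real.exp 3 * c ^ 2 * a ^ 2 * k / n) ^ k := by
          have e4 : (Real.exp 3 * c ^ 2 * M ^ 2 / (k * n)) ^ k * Real.exp (-(M / a)) =
              (Real.exp 3 * c ^ 2 / (k * n)) ^ k * ((M : ℝ) ^ (2 * k) * Real.exp (-(M / a))) := by
            rw [← mul_assoc, pow_mul, ← mul_pow]
            congr 2
            ring
          rw [e4]
          refine (mul_le_mul_of_nonneg_left (sumA_pow ha0 M k) (by positivity)).trans ?_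
          rw [← mul_pow]
          apply le_of_eq
          congr 1
          field_simp
        calc Real.exp 1 * (Real.exp 3 * c ^ 2 * M ^ 2 / (k * n)) ^ k * (2 * Real.exp 1) ^ r *
              (Real.exp (-(M / a)) * Real.exp (-(M / a))) =
            Real.exp 1 * ((Real.exp 3 * c ^ 2 * M ^ 2 / (k * n)) ^ k * Real.exp (-(M / a))) *
              (2 * Real.exp 1) ^ r * Real.exp (-(M / a)) := by ring
          _ ≤ Real.exp 1 * (4 * Real.exp 3 * c ^ 2 * a ^ 2 * k / n) ^ k *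
              (2 * Real.exp 1) ^ r * Real.exp (-(M / a)) := by
            gcongr
      · have h2 : (fun S => r ≤ M ∧ (reach S X n).card = M ∧
            M + k ≤ (Eg S (reach S X n)).card + X.card) = fun _ => False := by
          funext S
          simp [hrM]
        rw [h2]
        have h3 : PP (c / n) (Ed n) (fun _ => False) = 0 := by
          unfold PP
          simp [EE_const]
        rw [h3]
        positivity
    · rw [← mul_sum]
      exact mul_le_mul_of_nonneg_left (sumA_geom ha0 s₀ M₀) hT0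
  calc PP (c / n) (Ed n) (fun S => ∃ X ⊆ range n, X.card = r ∧ s₀ ≤ (reach S X n).card ∧
        (reach S X n).card ≤ M₀ ∧ (reach S X n).card + k ≤ (Eg S (reach S X n)).card + r)
      ≤ PP (c / n) (Ed n) (fun S => ∃ X ∈ (range n).powersetCard r, ∃ M ∈ Icc s₀ M₀,
      r ≤ M ∧ (reach S X n).card = M ∧ M + k ≤ (Eg S (reach S X n)).card + X.card) := by
        refine PP_mono hp0 hp1 fun S _ => ?_
        rintro ⟨X, hX, hXr, h2, h3, h4⟩
        refine ⟨X, mem_powersetCard.2 ⟨hX, hXr⟩, _, mem_Icc.2 ⟨h2, h3⟩, ?_, rfl, ?_⟩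
        · rw [← hXr]
          exact card_le_card (sumA_subset S X n hX)
        · rw [hXr]
          exact h4
    _ ≤ ∑ X ∈ (range n).powersetCard r, T * ((a + 1) * Real.exp (-(s₀ / a))) :=
        (PP_exists_le hp0 hp1 _ _ _).trans (sum_le_sum h1)
    _ = (n.choose r : ℝ) * (T * ((a + 1) * Real.exp (-(s₀ / a)))) := by
        rw [sum_const, card_powersetCard, card_range, nsmul_eq_mul]

end Pool.Agent.SparseOrd
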