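import Mathlib
import Pool.Agent.SparseOrd.SumA
import Pool.Agent.MP_ef8d06_pr.Block

set_option autoImplicit false

namespace Pool.Agent.SparseOrd

open Finset Pool.Agent.MP_ef8d06_pr

private theorem sumB_pos {n : ℕ} {c : ℝ} (hc : 1 ≤ c) (hcn : c ≤ Real.log n) :
    (0 : ℝ) < n ∧ 0 ≤ c / n ∧ c / n ≤ 1 := by
  have hn0 : (0 : ℝ) < n := by
    rcases Nat.eq_zero_or_pos n with rfl | hn
    · simp at hcn
      linarith
    · exact_mod_cast hn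
  refine ⟨hn0, by positivity, ?_⟩
  rw [div_le_one hn0]
  have := Real.log_le_sub_one_of_pos hn0
  linarith

private theorem sumB_K {c a : ℝ} (hc : 1 ≤ c) (ha : 1 ≤ a) : 1 ≤ 4 * Real.exp 3 * c ^ 2 * a ^ 2 := by
  have h1 : 1 ≤ Real.exp 3 := Real.one_le_exp (by norm_num)
  have h2 : 1 ≤ c ^ 2 := one_le_pow₀ hc
  have h3 : 1 ≤ a ^ 2 := one_le_pow₀ ha
  have h4 : 1 ≤ 4 * Real.exp 3 := by linarith
  have h5 : 1 ≤ 4 * Real.exp 3 * c ^ 2 := one_le_mul_of_one_le_of_one_le h4 h2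
  exact one_le_mul_of_one_le_of_one_le h5 h3

private theorem sumB_8 (c a : ℝ) : 8 * Real.exp 5 * c ^ 2 * a ^ 2 =
    2 * Real.exp 1 * Real.exp 1 * (4 * Real.exp 3 * c ^ 2 * a ^ 2) := by
  have h1 : Real.exp 5 = Real.exp 1 * Real.exp 1 * Real.exp 3 := by
    rw [← Real.exp_add, ← Real.exp_add]; norm_num
  rw [h1]
  ring

private theorem sumB_conn {n K : ℝ} (hn : 0 < n) (hK : 1 ≤ K) (m : ℕ) :
    (Real.exp 1 * n / ((m + 1 : ℕ) : ℝ)) ^ (m + 1) * (K * m / n) ^ m * (2 * Real.exp 1) ^ (m + 1) ≤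
      n * (2 * Real.exp 1 * Real.exp 1 * K) ^ (m + 1) := by
  have hm0 : (0 : ℝ) < ((m + 1 : ℕ) : ℝ) := by positivity
  have h1 : (m : ℝ) ^ m ≤ ((m + 1 : ℕ) : ℝ) ^ (m + 1) := by
    have h2 : m ^ m ≤ (m + 1) ^ (m + 1) :=
      (Nat.pow_le_pow_left (Nat.le_succ m) m).trans (Nat.pow_le_pow_right (by omega) (by omega))
    exact_mod_cast h2
  have h3 : K ^ m ≤ K ^ (m + 1) := pow_le_pow_right₀ hK (by omega)
  have h4 : (Real.exp 1 * n / ((m + 1 : ℕ) : ℝ)) ^ (m + 1) * (K * m / n) ^ m *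
      (2 * Real.exp 1) ^ (m + 1) =
      n * ((2 * Real.exp 1) ^ (m + 1) * (Real.exp 1) ^ (m + 1)) * K ^ m *
        ((m : ℝ) ^ m / ((m + 1 : ℕ) : ℝ) ^ (m + 1)) := by
    rw [div_pow, div_pow, mul_pow, mul_pow K]
    rw [pow_succ n m]
    field_simp
  rw [h4, mul_pow (2 * Real.exp 1 * Real.exp 1) K, mul_pow (2 * Real.exp 1) (Real.exp 1),
    ← mul_assoc]
  have h5 : (m : ℝ) ^ m / ((m + 1 : ℕ) : ℝ) ^ (m + 1) ≤ 1 := (div_le_one (by positivity)).2 h1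
  have hK0 : 0 ≤ K := by linarith
  calc n * ((2 * Real.exp 1) ^ (m + 1)) * (Real.exp 1) ^ (m + 1) * K ^ m *
        ((m : ℝ) ^ m / ((m + 1 : ℕ) : ℝ) ^ (m + 1))
      ≤ n * ((2 * Real.exp 1) ^ (m + 1)) * (Real.exp 1) ^ (m + 1) * K ^ (m + 1) * 1 := by
        gcongr
    _ = _ := by ring

/-- The case `k = r - 1` (connected families), `B = 8 e^5 c^2 (4 e^(c+1))^2`.
HINT: `choose n r ≤ (e n / r)^r` (see `choose_le_exp` in `Pool/Agent/MP_ef8d06_pr/Block.lean`),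
`(r-1)^(r-1) ≤ r^r`. -/
theorem sum_prob_conn {n : ℕ} {c : ℝ} (hc : 1 ≤ c) (hcn : c ≤ Real.log n) {r s₀ M₀ : ℕ}
    (hr : 2 ≤ r) (hM : 2 * c ^ 2 * M₀ ^ 2 ≤ n) :
    PP (c / n) (Ed n) (fun S => ∃ X ⊆ range n, X.card = r ∧ s₀ ≤ (reach S X n).card ∧
        (reach S X n).card ≤ M₀ ∧ (reach S X n).card ≤ (Eg S (reach S X n)).card + 1) ≤
      n * Real.exp 1 * (4 * Real.exp (c + 1) + 1) *
        (8 * Real.exp 5 * c ^ 2 * (4 * Real.exp (c + 1)) ^ 2) ^ r *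
        Real.exp (-(s₀ / (4 * Real.exp (c + 1)))) := by
  obtain ⟨hn0, hp0, hp1⟩ := sumB_pos hc hcn
  obtain ⟨m, rfl⟩ : ∃ m, r = m + 1 := ⟨r - 1, by omega⟩
  have hm : (1 : ℝ) ≤ m := by
    have : 1 ≤ m := by omega
    exact_mod_cast this
  have ha : 1 ≤ 4 * Real.exp (c + 1) := by
    have := Real.one_le_exp (x := c + 1) (by linarith)
    linarith
  have h1 := sum_prob (s₀ := s₀) (M₀ := M₀) hc hcn (r := m + 1) (k := m) (by omega) (by omega)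
    (by omega) (hM.trans (by nlinarith))
  refine (PP_mono hp0 hp1 fun S _ => ?_).trans (h1.trans ?_)
  · rintro ⟨X, hX, hXr, h2, h3, h4⟩
    exact ⟨X, hX, hXr, h2, h3, by omega⟩
  · generalize 4 * Real.exp (c + 1) = a at *
    have hK := sumB_K hc ha
    rw [sumB_8]
    generalize 4 * Real.exp 3 * c ^ 2 * a ^ 2 = K at *
    have hE : 0 ≤ Real.exp (-(s₀ / a)) := (Real.exp_pos _).le
    have h5 := choose_le_exp (a := n) (b := m + 1) (by omega)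
    have h6 := sumB_conn hn0 hK m
    have hK0 : 0 ≤ K := by linarith
    have ha1 : 0 ≤ a + 1 := by linarith
    calc (n.choose (m + 1) : ℝ) * (Real.exp 1 * (K * m / n) ^ m * (2 * Real.exp 1) ^ (m + 1) *
          ((a + 1) * Real.exp (-(s₀ / a))))
        ≤ (Real.exp 1 * n / ((m + 1 : ℕ) : ℝ)) ^ (m + 1) * (Real.exp 1 * (K * m / n) ^ m *
          (2 * Real.exp 1) ^ (m + 1) * ((a + 1) * Real.exp (-(s₀ / a)))) := by
          gcongr
      _ = ((Real.exp 1 * n / ((m + 1 : ℕ) : ℝ)) ^ (m + 1) * (K * m / n) ^ m *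
          (2 * Real.exp 1) ^ (m + 1)) * (Real.exp 1 * ((a + 1) * Real.exp (-(s₀ / a)))) := by ring
      _ ≤ (n * (2 * Real.exp 1 * Real.exp 1 * K) ^ (m + 1)) *
          (Real.exp 1 * ((a + 1) * Real.exp (-(s₀ / a)))) := by
          gcongr
      _ = _ := by ring

private theorem sumB_cyc {n K : ℝ} (hn : 0 < n) (hK : 1 ≤ K) {r : ℕ} (hr : 1 ≤ r) :
    (Real.exp 1 * n / (r : ℝ)) ^ r * (K * ((r + 1 : ℕ) : ℝ) / n) ^ (r + 1) * (2 * Real.exp 1) ^ r ≤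
      Real.exp 1 * (r + 1) * (2 * Real.exp 1 * Real.exp 1 * K) ^ (r + 1) / n := by
  have hr0 : (0 : ℝ) < r := by exact_mod_cast hr
  have h1 : ((r + 1 : ℕ) : ℝ) ^ r / (r : ℝ) ^ r ≤ Real.exp 1 := by
    rw [← div_pow]
    have h2 : ((r + 1 : ℕ) : ℝ) / r ≤ Real.exp (1 / r) := by
      have h3 := Real.add_one_le_exp (1 / (r : ℝ))
      have h4 : ((r + 1 : ℕ) : ℝ) / r = 1 / r + 1 := by
        push_cast
        rw [add_div, div_self hr0.ne', add_comm]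
      rw [h4]
      exact h3
    calc (((r + 1 : ℕ) : ℝ) / r) ^ r ≤ Real.exp (1 / r) ^ r := by gcongr
      _ = Real.exp 1 := by
        rw [← Real.exp_nat_mul]
        congr 1
        field_simp
  have hK0 : 0 ≤ K := by linarith
  have h4 : (Real.exp 1 * n / (r : ℝ)) ^ r * (K * ((r + 1 : ℕ) : ℝ) / n) ^ (r + 1) *
      (2 * Real.exp 1) ^ r =
      (((r + 1 : ℕ) : ℝ) ^ r / (r : ℝ) ^ r) * (r + 1) * ((2 * Real.exp 1) ^ r * (Real.exp 1) ^ r *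
        K ^ (r + 1)) / n := by
    rw [div_pow, div_pow, mul_pow, mul_pow K]
    rw [pow_succ n r, pow_succ (((r + 1 : ℕ) : ℝ)) r]
    push_cast
    field_simp
  rw [h4]
  have he : 1 ≤ Real.exp 1 := Real.one_le_exp (by norm_num)
  have h5 : (2 * Real.exp 1) ^ r ≤ (2 * Real.exp 1) ^ (r + 1) :=
    pow_le_pow_right₀ (by linarith) (by omega)
  have h6 : (Real.exp 1) ^ r ≤ (Real.exp 1) ^ (r + 1) := pow_le_pow_right₀ he (by omega)
  rw [mul_pow (2 * Real.exp 1 * Real.exp 1) K, mul_pow (2 * Real.exp 1) (Real.exp 1)]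
  gcongr

/-- The case `k = r + 1` (two cycles). HINT: `(r+1)^(r+1) / r^r ≤ e (r+1)`. -/
theorem sum_prob_cyc {n : ℕ} {c : ℝ} (hc : 1 ≤ c) (hcn : c ≤ Real.log n) {r M₀ : ℕ}
    (hr : 1 ≤ r) (hM : 2 * c ^ 2 * M₀ ^ 2 ≤ n) :
    PP (c / n) (Ed n) (fun S => ∃ X ⊆ range n, X.card = r ∧
        (reach S X n).card ≤ M₀ ∧ (reach S X n).card + 1 ≤ (Eg S (reach S X n)).card) ≤
      Real.exp 2 * (4 * Real.exp (c + 1) + 1) * (r + 1) *
        (8 * Real.exp 5 * c ^ 2 * (4 * Real.exp (c + 1)) ^ 2) ^ (r + 1) / n := by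
  obtain ⟨hn0, hp0, hp1⟩ := sumB_pos hc hcn
  have ha : 1 ≤ 4 * Real.exp (c + 1) := by
    have := Real.one_le_exp (x := c + 1) (by linarith)
    linarith
  have hr1 : (1 : ℝ) ≤ ((r + 1 : ℕ) : ℝ) := by
    have : 1 ≤ r + 1 := by omega
    exact_mod_cast this
  have h1 := sum_prob (s₀ := 0) (M₀ := M₀) hc hcn (r := r) (k := r + 1) hr (by omega)
    le_rfl (hM.trans (by nlinarith))
  refine (PP_mono hp0 hp1 fun S _ => ?_).trans (h1.trans ?_)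
  · rintro ⟨X, hX, hXr, h3, h4⟩
    exact ⟨X, hX, hXr, Nat.zero_le _, h3, by omega⟩
  · generalize 4 * Real.exp (c + 1) = a at *
    have hK := sumB_K hc ha
    rw [sumB_8]
    generalize 4 * Real.exp 3 * c ^ 2 * a ^ 2 = K at *
    have h5 := choose_le_exp (a := n) (b := r) hr
    have h6 := sumB_cyc hn0 hK hr
    have hK0 : 0 ≤ K := by linarith
    have ha1 : 0 ≤ a + 1 := by linarith
    have h7 : Real.exp (-(((0 : ℕ) : ℝ) / a)) = 1 := by simp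
    have h8 : Real.exp 2 = Real.exp 1 * Real.exp 1 := by
      rw [← Real.exp_add]; norm_num
    rw [h7, h8]
    calc (n.choose r : ℝ) * (Real.exp 1 * (K * ((r + 1 : ℕ) : ℝ) / n) ^ (r + 1) *
          (2 * Real.exp 1) ^ r * ((a + 1) * 1))
        ≤ (Real.exp 1 * n / (r : ℝ)) ^ r * (Real.exp 1 * (K * ((r + 1 : ℕ) : ℝ) / n) ^ (r + 1) *
          (2 * Real.exp 1) ^ r * ((a + 1) * 1)) := by
          gcongr
      _ = ((Real.exp 1 * n / (r : ℝ)) ^ r * (K * ((r + 1 : ℕ) : ℝ) / n) ^ (r + 1) *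
          (2 * Real.exp 1) ^ r) * (Real.exp 1 * (a + 1)) := by ring
      _ ≤ (Real.exp 1 * (r + 1) * (2 * Real.exp 1 * Real.exp 1 * K) ^ (r + 1) / n) *
          (Real.exp 1 * (a + 1)) := by
          gcongr
      _ = _ := by ring

end Pool.Agent.SparseOrd
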