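import Mathlib
import Pool.Agent.SparseOrd.SumB

set_option autoImplicit false

namespace Pool.Agent.SparseOrd

open Finset Pool.Agent.MP_ef8d06_pr

lemma failA_card_le {n : ℕ} {S : Finset (ℕ × ℕ)} (hS : S ⊆ Ed n) {X : Finset ℕ}
    (hX : X ⊆ range n) : (reach S X n).card ≤ ∑ a ∈ X, (reach S {a} n).card := by
  have h1 : reach S X n ⊆ X.biUnion (fun a => reach S {a} n) := by
    intro y hy
    obtain ⟨a, ha, hay⟩ := pleq_of_mem_reach hy
    rw [mem_biUnion]
    exact ⟨a, ha, mem_reach_of_pleq hS (mem_singleton_self a) (mem_range.1 (hX ha)) hay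
      (mem_reach_lt hy)⟩
  exact (card_le_card h1).trans card_biUnion_le

theorem fail_bound {n : ℕ} {c : ℝ} (hc : 1 ≤ c) (hcn : c ≤ Real.log n) {s D M₀ : ℕ} (hs : 1 ≤ s)
    (hM : 2 * c ^ 2 * M₀ ^ 2 ≤ n) :
    PP (c / n) (Ed n) (fun S => ¬ (H1 S n (3 * s) ∧ H2 S n s D)) ≤
      PP (c / n) (Ed n) (fun S => ∃ a ∈ range n, M₀ ≤ 3 * s * (reach S {a} n).card) +
      3 * s * (Real.exp 2 * (4 * Real.exp (c + 1) + 1) * (3 * s + 1) *
        (8 * Real.exp 5 * c ^ 2 * (4 * Real.exp (c + 1)) ^ 2) ^ (3 * s + 1) / n) +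
      3 * s * (n * Real.exp 1 * (4 * Real.exp (c + 1) + 1) *
        (8 * Real.exp 5 * c ^ 2 * (4 * Real.exp (c + 1)) ^ 2) ^ (3 * s) *
        Real.exp (-((s * D : ℕ) / (4 * Real.exp (c + 1))))) := by
  obtain ⟨hp0, hp1⟩ := PP_nonneg' (by linarith : 0 ≤ c) hcn
  set B : ℝ := 8 * Real.exp 5 * c ^ 2 * (4 * Real.exp (c + 1)) ^ 2 with hB
  have hB1 : 1 ≤ B := by
    have h1 : 1 ≤ Real.exp 5 := Real.one_le_exp (by norm_num)
    have h2 : 1 ≤ Real.exp (c + 1) := Real.one_le_exp (by linarith)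
    have h3 : 1 ≤ c ^ 2 := by nlinarith
    have h4 : 1 ≤ (4 * Real.exp (c + 1)) ^ 2 := by nlinarith
    have h5 : 1 ≤ 8 * Real.exp 5 * c ^ 2 := by nlinarith
    calc (1 : ℝ) = 1 * 1 := by ring
      _ ≤ B := mul_le_mul h5 h4 (by norm_num) (by linarith)
  have key : PP (c / n) (Ed n) (fun S => ¬ (H1 S n (3 * s) ∧ H2 S n s D)) ≤
      PP (c / n) (Ed n) (fun S => (∃ a ∈ range n, M₀ ≤ 3 * s * (reach S {a} n).card) ∨
        ((∃ r ∈ Icc 1 (3 * s), ∃ X ⊆ range n, X.card = r ∧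
          (reach S X n).card ≤ M₀ ∧ (reach S X n).card + 1 ≤ (Eg S (reach S X n)).card) ∨
        (∃ r ∈ Icc 2 (3 * s), ∃ X ⊆ range n, X.card = r ∧ s * D ≤ (reach S X n).card ∧
          (reach S X n).card ≤ M₀ ∧
          (reach S X n).card ≤ (Eg S (reach S X n)).card + 1))) := by
    refine PP_mono hp0 hp1 fun S hS hbad => ?_
    by_cases hA : ∃ a ∈ range n, M₀ ≤ 3 * s * (reach S {a} n).card
    · exact Or.inl hA
    · right
      push Not at hA
      have hle : ∀ X ⊆ range n, X.card ≤ 3 * s → (reach S X n).card ≤ M₀ := by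
        intro X hX hXc
        have h1 := failA_card_le hS hX
        have h2 : 3 * s * (reach S X n).card ≤ 3 * s * M₀ := by
          calc 3 * s * (reach S X n).card ≤ 3 * s * ∑ a ∈ X, (reach S {a} n).card :=
                Nat.mul_le_mul_left _ h1
            _ = ∑ a ∈ X, 3 * s * (reach S {a} n).card := by rw [mul_sum]
            _ ≤ ∑ a ∈ X, M₀ := sum_le_sum fun a ha => (hA a (hX ha)).le
            _ = X.card * M₀ := by rw [sum_const, smul_eq_mul]
            _ ≤ 3 * s * M₀ := Nat.mul_le_mul_right _ hXc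
        exact Nat.le_of_mul_le_mul_left h2 (by omega)
      rcases not_and_or.1 hbad with h | h
      · left
        unfold H1 at h
        push Not at h
        obtain ⟨X, hX, hne, hXc, hlt⟩ := h
        exact ⟨X.card, mem_Icc.2 ⟨hne.card_pos, hXc⟩, X, hX, rfl, hle X hX hXc, hlt⟩
      · right
        unfold H2 at h
        push Not at h
        obtain ⟨X, hX, hX2, hXc, hsD, hlt⟩ := h
        exact ⟨X.card, mem_Icc.2 ⟨hX2, hXc⟩, X, hX, rfl, hsD, hle X hX hXc, hlt⟩
  refine key.trans ((PP_or_le hp0 hp1 _ _ _).trans ?_)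
  rw [add_assoc]
  refine add_le_add le_rfl ((PP_or_le hp0 hp1 _ _ _).trans (add_le_add ?_ ?_))
  · refine (PP_exists_le hp0 hp1 _ _ _).trans ?_
    have h1 : ∀ r ∈ Icc 1 (3 * s), PP (c / n) (Ed n) (fun S => ∃ X ⊆ range n, X.card = r ∧
          (reach S X n).card ≤ M₀ ∧ (reach S X n).card + 1 ≤ (Eg S (reach S X n)).card) ≤
        Real.exp 2 * (4 * Real.exp (c + 1) + 1) * (3 * s + 1) * B ^ (3 * s + 1) / n := by
      intro r hr
      obtain ⟨hr1, hr2⟩ := mem_Icc.1 hr
      refine (sum_prob_cyc hc hcn hr1 hM).trans ?_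
      rw [← hB]
      apply div_le_div_of_nonneg_right _ (by positivity)
      have h2 : (r : ℝ) ≤ 3 * s := by exact_mod_cast hr2
      have h3 : B ^ (r + 1) ≤ B ^ (3 * s + 1) := pow_le_pow_right₀ hB1 (by omega)
      exact mul_le_mul (mul_le_mul_of_nonneg_left (by linarith) (by positivity)) h3
        (by positivity) (by positivity)
    refine (sum_le_sum h1).trans ?_
    rw [sum_const, nsmul_eq_mul]
    apply mul_le_mul_of_nonneg_right _ (by positivity)
    rw [Nat.card_Icc]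
    have : ((3 * s + 1 - 1 : ℕ) : ℝ) = 3 * s := by
      rw [Nat.add_sub_cancel]; push_cast; ring
    rw [this]
  · refine (PP_exists_le hp0 hp1 _ _ _).trans ?_
    have h1 : ∀ r ∈ Icc 2 (3 * s), PP (c / n) (Ed n) (fun S => ∃ X ⊆ range n, X.card = r ∧
          s * D ≤ (reach S X n).card ∧ (reach S X n).card ≤ M₀ ∧
          (reach S X n).card ≤ (Eg S (reach S X n)).card + 1) ≤
        n * Real.exp 1 * (4 * Real.exp (c + 1) + 1) * B ^ (3 * s) *
        Real.exp (-((s * D : ℕ) / (4 * Real.exp (c + 1)))) := by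
      intro r hr
      obtain ⟨hr1, hr2⟩ := mem_Icc.1 hr
      refine (sum_prob_conn hc hcn hr1 hM).trans ?_
      rw [← hB]
      apply mul_le_mul_of_nonneg_right _ (Real.exp_pos _).le
      apply mul_le_mul_of_nonneg_left _ (by positivity)
      exact pow_le_pow_right₀ hB1 hr2
    refine (sum_le_sum h1).trans ?_
    rw [sum_const, nsmul_eq_mul]
    apply mul_le_mul_of_nonneg_right _ (by positivity)
    rw [Nat.card_Icc]
    have : ((3 * s + 1 - 2 : ℕ) : ℝ) ≤ ((3 * s : ℕ) : ℝ) := by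
      exact_mod_cast (by omega : 3 * s + 1 - 2 ≤ 3 * s)
    refine this.trans (le_of_eq ?_)
    push_cast
    ring

end Pool.Agent.SparseOrd
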