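import Mathlib
import Pool.Agent.SparseOrd.FailA

set_option autoImplicit false

namespace Pool.Agent.SparseOrd

open Finset Filter Topology Pool.Agent.MP_ef8d06_pr

/-- The threshold for the sizes of up-sets. -/
noncomputable def DD (c : ℝ) : ℕ := ⌈7000 * c * Real.exp c⌉₊

/-- First term: all up-sets are at most `⌈e ⌈2 log n⌉ e^c⌉`. -/
private lemma FailB_first {n : ℕ} {c : ℝ} (hn : 1 ≤ Real.log n) (hc1 : 1 ≤ c)
    (hcn : c ≤ Real.log n) :
    PP (c / n) (Ed n) (fun S => ∃ a ∈ range n,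
      ⌈Real.exp 1 * ⌈2 * Real.log n⌉₊ * Real.exp c⌉₊ ≤ (reach S {a} n).card) ≤ 1 / n := by
  have hn0 : (0 : ℝ) < n := by
    rcases Nat.eq_zero_or_pos n with rfl | h
    · simp at hn; linarith
    · exact_mod_cast h
  obtain ⟨hp0, hp1⟩ := PP_nonneg' (by linarith : 0 ≤ c) hcn
  have hpn : c / n * n = c := by field_simp
  obtain ⟨L, hL⟩ : ∃ L : ℝ, L = Real.log n := ⟨_, rfl⟩
  rw [← hL] at hn hcn ⊢
  obtain ⟨E, hE⟩ : ∃ E : ℝ, E = Real.exp c := ⟨_, rfl⟩
  rw [← hE]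
  have hE1 : 1 ≤ E := by rw [hE]; exact Real.one_le_exp (by linarith)
  obtain ⟨q, hq⟩ : ∃ q : ℕ, q = ⌈2 * L⌉₊ := ⟨_, rfl⟩
  rw [← hq]
  have hq1 : 2 * L ≤ q := by rw [hq]; exact Nat.le_ceil _
  have he2 : 2.7 ≤ Real.exp 1 := by
    have := Real.exp_one_gt_d9; linarith
  obtain ⟨K, hK⟩ : ∃ K : ℕ, K = ⌈Real.exp 1 * q * E⌉₊ := ⟨_, rfl⟩
  rw [← hK]
  have hK1 : Real.exp 1 * q * E ≤ K := by rw [hK]; exact Nat.le_ceil _
  have hqE : 2 ≤ (q : ℝ) * E := by nlinarith
  have hK0 : (1 : ℝ) ≤ K := by nlinarith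
  have hK0' : 1 ≤ K := by exact_mod_cast hK0
  refine (PP_exists_le hp0 hp1 _ _ _).trans ?_
  have h1 : ∀ a ∈ range n, PP (c / n) (Ed n) (fun S => K ≤ (reach S {a} n).card) ≤
      1 / n * (1 / n) := by
    intro a ha
    refine (upper_tail hp0 hp1 (mem_range.1 ha) q K hK0').trans ?_
    rw [hpn, ← hE]
    have h2 : E * q / K ≤ Real.exp (-1) := by
      rw [div_le_iff₀ (by linarith), Real.exp_neg]
      have h3 : (Real.exp 1)⁻¹ * (Real.exp 1 * q * E) ≤ (Real.exp 1)⁻¹ * K :=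
        mul_le_mul_of_nonneg_left hK1 (by positivity)
      have h4 : (Real.exp 1)⁻¹ * (Real.exp 1 * q * E) = E * q := by
        field_simp
      linarith
    calc (E * q / K) ^ q ≤ (Real.exp (-1)) ^ q := pow_le_pow_left₀ (by positivity) h2 q
      _ = Real.exp (-q) := by rw [← Real.exp_nat_mul]; ring_nf
      _ ≤ Real.exp (-L + -L) := Real.exp_le_exp.2 (by linarith)
      _ = 1 / n * (1 / n) := by
          rw [Real.exp_add, Real.exp_neg, hL, Real.exp_log hn0, one_div]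
  refine (Finset.sum_le_sum h1).trans ?_
  rw [Finset.sum_const, card_range, nsmul_eq_mul]
  apply le_of_eq
  field_simp

/-- `log B ≤ 14 c`. -/
private lemma FailB_B {c : ℝ} (hc : 1 ≤ c) :
    8 * Real.exp 5 * c ^ 2 * (4 * Real.exp (c + 1)) ^ 2 ≤ Real.exp (14 * c) := by
  have h1 : c ≤ Real.exp (c - 1) := by
    have := Real.add_one_le_exp (c - 1); linarith
  have h2 : c ^ 2 ≤ Real.exp (c - 1) ^ 2 := pow_le_pow_left₀ (by linarith) h1 2
  have h3 : (128 : ℝ) ≤ Real.exp 5 := by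
    have h4 : Real.exp 5 = Real.exp 1 ^ 5 := by rw [← Real.exp_nat_mul]; norm_num
    rw [h4]
    have h5 : (2.7 : ℝ) ≤ Real.exp 1 := by
      have := Real.exp_one_gt_d9; linarith
    calc (128 : ℝ) ≤ 2.7 ^ 5 := by norm_num
      _ ≤ Real.exp 1 ^ 5 := pow_le_pow_left₀ (by norm_num) h5 5
  calc 8 * Real.exp 5 * c ^ 2 * (4 * Real.exp (c + 1)) ^ 2
      = 128 * (Real.exp 5 * c ^ 2 * Real.exp (c + 1) ^ 2) := by ring
    _ ≤ Real.exp 5 * (Real.exp 5 * Real.exp (c - 1) ^ 2 * Real.exp (c + 1) ^ 2) := by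
        refine mul_le_mul h3 ?_ (by positivity) (by positivity)
        refine mul_le_mul_of_nonneg_right ?_ (by positivity)
        exact mul_le_mul_of_nonneg_left h2 (by positivity)
    _ = Real.exp (10 + 4 * c) := by
        rw [← Real.exp_nat_mul, ← Real.exp_nat_mul, ← Real.exp_add, ← Real.exp_add,
          ← Real.exp_add]
        congr 1
        push_cast
        ring
    _ ≤ Real.exp (14 * c) := Real.exp_le_exp.2 (by linarith)

/-- A pure inequality: the three terms. -/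
private lemma FailB_num {c L : ℝ} (hc : 1 ≤ c) (hcL : c ≤ L / 1000) {s D : ℕ}
    (hs1 : L / (180 * c) ≤ s) (hs2 : (s : ℝ) ≤ L / (180 * c) + 1)
    (hD : 7000 * c * Real.exp c ≤ D) :
    3 * (s : ℝ) * (Real.exp 2 * (4 * Real.exp (c + 1) + 1) * (3 * s + 1) *
        (8 * Real.exp 5 * c ^ 2 * (4 * Real.exp (c + 1)) ^ 2) ^ (3 * s + 1) / Real.exp L) +
      3 * s * (Real.exp L * Real.exp 1 * (4 * Real.exp (c + 1) + 1) *
        (8 * Real.exp 5 * c ^ 2 * (4 * Real.exp (c + 1)) ^ 2) ^ (3 * s) *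
        Real.exp (-((s * D : ℕ) / (4 * Real.exp (c + 1))))) ≤
      1300 * L ^ 2 * Real.exp (-(L / 2)) := by
  have hc0 : 0 < c := by linarith
  have hL : 1000 ≤ L := by linarith
  obtain ⟨B, hB⟩ : ∃ B : ℝ, B = 8 * Real.exp 5 * c ^ 2 * (4 * Real.exp (c + 1)) ^ 2 := ⟨_, rfl⟩
  have hB14 : B ≤ Real.exp (14 * c) := by rw [hB]; exact FailB_B hc
  have hB0 : 0 ≤ B := by rw [hB]; positivity
  rw [← hB]
  have he1 : Real.exp 1 ≤ 2.72 := by
    have := Real.exp_one_lt_d9; linarith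
  have he1' : 0 < Real.exp 1 := Real.exp_pos 1
  have he2 : Real.exp 2 ≤ 7.4 := by
    have h4 : Real.exp 2 = Real.exp 1 ^ 2 := by rw [← Real.exp_nat_mul]; norm_num
    rw [h4]
    nlinarith
  -- products with `c`
  have hcs1 : L / 180 ≤ c * s := by
    have := mul_le_mul_of_nonneg_left hs1 hc0.le
    have e : c * (L / (180 * c)) = L / 180 := by field_simp
    linarith
  have hcs2 : c * s ≤ L / 180 + c := by
    have := mul_le_mul_of_nonneg_left hs2 hc0.le
    have e : c * (L / (180 * c) + 1) = L / 180 + c := by field_simp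
    linarith
  have hs0 : (0 : ℝ) ≤ s := by positivity
  have hsL : (s : ℝ) ≤ L / 90 := by
    have h1 : (s : ℝ) ≤ c * s := by nlinarith
    linarith
  have hexpc : Real.exp (c + 1) ≤ 2.72 * Real.exp (L / 1000) := by
    rw [Real.exp_add, mul_comm]
    exact mul_le_mul he1 (Real.exp_le_exp.2 hcL) (by positivity) (by norm_num)
  have hone : 1 ≤ Real.exp (L / 1000) := Real.one_le_exp (by linarith)
  have hfac : 4 * Real.exp (c + 1) + 1 ≤ 12 * Real.exp (L / 1000) := by linarith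
  have hBpow1 : B ^ (3 * s + 1) ≤ Real.exp (3 / 10 * L) := by
    calc B ^ (3 * s + 1) ≤ Real.exp (14 * c) ^ (3 * s + 1) := pow_le_pow_left₀ hB0 hB14 _
      _ = Real.exp (14 * (3 * (c * s) + c)) := by
          rw [← Real.exp_nat_mul]; congr 1; push_cast; ring
      _ ≤ Real.exp (3 / 10 * L) := Real.exp_le_exp.2 (by linarith)
  have hBpow2 : B ^ (3 * s) * Real.exp (-((s * D : ℕ) / (4 * Real.exp (c + 1)))) ≤
      Real.exp (-(3 * L)) := by
    have h1 : B ^ (3 * s) ≤ Real.exp (42 * (c * s)) := by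
      calc B ^ (3 * s) ≤ Real.exp (14 * c) ^ (3 * s) := pow_le_pow_left₀ hB0 hB14 _
        _ = Real.exp (42 * (c * s)) := by
          rw [← Real.exp_nat_mul]; congr 1; push_cast; ring
    have h2 : 640 * (c * s) ≤ (s * D : ℕ) / (4 * Real.exp (c + 1)) := by
      rw [le_div_iff₀ (by positivity)]
      push_cast
      have e1 : Real.exp (c + 1) = Real.exp c * Real.exp 1 := Real.exp_add _ _
      rw [e1]
      have e2 : (s : ℝ) * (7000 * c * Real.exp c) ≤ s * D := mul_le_mul_of_nonneg_left hD hs0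
      have e3 : 0 ≤ c * s * Real.exp c := by positivity
      have e4 : 640 * (c * s) * (4 * (Real.exp c * Real.exp 1)) =
          (2560 * Real.exp 1) * (c * s * Real.exp c) := by ring
      have e5 : (2560 * Real.exp 1) * (c * s * Real.exp c) ≤ 7000 * (c * s * Real.exp c) :=
        mul_le_mul_of_nonneg_right (by linarith) e3
      have e6 : (s : ℝ) * (7000 * c * Real.exp c) = 7000 * (c * s * Real.exp c) := by ring
      linarith
    calc B ^ (3 * s) * Real.exp (-((s * D : ℕ) / (4 * Real.exp (c + 1))))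
        ≤ Real.exp (42 * (c * s)) * Real.exp (-(640 * (c * s))) :=
          mul_le_mul h1 (Real.exp_le_exp.2 (by linarith)) (by positivity) (by positivity)
      _ = Real.exp (-(598 * (c * s))) := by rw [← Real.exp_add]; congr 1; ring
      _ ≤ Real.exp (-(3 * L)) := Real.exp_le_exp.2 (by linarith)
  -- first summand
  have hT1 : 3 * (s : ℝ) * (Real.exp 2 * (4 * Real.exp (c + 1) + 1) * (3 * s + 1) *
        B ^ (3 * s + 1) / Real.exp L) ≤ 3 * (L / 90) * (7.4 * (12 * Real.exp (L / 1000)) *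
          (3 * (L / 90) + 1) * Real.exp (3 / 10 * L) / Real.exp L) := by
    gcongr
  have hT1' : 3 * (L / 90) * (7.4 * (12 * Real.exp (L / 1000)) *
          (3 * (L / 90) + 1) * Real.exp (3 / 10 * L) / Real.exp L) ≤
      100 * L ^ 2 * Real.exp (-(L / 2)) := by
    have e1 : Real.exp (L / 1000) * Real.exp (3 / 10 * L) / Real.exp L ≤ Real.exp (-(L / 2)) := by
      rw [← Real.exp_add, ← Real.exp_sub]
      exact Real.exp_le_exp.2 (by linarith)
    have e2 : 3 * (L / 90) * (7.4 * (12 * Real.exp (L / 1000)) *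
          (3 * (L / 90) + 1) * Real.exp (3 / 10 * L) / Real.exp L) =
        (3 * (L / 90) * (7.4 * 12 * (3 * (L / 90) + 1))) *
          (Real.exp (L / 1000) * Real.exp (3 / 10 * L) / Real.exp L) := by ring
    rw [e2]
    refine mul_le_mul ?_ e1 (by positivity) (by positivity)
    nlinarith
  -- second summand
  have hT2 : 3 * (s : ℝ) * (Real.exp L * Real.exp 1 * (4 * Real.exp (c + 1) + 1) *
        B ^ (3 * s) * Real.exp (-((s * D : ℕ) / (4 * Real.exp (c + 1))))) ≤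
      3 * (L / 90) * (Real.exp L * 2.72 * (12 * Real.exp (L / 1000)) * Real.exp (-(3 * L))) := by
    have e1 : Real.exp L * Real.exp 1 * (4 * Real.exp (c + 1) + 1) *
        B ^ (3 * s) * Real.exp (-((s * D : ℕ) / (4 * Real.exp (c + 1)))) =
        Real.exp L * Real.exp 1 * (4 * Real.exp (c + 1) + 1) *
        (B ^ (3 * s) * Real.exp (-((s * D : ℕ) / (4 * Real.exp (c + 1))))) := by ring
    rw [e1]
    gcongr
  have hT2' : 3 * (L / 90) * (Real.exp L * 2.72 * (12 * Real.exp (L / 1000)) *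
      Real.exp (-(3 * L))) ≤ 10 * L ^ 2 * Real.exp (-(L / 2)) := by
    have e1 : Real.exp L * Real.exp (L / 1000) * Real.exp (-(3 * L)) ≤ Real.exp (-(L / 2)) := by
      rw [← Real.exp_add, ← Real.exp_add]
      exact Real.exp_le_exp.2 (by linarith)
    have e2 : 3 * (L / 90) * (Real.exp L * 2.72 * (12 * Real.exp (L / 1000)) *
      Real.exp (-(3 * L))) = (3 * (L / 90) * (2.72 * 12)) *
          (Real.exp L * Real.exp (L / 1000) * Real.exp (-(3 * L))) := by ring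
    rw [e2]
    refine mul_le_mul ?_ e1 (by positivity) (by positivity)
    nlinarith
  have hpos : 0 ≤ L ^ 2 * Real.exp (-(L / 2)) := by positivity
  linarith

/-- HINT. `s = ⌈log n / (180 c)⌉₊` (so `5 ≤ s ≤ log n / (180 c) + 1 ≤ log n`),
`q = ⌈2 log n⌉₊`, `K = ⌈e q e^c⌉₊`, `M₀ = 3 s K`: by `upper_tail` (see the proof of `upper_large` in
`Pool/Agent/MP_ef8d06_pr/Upper.lean`) the first term of `fail_bound` is at most `1/n`. As
`c ≤ log n / 1000`: `e^c ≤ n^(1/1000)`, `M₀ ≤ 100 (log n)^2 n^(1/1000)`, so `2 c^2 M₀^2 ≤ n` for large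
`n`. `log B ≤ 14 c` for `B = 8 e^5 c^2 (4 e^(c+1))^2` (`log c ≤ c - 1`), so
`B^(3s+1) ≤ exp (14 c (3 log n/(180 c) + 4)) ≤ n^(0.3)`; and `s D / (4 e^(c+1)) ≥ 640 c s`,
`B^(3s) exp (-sD/(4e^(c+1))) ≤ exp (-590 c s) ≤ n^(-3)`. Uniformly in `c` all three terms are at most
`C (log n)^3 n^(-1/2)`. -/
theorem fail_small {η : ℝ} (hη : 0 < η) :
    ∃ N : ℕ, ∀ n ≥ N, ∀ c : ℝ, 1 ≤ c → c ≤ Real.log n / 1000 →
      ∃ s : ℕ, 2 ≤ s ∧
        PP (c / n) (Ed n) (fun S => ¬ (H1 S n (3 * s) ∧ H2 S n s (DD c))) ≤ η := by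
  -- choose a threshold for `log n`
  have hlim : Tendsto (fun L : ℝ => L ^ 6 * Real.exp (-(1 / 4) * L)) atTop (𝓝 0) := by
    have h1 := Real.tendsto_pow_mul_exp_neg_atTop_nhds_zero 6
    have h2 : Tendsto (fun L : ℝ => (1 / 4) * L) atTop atTop :=
      tendsto_id.const_mul_atTop (by norm_num)
    have h3 := (h1.comp h2).const_mul ((4 : ℝ) ^ 6)
    rw [mul_zero] at h3
    refine h3.congr fun L => ?_
    simp only [Function.comp]
    rw [mul_pow]
    have : -(1 / 4 * L) = -(1 / 4) * L := by ring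
    rw [this]
    ring
  have hev := hlim.eventually (gt_mem_nhds (show (0 : ℝ) < min 1 (η / 1400) by positivity))
  obtain ⟨L₀, hL₀⟩ := (hev.and (eventually_ge_atTop 1000)).exists_forall_of_atTop
  refine ⟨⌈Real.exp L₀⌉₊, fun n hn c hc hcn => ?_⟩
  have hn1 : Real.exp L₀ ≤ n := (Nat.le_ceil _).trans (by exact_mod_cast hn)
  have hn0 : (0 : ℝ) < n := (Real.exp_pos _).trans_le hn1
  have hnL : L₀ ≤ Real.log n := (Real.le_log_iff_exp_le hn0).2 hn1
  obtain ⟨hsmall, hL1000⟩ := hL₀ _ hnL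
  obtain ⟨L, hL⟩ : ∃ L : ℝ, L = Real.log n := ⟨_, rfl⟩
  have hnexp : (n : ℝ) = Real.exp L := by rw [hL, Real.exp_log hn0]
  rw [← hL] at hsmall hL1000 hcn
  have hc0 : 0 < c := by linarith
  have hcL : c ≤ Real.log n := by rw [← hL]; linarith
  obtain ⟨s, hs⟩ : ∃ s : ℕ, s = ⌈L / (180 * c)⌉₊ := ⟨_, rfl⟩
  have hs1 : L / (180 * c) ≤ s := by rw [hs]; exact Nat.le_ceil _
  have hs2 : (s : ℝ) ≤ L / (180 * c) + 1 := by
    rw [hs]; exact (Nat.ceil_lt_add_one (by positivity)).le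
  have h5 : 5 ≤ L / (180 * c) := by
    rw [le_div_iff₀ (by positivity)]; nlinarith
  have hs5 : (5 : ℝ) ≤ s := h5.trans hs1
  have hs2' : 2 ≤ s := by
    have : (2 : ℝ) ≤ s := by linarith
    exact_mod_cast this
  refine ⟨s, hs2', ?_⟩
  obtain ⟨K, hK⟩ : ∃ K : ℕ, K = ⌈Real.exp 1 * ⌈2 * L⌉₊ * Real.exp c⌉₊ := ⟨_, rfl⟩
  have hcsL : c * s ≤ L / 90 := by
    have := mul_le_mul_of_nonneg_left hs2 hc0.le
    have e : c * (L / (180 * c) + 1) = L / 180 + c := by field_simp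
    linarith
  have hexpc : Real.exp c ≤ Real.exp (L / 1000) := Real.exp_le_exp.2 hcn
  have hone : 1 ≤ Real.exp (L / 1000) := Real.one_le_exp (by linarith)
  have hq2 : ((⌈2 * L⌉₊ : ℕ) : ℝ) ≤ 2 * L + 1 := (Nat.ceil_lt_add_one (by linarith)).le
  have he1 : Real.exp 1 ≤ 2.72 := by
    have := Real.exp_one_lt_d9; linarith
  have hK2 : (K : ℝ) ≤ 10 * L * Real.exp (L / 1000) := by
    have h1 : (K : ℝ) ≤ Real.exp 1 * ⌈2 * L⌉₊ * Real.exp c + 1 := by
      rw [hK]; exact (Nat.ceil_lt_add_one (by positivity)).le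
    have h2 : Real.exp 1 * ⌈2 * L⌉₊ * Real.exp c ≤ 2.72 * (2 * L + 1) * Real.exp (L / 1000) := by
      gcongr
    have h3 : 2.72 * (2 * L + 1) * Real.exp (L / 1000) + 1 ≤ 10 * L * Real.exp (L / 1000) := by
      nlinarith
    linarith
  -- `fail_bound` with `M₀ = 3 s K`
  have hsmall1 : L ^ 6 * Real.exp (-(1 / 4) * L) < 1 := hsmall.trans_le (min_le_left _ _)
  have hsmall2 : L ^ 6 * Real.exp (-(1 / 4) * L) < η / 1400 := hsmall.trans_le (min_le_right _ _)
  have hM0 : 2 * c ^ 2 * (3 * s * K : ℕ) ^ 2 ≤ (n : ℝ) := by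
    push_cast
    have e1 : 2 * c ^ 2 * (3 * (s : ℝ) * K) ^ 2 = 18 * (c * s) ^ 2 * (K : ℝ) ^ 2 := by ring
    rw [e1, hnexp]
    have e2 : 18 * (c * s) ^ 2 * (K : ℝ) ^ 2 ≤
        18 * (L / 90) ^ 2 * (10 * L * Real.exp (L / 1000)) ^ 2 := by
      gcongr
    refine e2.trans ?_
    have e3 : Real.exp (L / 1000) ^ 2 ≤ Real.exp (1 / 4 * L) := by
      rw [← Real.exp_nat_mul]
      refine Real.exp_le_exp.2 ?_
      push_cast
      linarith
    have e4 : L ^ 6 ≤ Real.exp (1 / 4 * L) := by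
      have e5 : Real.exp (-(1 / 4) * L) * Real.exp (1 / 4 * L) = 1 := by
        rw [← Real.exp_add]; ring_nf; exact Real.exp_zero
      have e6 := mul_le_mul_of_nonneg_right hsmall1.le (Real.exp_pos (1 / 4 * L)).le
      rw [mul_assoc, e5] at e6
      linarith
    have e7 : 18 * (L / 90) ^ 2 * (10 * L * Real.exp (L / 1000)) ^ 2 =
        (2 / 9) * L ^ 4 * Real.exp (L / 1000) ^ 2 := by ring
    rw [e7]
    have e8 : (2 / 9) * L ^ 4 ≤ L ^ 6 := by
      have : L ^ 6 = L ^ 4 * L ^ 2 := by ring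
      rw [this]
      have h1 : 0 ≤ L ^ 4 := by positivity
      have h2 : (1 : ℝ) ≤ L ^ 2 := one_le_pow₀ (by linarith)
      have h3 := mul_le_mul_of_nonneg_left h2 h1
      linarith
    calc (2 / 9) * L ^ 4 * Real.exp (L / 1000) ^ 2
        ≤ Real.exp (1 / 4 * L) * Real.exp (1 / 4 * L) := by
          refine mul_le_mul (e8.trans e4) e3 (by positivity) (by positivity)
      _ = Real.exp (1 / 2 * L) := by rw [← Real.exp_add]; congr 1; ring
      _ ≤ Real.exp L := Real.exp_le_exp.2 (by linarith)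
  have hfb := fail_bound hc hcL (s := s) (D := DD c) (M₀ := 3 * s * K) (by omega) hM0
  have hfirst : PP (c / n) (Ed n) (fun S => ∃ a ∈ range n,
      3 * s * K ≤ 3 * s * (reach S {a} n).card) ≤ 1 / n := by
    refine le_trans (PP_mono ?_ ?_ ?_) (FailB_first (n := n) (c := c) (by rw [← hL]; linarith) hc hcL)
    · exact (PP_nonneg' hc0.le hcL).1
    · exact (PP_nonneg' hc0.le hcL).2
    · rintro S _ ⟨a, ha, h⟩
      refine ⟨a, ha, ?_⟩
      rw [← hL, ← hK]
      exact Nat.le_of_mul_le_mul_left h (by omega)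
  have hnum := FailB_num hc hcn hs1 hs2 (D := DD c) (Nat.le_ceil _)
  rw [← hnexp] at hnum
  refine hfb.trans ?_
  have hbound : (1 : ℝ) / n ≤ L ^ 6 * Real.exp (-(1 / 4) * L) := by
    rw [hnexp, one_div, ← Real.exp_neg]
    have e1 : Real.exp (-L) ≤ Real.exp (-(1 / 4) * L) := Real.exp_le_exp.2 (by linarith)
    have e2 : 1 ≤ L ^ 6 := one_le_pow₀ (by linarith)
    have e3 := Real.exp_pos (-(1 / 4) * L)
    nlinarith
  have hbound2 : 1300 * L ^ 2 * Real.exp (-(L / 2)) ≤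
      1300 * (L ^ 6 * Real.exp (-(1 / 4) * L)) := by
    have e1 : Real.exp (-(L / 2)) ≤ Real.exp (-(1 / 4) * L) := Real.exp_le_exp.2 (by linarith)
    have e2 : L ^ 2 ≤ L ^ 6 := pow_le_pow_right₀ (by linarith) (by norm_num)
    have e3 : L ^ 2 * Real.exp (-(L / 2)) ≤ L ^ 6 * Real.exp (-(1 / 4) * L) :=
      mul_le_mul e2 e1 (by positivity) (by positivity)
    linarith
  linarith

end Pool.Agent.SparseOrd
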