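import Mathlib
import Pool.Agent.SparseOrd.Defs

set_option autoImplicit false

namespace Pool.Agent.SparseOrd

open Finset Pool.Agent.MP_ef8d06_pr

theorem flp_subset (n : ℕ) (S : Finset (ℕ × ℕ)) : flp n S ⊆ Ed n := Finset.filter_subset _ _

theorem flp_flp {n : ℕ} {S : Finset (ℕ × ℕ)} (hS : S ⊆ Ed n) : flp n (flp n S) = S := by
  ext e
  simp only [flp, mem_filter, mem_Ed]
  constructor
  · rintro ⟨h1, _, h3⟩
    have e1 : n - 1 - (n - 1 - e.1) = e.1 := by omega
    have e2 : n - 1 - (n - 1 - e.2) = e.2 := by omega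
    rw [e1, e2] at h3
    exact h3
  · intro he
    have h1 := mem_Ed.1 (hS he)
    have e1 : n - 1 - (n - 1 - e.1) = e.1 := by omega
    have e2 : n - 1 - (n - 1 - e.2) = e.2 := by omega
    refine ⟨h1, by omega, ?_⟩
    rw [e1, e2]
    exact he

lemma pleq_flp_aux {n : ℕ} {S : Finset (ℕ × ℕ)} (hS : S ⊆ Ed n) {x y : ℕ} (h : pleq S x y) :
    pleq (flp n S) (n - 1 - y) (n - 1 - x) := by
  induction h with
  | refl => exact Relation.ReflTransGen.refl
  | @tail b c _ hbc ih =>
    refine Relation.ReflTransGen.head ?_ ih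
    have h1 := mem_Ed.1 (hS hbc)
    simp only at h1
    simp only [flp, mem_filter, mem_Ed]
    have e1 : n - 1 - (n - 1 - b) = b := by omega
    have e2 : n - 1 - (n - 1 - c) = c := by omega
    rw [e1, e2]
    exact ⟨by omega, hbc⟩

/-- Reversed paths. -/
theorem pleq_flp {n : ℕ} {S : Finset (ℕ × ℕ)} (hS : S ⊆ Ed n) {x y : ℕ} (hx : x < n) (hy : y < n) :
    pleq (flp n S) (n - 1 - y) (n - 1 - x) ↔ pleq S x y := by
  constructor
  · intro h
    have h1 := pleq_flp_aux (flp_subset n S) h
    rw [flp_flp hS] at h1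
    have e1 : n - 1 - (n - 1 - x) = x := by omega
    have e2 : n - 1 - (n - 1 - y) = y := by omega
    rwa [e1, e2] at h1
  · exact pleq_flp_aux hS

/-- The model is invariant under the flip. -/
theorem PP_flp (p : ℝ) (n : ℕ) (Q : Finset (ℕ × ℕ) → Prop) :
    PP p (Ed n) (fun S => Q (flp n S)) = PP p (Ed n) Q := by
  classical
  set r : ℕ × ℕ → ℕ × ℕ := fun e => (n - 1 - e.2, n - 1 - e.1) with hr
  have hrr : ∀ e ∈ Ed n, r (r e) = e := by
    intro e he
    have h1 := mem_Ed.1 he
    simp only [hr]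
    have e1 : n - 1 - (n - 1 - e.1) = e.1 := by omega
    have e2 : n - 1 - (n - 1 - e.2) = e.2 := by omega
    rw [e1, e2]
  have hrE : ∀ e ∈ Ed n, r e ∈ Ed n := by
    intro e he
    have h1 := mem_Ed.1 he
    rw [mem_Ed]
    simp only [hr]
    omega
  have himg : (Ed n).image r = Ed n := by
    ext e
    rw [mem_image]
    constructor
    · rintro ⟨f, hf, rfl⟩
      exact hrE f hf
    · intro he
      exact ⟨r e, hrE e he, hrr e he⟩
  have hinj : Set.InjOn r (Ed n) := by
    intro e he f hf hef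
    rw [← hrr e he, ← hrr f hf, hef]
  have hflp : ∀ S ⊆ Ed n, S.image r = flp n S := by
    intro S hS
    ext e
    rw [mem_image, flp, mem_filter]
    constructor
    · rintro ⟨f, hf, rfl⟩
      refine ⟨hrE f (hS hf), ?_⟩
      have := hrr f (hS hf)
      simp only [hr] at this ⊢
      rw [this]
      exact hf
    · rintro ⟨he, he'⟩
      exact ⟨r e, he', hrr e he⟩
  unfold PP
  have h1 := EE_image p (Ed n) r hinj (fun S => if Q S then (1 : ℝ) else 0)
  rw [himg] at h1
  rw [h1]
  refine EE_congr fun S hS => ?_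
  rw [hflp S hS]

theorem sep_flp {n t : ℕ} {S : Finset (ℕ × ℕ)} (hS : S ⊆ Ed n) {Q : ℕ → ℕ → Prop}
    (h : Sep (flp n S) n t Q) : Sep S n t (fun x y => Q (n - 1 - y) (n - 1 - x)) := by
  classical
  obtain ⟨F, hF, hsep⟩ := h
  set N : ℕ := (∑ i : Fin t, ∑ z ∈ range n, F i z) + 1 with hN
  have hFN : ∀ i : Fin t, ∀ z, z < n → F i z < N := by
    intro i z hz
    have h1 : F i z ≤ ∑ z ∈ range n, F i z :=
      Finset.single_le_sum (f := fun z => F i z) (fun _ _ => Nat.zero_le _) (mem_range.2 hz)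
    have h2 : ∑ z ∈ range n, F i z ≤ ∑ i : Fin t, ∑ z ∈ range n, F i z :=
      Finset.single_le_sum (f := fun i => ∑ z ∈ range n, F i z) (fun _ _ => Nat.zero_le _)
        (mem_univ i)
    omega
  refine ⟨fun i x => N - F i (n - 1 - x), ?_, ?_⟩
  · intro i e he
    have h1 := mem_Ed.1 (hS he)
    have h2 : (n - 1 - e.2, n - 1 - e.1) ∈ flp n S := by
      simp only [flp, mem_filter, mem_Ed]
      have e1 : n - 1 - (n - 1 - e.1) = e.1 := by omega
      have e2 : n - 1 - (n - 1 - e.2) = e.2 := by omega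
      rw [e1, e2]
      exact ⟨by omega, he⟩
    have h3 := hF i _ h2
    simp only at h3 ⊢
    omega
  · intro x y hx hy hQ hxy
    have h1 : ¬ pleq (flp n S) (n - 1 - y) (n - 1 - x) := by
      rw [pleq_flp hS hx hy]
      exact hxy
    obtain ⟨i, hi⟩ := hsep (n - 1 - y) (n - 1 - x) (by omega) (by omega) hQ h1
    refine ⟨i, ?_⟩
    have h2 := hFN i (n - 1 - y) (by omega)
    simp only
    omega

/-- The down-set of `y` has the size of an up-set in the flipped graph. -/
theorem card_down {n : ℕ} {S : Finset (ℕ × ℕ)} (hS : S ⊆ Ed n) {y : ℕ} (hy : y < n) :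
    ((range n).filter (fun u => y ∈ up S n u)).card = (up (flp n S) n (n - 1 - y)).card := by
  have hiff : ∀ {T : Finset (ℕ × ℕ)}, T ⊆ Ed n → ∀ {u v : ℕ}, u < n → v < n →
      (v ∈ up T n u ↔ pleq T u v) := by
    intro T hT u v hu hv
    constructor
    · intro h
      obtain ⟨a, ha, hav⟩ := pleq_of_mem_reach h
      rw [mem_singleton] at ha
      rw [ha] at hav
      exact hav
    · intro h
      exact mem_reach_of_pleq hT (mem_singleton_self u) hu h hv
  refine card_nbij' (fun u => n - 1 - u) (fun u => n - 1 - u) ?_ ?_ ?_ ?_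
  · intro u hu
    simp only [coe_filter, mem_range, Set.mem_ofPred_eq] at hu
    have h1 := (hiff hS hu.1 hy).1 hu.2
    rw [← pleq_flp hS hu.1 hy] at h1
    have hn1 : n - 1 - y < n := by omega
    have hn2 : n - 1 - u < n := by omega
    exact (hiff (flp_subset n S) hn1 hn2).2 h1
  · intro u hu
    have hun : u < n := mem_reach_lt hu
    simp only [coe_filter, mem_range, Set.mem_ofPred_eq]
    refine ⟨by omega, ?_⟩
    have h1 := (hiff (flp_subset n S) (by omega) hun).1 hu
    have h2 : pleq S (n - 1 - u) y := by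
      rw [← pleq_flp hS (by omega) hy]
      have e1 : n - 1 - (n - 1 - u) = u := by omega
      rw [e1]
      exact h1
    exact (hiff hS (by omega) hy).2 h2
  · intro u hu
    simp only [coe_filter, mem_range, Set.mem_ofPred_eq] at hu
    simp only
    omega
  · intro u hu
    have hun : u < n := mem_reach_lt hu
    simp only
    omega

end Pool.Agent.SparseOrd
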