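import Mathlib
import Pool.Agent.SparseOrd.Defs

set_option autoImplicit false

namespace Pool.Agent.SparseOrd

open Finset Pool.Agent.MP_ef8d06_pr

open Classical in
/-- one greedy step -/
lemma greedyP_step {V P : Type*} [Fintype V] [DecidableEq V] (elt : P → V)
    (av : P → Finset V) (K : ℕ)
    (hav : ∀ e, (av e).card ≤ K) (hne : ∀ e, elt e ∉ av e) (Q : Finset P) {q : ℝ} (hq0 : 0 ≤ q)
    (hq1 : q ≤ 1) :
    ∃ M : Finset V, (Q.card : ℝ) * (q * (1 - q) ^ K) ≤
      (Q.filter (fun e => elt e ∈ M ∧ Disjoint M (av e))).card := by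
  obtain ⟨M, -, hM⟩ := Finset.exists_max_image (Finset.univ : Finset V).powerset
    (fun M : Finset V => ((Q.filter (fun e => elt e ∈ M ∧ Disjoint M (av e))).card : ℝ))
    ⟨∅, by simp⟩
  refine ⟨M, ?_⟩
  have h1 : EE q (Finset.univ : Finset V)
      (fun M => ((Q.filter (fun e => elt e ∈ M ∧ Disjoint M (av e))).card : ℝ)) ≤
      ((Q.filter (fun e => elt e ∈ M ∧ Disjoint M (av e))).card : ℝ) := by
    rw [← EE_const q (Finset.univ : Finset V)
      ((Q.filter (fun e => elt e ∈ M ∧ Disjoint M (av e))).card : ℝ)]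
    refine EE_mono hq0 hq1 fun S hS => hM S (Finset.mem_powerset.2 hS)
  refine le_trans ?_ h1
  have h2 : EE q (Finset.univ : Finset V)
      (fun M => ((Q.filter (fun e => elt e ∈ M ∧ Disjoint M (av e))).card : ℝ)) =
      ∑ e ∈ Q, PP q (Finset.univ : Finset V) (fun M => elt e ∈ M ∧ Disjoint M (av e)) := by
    unfold PP
    rw [← EE_sum]
    refine EE_congr fun S _ => ?_
    rw [Finset.card_filter]
    push_cast
    refine Finset.sum_congr rfl fun e _ => ?_
    by_cases h : elt e ∈ S ∧ Disjoint S (av e)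
    · rw [if_pos h, if_pos h]
    · rw [if_neg h, if_neg h]
  rw [h2]
  have h3 : ∀ e ∈ Q, q * (1 - q) ^ K ≤
      PP q (Finset.univ : Finset V) (fun M => elt e ∈ M ∧ Disjoint M (av e)) := by
    intro e _
    rw [PP_mem_and_avoid q _ _ (hne e)]
    apply mul_le_mul_of_nonneg_left _ hq0
    exact pow_le_pow_of_le_one (by linarith) (by linarith) (hav e)
  calc (Q.card : ℝ) * (q * (1 - q) ^ K) = ∑ e ∈ Q, q * (1 - q) ^ K := by
        rw [Finset.sum_const, nsmul_eq_mul]
    _ ≤ _ := Finset.sum_le_sum h3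

open Classical in
/-- Greedy choice of `t` sets `M i` (a copy of `greedy` in `Pool/Agent/MP_ef8d06_pr/Dim.lean`, for a
general index type `P`). -/
theorem greedyP {V P : Type*} [Fintype V] [DecidableEq V] [DecidableEq P] (elt : P → V)
    (av : P → Finset V) (K : ℕ)
    (hav : ∀ e, (av e).card ≤ K) (hne : ∀ e, elt e ∉ av e) (Q : Finset P) {q : ℝ} (hq0 : 0 ≤ q)
    (hq1 : q ≤ 1) (t : ℕ) :
    ∃ M : Fin t → Finset V,
      ((Q.filter (fun e => ∀ i, ¬ (elt e ∈ M i ∧ Disjoint (M i) (av e)))).card : ℝ) ≤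
        Q.card * (1 - q * (1 - q) ^ K) ^ t := by
  induction t with
  | zero => exact ⟨fun i => ∅, by simp⟩
  | succ t ih =>
    obtain ⟨M, hM⟩ := ih
    set Q' := Q.filter (fun e => ∀ i, ¬ (elt e ∈ M i ∧ Disjoint (M i) (av e))) with hQ'
    obtain ⟨M₀, hM₀⟩ := greedyP_step elt av K hav hne Q' hq0 hq1
    refine ⟨Fin.cons M₀ M, ?_⟩
    have h1 : (Q.filter (fun e => ∀ i, ¬ (elt e ∈ (Fin.cons M₀ M : Fin (t+1) → Finset V) i ∧
        Disjoint ((Fin.cons M₀ M : Fin (t+1) → Finset V) i) (av e)))) =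
        Q'.filter (fun e => ¬ (elt e ∈ M₀ ∧ Disjoint M₀ (av e))) := by
      ext e
      simp only [hQ', Finset.mem_filter, Fin.forall_fin_succ, Fin.cons_zero, Fin.cons_succ]
      tauto
    rw [h1]
    have h2 := Finset.card_filter_add_card_filter_not (s := Q')
      (fun e => elt e ∈ M₀ ∧ Disjoint M₀ (av e))
    have h3 : ((Q'.filter (fun e => elt e ∈ M₀ ∧ Disjoint M₀ (av e))).card : ℝ) +
        ((Q'.filter (fun e => ¬ (elt e ∈ M₀ ∧ Disjoint M₀ (av e)))).card : ℝ) = Q'.card := by
      exact_mod_cast h2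
    have hc : 0 ≤ 1 - q * (1 - q) ^ K := by
      have : (1 - q) ^ K ≤ 1 := pow_le_one₀ (by linarith) (by linarith)
      nlinarith
    calc ((Q'.filter (fun e => ¬ (elt e ∈ M₀ ∧ Disjoint M₀ (av e)))).card : ℝ)
        ≤ Q'.card * (1 - q * (1 - q) ^ K) := by linarith
      _ ≤ (Q.card * (1 - q * (1 - q) ^ K) ^ t) * (1 - q * (1 - q) ^ K) :=
          mul_le_mul_of_nonneg_right hM hc
      _ = Q.card * (1 - q * (1 - q) ^ K) ^ (t + 1) := by ring

open Classical in
/-- A family of `k ≤ 100 D log D` sets of codes for which at most the fraction `D ^ (-4)` of the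
`D`-tuples of codes is bad. -/
theorem code {D : ℕ} (hD : 3 ≤ D) :
    ∃ k : ℕ, (k : ℝ) ≤ 100 * D * Real.log D ∧ ∃ M : Fin k → Finset (Fin (D ^ 6)),
      D ^ 4 * (univ.filter (fun f : Fin D → Fin (D ^ 6) => BadTuple M f)).card ≤
        (D ^ 6) ^ D := by
  have hD0 : (3 : ℝ) ≤ D := by exact_mod_cast hD
  have hDpos : (0 : ℝ) < D := by linarith
  have hlog1 : 1 ≤ Real.log D := by
    rw [Real.le_log_iff_exp_le hDpos]
    have := Real.exp_one_lt_d9
    linarith
  have he0 : 0 < Real.exp 1 := Real.exp_pos 1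
  have he1 : Real.exp 1 ≤ 2.72 := by
    have := Real.exp_one_lt_d9; linarith
  set k : ℕ := ⌈10 * Real.exp 1 * (D + 1) * Real.log D⌉₊ with hk
  have hk1 : 10 * Real.exp 1 * (D + 1) * Real.log D ≤ k := Nat.le_ceil _
  have hk2 : (k : ℝ) ≤ 10 * Real.exp 1 * (D + 1) * Real.log D + 1 :=
    (Nat.ceil_lt_add_one (by positivity)).le
  refine ⟨k, ?_, ?_⟩
  · have h1 : (D : ℝ) + 1 ≤ 4 / 3 * D := by linarith
    have h2 : 1 ≤ D * Real.log D := by nlinarith
    have h3 : 10 * Real.exp 1 * (D + 1) * Real.log D ≤ 27.2 * (4 / 3 * D) * Real.log D := by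
      have h4 : 10 * Real.exp 1 * ((D : ℝ) + 1) ≤ 27.2 * (4 / 3 * D) :=
        mul_le_mul (by linarith) h1 (by linarith) (by norm_num)
      exact mul_le_mul_of_nonneg_right h4 (by linarith)
    nlinarith
  · set q : ℝ := 1 / (D + 1) with hq
    have hq0 : 0 < q := by positivity
    have hq1 : q ≤ 1 := by
      rw [hq, div_le_one (by positivity)]
      linarith
    obtain ⟨M, hM⟩ := greedyP (V := Fin (D ^ 6)) (P := Fin (D ^ 6) × (Fin D → Fin (D ^ 6)))
      (fun e => e.1) (fun e => (univ.image e.2).erase e.1) D (by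
        intro e
        refine (card_erase_le).trans (card_image_le.trans ?_)
        simp) (by
        intro e
        simp) univ hq0.le hq1 k
    refine ⟨M, ?_⟩
    set Qk : Finset (Fin (D ^ 6) × (Fin D → Fin (D ^ 6))) := univ.filter
      (fun e => ∀ i, ¬ (e.1 ∈ M i ∧ Disjoint (M i) ((univ.image e.2).erase e.1))) with hQk
    have hbad : (univ.filter (fun f : Fin D → Fin (D ^ 6) => BadTuple M f)).card ≤ Qk.card := by
      have h1 : (univ.filter (fun f : Fin D → Fin (D ^ 6) => BadTuple M f)) ⊆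
          Qk.image Prod.snd := by
        intro f hf
        simp only [mem_filter, mem_univ, true_and, BadTuple] at hf
        obtain ⟨t, ht⟩ := hf
        rw [mem_image]
        refine ⟨(t, f), ?_, rfl⟩
        rw [hQk, mem_filter]
        refine ⟨mem_univ _, fun i hi => ht i ⟨hi.1, fun j hj hjM => ?_⟩⟩
        refine disjoint_left.1 hi.2 hjM ?_
        rw [mem_erase]
        exact ⟨hj, mem_image_of_mem _ (mem_univ _)⟩
      exact (card_le_card h1).trans card_image_le
    have hc : 1 / (Real.exp 1 * (D + 1)) ≤ q * (1 - q) ^ D := by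
      have e1 : 1 / Real.exp 1 ≤ (1 - q) ^ D := by
        have e2 : (1 - q) = (1 + 1 / (D : ℝ))⁻¹ := by
          rw [hq]
          field_simp
          ring
        rw [e2, inv_pow, one_div]
        apply inv_anti₀ (by positivity)
        calc (1 + 1 / (D : ℝ)) ^ D ≤ (Real.exp (1 / D)) ^ D := by
              apply pow_le_pow_left₀ (by positivity)
              have := Real.add_one_le_exp (1 / (D : ℝ)); linarith
          _ = Real.exp 1 := by
              rw [← Real.exp_nat_mul]
              congr 1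
              field_simp
      calc 1 / (Real.exp 1 * (D + 1)) = q * (1 / Real.exp 1) := by
            rw [hq]; field_simp
        _ ≤ q * (1 - q) ^ D := mul_le_mul_of_nonneg_left e1 hq0.le
    have hpow : (1 - q * (1 - q) ^ D) ^ k ≤ 1 / (D : ℝ) ^ 10 := by
      have e3 : 1 - q * (1 - q) ^ D ≤ Real.exp (-(1 / (Real.exp 1 * (D + 1)))) := by
        have := Real.add_one_le_exp (-(1 / (Real.exp 1 * ((D : ℝ) + 1))))
        linarith
      have e4 : 0 ≤ 1 - q * (1 - q) ^ D := by
        have : (1 - q) ^ D ≤ 1 := pow_le_one₀ (by linarith) (by linarith)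
        nlinarith
      calc (1 - q * (1 - q) ^ D) ^ k ≤ (Real.exp (-(1 / (Real.exp 1 * (D + 1))))) ^ k :=
            pow_le_pow_left₀ e4 e3 k
        _ = Real.exp (-(k / (Real.exp 1 * (D + 1)))) := by
            rw [← Real.exp_nat_mul]; congr 1; ring
        _ ≤ Real.exp (-(10 * Real.log D)) := by
            apply Real.exp_le_exp.2
            have : 10 * Real.log D ≤ k / (Real.exp 1 * (D + 1)) := by
              rw [le_div_iff₀ (by positivity)]
              linarith
            linarith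
        _ = 1 / (D : ℝ) ^ 10 := by
            rw [Real.exp_neg, one_div]
            congr 1
            have : (10 : ℝ) * Real.log D = ((10 : ℕ) : ℝ) * Real.log D := by norm_num
            rw [this, Real.exp_nat_mul, Real.exp_log hDpos]
    have hcard : ((univ : Finset (Fin (D ^ 6) × (Fin D → Fin (D ^ 6)))).card : ℝ) =
        (D : ℝ) ^ 6 * ((D : ℝ) ^ 6) ^ D := by
      rw [card_univ, Fintype.card_prod, Fintype.card_fun, Fintype.card_fin, Fintype.card_fin]
      push_cast
      rfl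
    rw [hcard] at hM
    have h5 : (Qk.card : ℝ) ≤ ((D : ℝ) ^ 6) ^ D / (D : ℝ) ^ 4 := by
      refine hM.trans ?_
      calc (D : ℝ) ^ 6 * ((D : ℝ) ^ 6) ^ D * (1 - q * (1 - q) ^ D) ^ k
          ≤ (D : ℝ) ^ 6 * ((D : ℝ) ^ 6) ^ D * (1 / (D : ℝ) ^ 10) :=
            mul_le_mul_of_nonneg_left hpow (by positivity)
        _ = ((D : ℝ) ^ 6) ^ D / (D : ℝ) ^ 4 := by
            field_simp
    have h6 : ((univ.filter (fun f : Fin D → Fin (D ^ 6) => BadTuple M f)).card : ℝ) ≤
        Qk.card := by exact_mod_cast hbad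
    have h7 : (D : ℝ) ^ 4 * ((univ.filter (fun f : Fin D → Fin (D ^ 6) => BadTuple M f)).card : ℝ) ≤
        ((D : ℝ) ^ 6) ^ D := by
      have h8 := h6.trans h5
      rw [le_div_iff₀ (by positivity)] at h8
      linarith
    exact_mod_cast h7

end Pool.Agent.SparseOrd
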