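import Mathlib
import Pool.Agent.SparseOrd.Defs
import Pool.Agent.SparseOrd.Lll

set_option autoImplicit false

namespace Pool.Agent.SparseOrd

open Finset Pool.Agent.MP_ef8d06_pr

namespace FkAux

open Classical in
/-- the number of functions with equal values at two places -/
theorem card_eq {V T : Type*} [Fintype V] [DecidableEq V] [Fintype T] [DecidableEq T] {u v : V}
    (huv : u ≠ v) : (univ.filter (fun h : V → T => h u = h v)).card * Fintype.card T =
      Fintype.card T ^ Fintype.card V := by
  let e : Fin 2 ↪ V := ⟨fun i => if i = 0 then u else v, by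
    intro i j hij
    fin_cases i <;> fin_cases j <;> simp_all [eq_comm]⟩
  have h1 := card_pullback (T := T) e (fun g : Fin 2 → T => g 0 = g 1)
  have h2 : (univ.filter (fun f : V → T => f (e 0) = f (e 1))) =
      univ.filter (fun h : V → T => h u = h v) := by
    apply Finset.filter_congr
    intro f _
    have e0 : e 0 = u := by show (if (0 : Fin 2) = 0 then u else v) = u; simp
    have e1 : e 1 = v := by show (if (1 : Fin 2) = 0 then u else v) = v; simp
    rw [e0, e1]
  have h3 : (univ.filter (fun g : Fin 2 → T => g 0 = g 1)).card = Fintype.card T := by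
    rw [← Finset.card_univ (α := T)]
    refine Finset.card_bij' (fun g _ => g 0) (fun t _ => fun _ => t) ?_ ?_ ?_ ?_
    · intro g _; exact mem_univ _
    · intro t _; simp
    · intro g hg
      simp only [mem_filter, mem_univ, true_and] at hg
      funext i
      fin_cases i
      · rfl
      · exact hg
    · intro t _; rfl
  have h4 : 2 ≤ Fintype.card V := by
    have := Fintype.card_le_of_injective e e.injective
    simpa using this
  rw [h2, h3, Fintype.card_fin] at h1
  rw [h1]
  have h5 : Fintype.card V = (Fintype.card V - 2) + 2 := by omega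
  conv_rhs => rw [h5]
  ring

open Classical in
theorem card_notinj {V T : Type*} [Fintype V] [DecidableEq V] [Fintype T] [DecidableEq T]
    (F : Finset V) : (univ.filter (fun h : V → T => ¬ Set.InjOn h (F : Set V))).card *
      Fintype.card T ≤ F.card ^ 2 * Fintype.card T ^ Fintype.card V := by
  have h1 : univ.filter (fun h : V → T => ¬ Set.InjOn h (F : Set V)) ⊆
      F.offDiag.biUnion (fun p => univ.filter (fun h : V → T => h p.1 = h p.2)) := by
    intro h hh
    have hh' := (mem_filter.1 hh).2
    unfold Set.InjOn at hh'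
    push Not at hh'
    obtain ⟨a, ha, b, hb, hab, hne⟩ := hh'
    rw [mem_biUnion]
    refine ⟨(a, b), ?_, ?_⟩
    · rw [mem_offDiag]; exact ⟨ha, hb, hne⟩
    · simpa using hab
  calc (univ.filter (fun h : V → T => ¬ Set.InjOn h (F : Set V))).card * Fintype.card T
      ≤ (∑ p ∈ F.offDiag, (univ.filter (fun h : V → T => h p.1 = h p.2)).card) *
          Fintype.card T :=
        Nat.mul_le_mul_right _ ((card_le_card h1).trans card_biUnion_le)
    _ = ∑ p ∈ F.offDiag, Fintype.card T ^ Fintype.card V := by
        rw [sum_mul]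
        refine sum_congr rfl fun p hp => ?_
        exact card_eq (mem_offDiag.1 hp).2.2
    _ = F.offDiag.card * Fintype.card T ^ Fintype.card V := by rw [sum_const, smul_eq_mul]
    _ ≤ F.card ^ 2 * Fintype.card T ^ Fintype.card V := by
        refine Nat.mul_le_mul_right _ ?_
        rw [offDiag_card, sq]; exact Nat.sub_le _ _

open Classical in
theorem card_bad {V : Type*} [Fintype V] [DecidableEq V] {D q k : ℕ} (hq : 0 < q)
    (M : Fin k → Finset (Fin q)) {c : ℕ}
    (hM : c * (univ.filter (fun f : Fin D → Fin q => BadTuple M f)).card ≤ q ^ D)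
    (F : Finset V) (hF : F.card ≤ D) :
    c * (univ.filter (fun h : V → Fin q => BadTuple M (fun u : F => h u))).card ≤
      q ^ Fintype.card V := by
  -- step 1
  obtain ⟨e⟩ : Nonempty (F ↪ Fin D) := by
    apply Function.Embedding.nonempty_of_card_le
    simpa using hF
  have h1 := card_pullback (T := Fin q) e (fun g : F → Fin q => BadTuple M g)
  have h2 : (univ.filter (fun f : Fin D → Fin q => BadTuple M (fun a => f (e a)))).card ≤
      (univ.filter (fun f : Fin D → Fin q => BadTuple M f)).card := by
    apply card_le_card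
    intro f hf
    simp only [mem_filter, mem_univ, true_and] at hf ⊢
    obtain ⟨t, ht⟩ := hf
    refine ⟨t, fun j hj => ht j ⟨hj.1, fun i hi => hj.2 (e i) hi⟩⟩
  have h3 := card_pullback (T := Fin q) (⟨fun u : F => (u : V), Subtype.val_injective⟩ : F ↪ V)
    (fun g : F → Fin q => BadTuple M g)
  have h4 : (univ.filter (fun h : V → Fin q => BadTuple M (fun u : F => h u))).card =
      (univ.filter (fun g : F → Fin q => BadTuple M g)).card *
        q ^ (Fintype.card V - F.card) := by
    have h5 := h3
    simp only [Fintype.card_fin, Fintype.card_coe, Function.Embedding.coeFn_mk] at h5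
    exact h5
  simp only [Fintype.card_fin, Fintype.card_coe] at h1
  rw [h1] at h2
  set b := (univ.filter (fun g : F → Fin q => BadTuple M g)).card with hb
  have h6 : c * b * q ^ (D - F.card) ≤ q ^ F.card * q ^ (D - F.card) := by
    rw [← pow_add, Nat.add_sub_cancel' hF]
    refine le_trans ?_ hM
    rw [mul_assoc]
    exact Nat.mul_le_mul_left _ h2
  have h7 : c * b ≤ q ^ F.card := Nat.le_of_mul_le_mul_right h6 (pow_pos hq _)
  rw [h4, ← mul_assoc]
  have hFV : F.card ≤ Fintype.card V := Finset.card_le_univ F
  calc c * b * q ^ (Fintype.card V - F.card) ≤ q ^ F.card * q ^ (Fintype.card V - F.card) :=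
        Nat.mul_le_mul_right _ h7
    _ = q ^ Fintype.card V := by rw [← pow_add, Nat.add_sub_cancel' hFV]

end FkAux

open Classical in
/-- Codes from the local lemma.
HINT. `E x h`: `h` is not injective on `F x` or the restriction of `h` to `F x` is a bad tuple. The
number of `h` not injective on `F x` is at most `(D choose 2) (D^6)^(|V| - 1)`. The number of `h` whose
restriction to `F x` is bad: with an embedding `F x ↪ Fin D` (restriction of a tuple: if the
restriction is bad then the tuple is bad) and `F x ↪ V`, `card_pullback` twice gives at most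
`(D^6)^|V| / D^4`. `lll` with `d = D ^ 2`: `4 D^2 (1/2 + 1) D^(-4) ≤ 1`. -/
theorem fk {V : Type*} [Fintype V] [DecidableEq V] {D k : ℕ} (hD : 3 ≤ D)
    (M : Fin k → Finset (Fin (D ^ 6)))
    (hM : D ^ 4 * (univ.filter (fun f : Fin D → Fin (D ^ 6) => BadTuple M f)).card ≤
        (D ^ 6) ^ D)
    (F : V → Finset V) (hF1 : ∀ x, (F x).card ≤ D)
    (hF2 : ∀ y, (univ.filter (fun x => y ∈ F x)).card ≤ D) :
    ∃ h : V → Fin (D ^ 6), ∀ x, Set.InjOn h (F x : Set V) ∧
      ¬ BadTuple M (fun u : F x => h u) := by
  have hq : 0 < D ^ 6 := pow_pos (by omega) 6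
  have hne : Nonempty (Fin (D ^ 6)) := ⟨⟨0, hq⟩⟩
  have hDpos : 0 < D := by omega
  obtain ⟨h, hh⟩ := lll (T := Fin (D ^ 6)) F
    (fun x h => ¬ (Set.InjOn h (F x : Set V) ∧ ¬ BadTuple M (fun u : F x => h u))) (by
      intro x f g hfg
      have h1 : Set.InjOn f (F x : Set V) ↔ Set.InjOn g (F x : Set V) := by
        apply Set.EqOn.injOn_iff
        intro v hv
        exact hfg v hv
      have h2 : (fun u : F x => f u) = fun u : F x => g u := by
        funext u
        exact hfg u u.2
      rw [h1, h2]) (D ^ 2) (Nat.one_le_iff_ne_zero.2 (pow_pos hDpos 2).ne') (by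
      intro x
      have h1 : univ.filter (fun y => ¬ Disjoint (F x) (F y)) ⊆
          (F x).biUnion (fun v => univ.filter (fun y => v ∈ F y)) := by
        intro y hy
        simp only [mem_filter, mem_univ, true_and] at hy
        rw [Finset.not_disjoint_iff] at hy
        obtain ⟨v, hv1, hv2⟩ := hy
        rw [mem_biUnion]
        exact ⟨v, hv1, by simpa using hv2⟩
      calc (univ.filter (fun y => ¬ Disjoint (F x) (F y))).card
          ≤ ∑ v ∈ F x, (univ.filter (fun y => v ∈ F y)).card :=
            (card_le_card h1).trans card_biUnion_le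
        _ ≤ ∑ _v ∈ F x, D := sum_le_sum fun v _ => hF2 v
        _ = (F x).card * D := by rw [sum_const, smul_eq_mul]
        _ ≤ D * D := Nat.mul_le_mul_right _ (hF1 x)
        _ = D ^ 2 := by ring) (by
      intro x
      rw [Fintype.card_fun, Fintype.card_fin]
      set N := (D ^ 6) ^ Fintype.card V with hN
      have hA := FkAux.card_notinj (T := Fin (D ^ 6)) (F x)
      rw [Fintype.card_fin, ← hN] at hA
      have hB := FkAux.card_bad (V := V) hq M hM (F x) (hF1 x)
      rw [← hN] at hB
      set a := (univ.filter (fun h : V → Fin (D ^ 6) => ¬ Set.InjOn h (F x : Set V))).card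
        with ha
      set b := (univ.filter (fun h : V → Fin (D ^ 6) => BadTuple M (fun u : F x => h u))).card
        with hb
      have hab : (univ.filter (fun h : V → Fin (D ^ 6) => ¬ (Set.InjOn h (F x : Set V) ∧
          ¬ BadTuple M (fun u : F x => h u)))).card ≤ a + b := by
        rw [ha, hb]
        refine le_trans (card_le_card ?_) (card_union_le _ _)
        intro h hh
        simp only [mem_filter, mem_univ, true_and, mem_union] at hh ⊢
        by_contra hc
        push Not at hc
        exact hh ⟨hc.1, hc.2⟩
      have hA' : D ^ 4 * a ≤ N := by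
        have h1 : (F x).card ^ 2 * N ≤ D ^ 2 * N :=
          Nat.mul_le_mul_right _ (Nat.pow_le_pow_left (hF1 x) 2)
        have h2 : D ^ 2 * (D ^ 4 * a) ≤ D ^ 2 * N := by
          calc D ^ 2 * (D ^ 4 * a) = a * D ^ 6 := by ring
            _ ≤ _ := hA.trans h1
        exact Nat.le_of_mul_le_mul_left h2 (pow_pos hDpos 2)
      have hD9 : 9 ≤ D ^ 2 := by nlinarith
      have h3 : D ^ 2 * (4 * D ^ 2 * (a + b)) ≤ D ^ 2 * N := by
        calc D ^ 2 * (4 * D ^ 2 * (a + b)) = 4 * (D ^ 4 * a + D ^ 4 * b) := by ring
          _ ≤ 4 * (N + N) := by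
              refine Nat.mul_le_mul_left _ (Nat.add_le_add hA' hB)
          _ ≤ 9 * N := by omega
          _ ≤ D ^ 2 * N := Nat.mul_le_mul_right _ hD9
      have h4 := Nat.le_of_mul_le_mul_left h3 (pow_pos hDpos 2)
      refine le_trans (Nat.mul_le_mul_left _ ?_) h4
      refine le_trans (le_of_eq ?_) hab
      congr 1
      apply Finset.filter_congr_decidable)
  refine ⟨h, fun x => ?_⟩
  have := hh x
  exact not_not.1 this

end Pool.Agent.SparseOrd
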