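import Mathlib
import Pool.Agent.SparseOrd.Code
import Pool.Agent.SparseOrd.Fk

set_option autoImplicit false

namespace Pool.Agent.SparseOrd

open Finset Pool.Agent.MP_ef8d06_pr

/-- The pairs `(x, y)` with a small up-set of `x` and a small down-set of `y`.
HINT. `G` = set of the `y < n` with at most `D` elements below. `V = Fin n`, `F x` = elements of
`G ∩ up x` if `|up x| ≤ D`, and `∅` otherwise; `fk` gives codes `h`. For `j < k` and a sign put
`σ u = u` (resp. `n - u`) if `h u ∈ M j`, and `σ u = n + 1` otherwise; the function is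
`v ↦ min (n + 1) (min {σ u : u ∈ G, u ∈ up v})` (it increases along `S`). For `x, y` as in the
statement, not `pleq S x y`: `y ∈ G`, `y ∉ F x`; take `t = h y` and `j` from `¬ BadTuple`. At most one
`u ∈ F x` has `h u = t`, and `u ≠ y`; choose the sign so that `σ y < σ u`. -/
theorem good_sep {D : ℕ} (hD : 3 ≤ D) :
    ∃ k : ℕ, (k : ℝ) ≤ 100 * D * Real.log D ∧ ∀ (n : ℕ) (S : Finset (ℕ × ℕ)), S ⊆ Ed n →
      Sep S n (k + k) (fun x y => (up S n x).card ≤ D ∧
        ((range n).filter (fun u => y ∈ up S n u)).card ≤ D) := by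
  classical
  obtain ⟨k, hk, M, hM⟩ := code hD
  refine ⟨k, hk, ?_⟩
  intro n S hS
  set dn : ℕ → Finset ℕ := fun y => (range n).filter (fun u => y ∈ up S n u) with hdn
  let A : ℕ → Finset (Fin n) := fun v =>
    univ.filter (fun u : Fin n => u.val ∈ up S n v ∧ (dn u.val).card ≤ D)
  let F : Fin n → Finset (Fin n) := fun x => if (up S n x.val).card ≤ D then A x.val else ∅
  have hA : ∀ v, (A v).card ≤ (up S n v).card := by
    intro v
    apply Finset.card_le_card_of_injOn (fun u : Fin n => u.val)
    · intro u hu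
      exact (mem_filter.mp hu).2.1
    · intro u _ w _ h
      exact Fin.ext h
  have hF1 : ∀ x, (F x).card ≤ D := by
    intro x
    by_cases hx : (up S n x.val).card ≤ D
    · simp only [F, if_pos hx]
      exact (hA x.val).trans hx
    · simp only [F, if_neg hx, card_empty]
      exact Nat.zero_le _
  have hF2 : ∀ y, (univ.filter (fun x => y ∈ F x)).card ≤ D := by
    intro y
    by_cases hy : (dn y.val).card ≤ D
    · refine le_trans ?_ hy
      apply Finset.card_le_card_of_injOn (fun u : Fin n => u.val)
      · intro u hu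
        have h1 := (mem_filter.mp hu).2
        simp only [F] at h1
        split_ifs at h1 with h2
        · have h3 := (mem_filter.mp h1).2.1
          simp only [hdn]
          exact mem_coe.mpr (mem_filter.mpr ⟨mem_range.mpr u.isLt, h3⟩)
        · exact absurd h1 (notMem_empty _)
      · intro u _ w _ h
        exact Fin.ext h
    · have : univ.filter (fun x => y ∈ F x) = ∅ := by
        rw [filter_eq_empty_iff]
        intro x _ hx
        simp only [F] at hx
        split_ifs at hx with h2
        · exact hy (mem_filter.mp hx).2.2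
        · exact absurd hx (notMem_empty _)
      rw [this, card_empty]
      exact Nat.zero_le _
  obtain ⟨h, hh⟩ := fk hD M hM F hF1 hF2
  -- the functions
  let τ : Bool → Fin k → Fin n → ℕ := fun s j u =>
    if h u ∈ M j then (if s then n + 1 - u.val else u.val + 1) else 0
  let W : Bool → Fin k → ℕ → ℕ := fun s j v => (n + 1) - (A v).sup (τ s j)
  have hτ : ∀ s j u, τ s j u ≤ n + 1 := by
    intro s j u
    have := u.isLt
    simp only [τ]
    split_ifs <;> omega
  have hAmono : ∀ e ∈ S, A e.2 ⊆ A e.1 := by
    intro e he u hu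
    have h1 := (mem_filter.mp hu).2
    have h2 := mem_Ed.1 (hS he)
    refine mem_filter.mpr ⟨mem_univ _, ?_, h1.2⟩
    obtain ⟨a, ha, hau⟩ := pleq_of_mem_reach h1.1
    rw [mem_singleton] at ha
    rw [ha] at hau
    exact mem_reach_of_pleq hS (mem_singleton_self e.1) (h2.1.trans h2.2)
      (Relation.ReflTransGen.head (show (e.1, e.2) ∈ S from he) hau) u.isLt
  have hWmono : ∀ s j, ∀ e ∈ S, W s j e.1 ≤ W s j e.2 := by
    intro s j e he
    simp only [W]
    have := Finset.sup_mono (f := τ s j) (hAmono e he)
    omega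
  -- separation
  have hsep : ∀ x y, x < n → y < n → (up S n x).card ≤ D ∧ (dn y).card ≤ D → ¬ pleq S x y →
      ∃ s j, W s j y < W s j x := by
    intro x y hx hy hxy hnp
    obtain ⟨h1, h2⟩ := hh ⟨x, hx⟩
    have hFx : F ⟨x, hx⟩ = A x := by simp only [F, if_pos hxy.1]
    rw [hFx] at h1
    unfold BadTuple at h2
    push Not at h2
    obtain ⟨j, hj1, hj2⟩ := h2 (h ⟨y, hy⟩)
    have hyA : (⟨y, hy⟩ : Fin n) ∈ A y :=
      mem_filter.mpr ⟨mem_univ _, mem_reach_of_mem hy (mem_singleton_self y), hxy.2⟩
    have hyx : (⟨y, hy⟩ : Fin n) ∉ A x := by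
      intro hcon
      have h3 := (mem_filter.mp hcon).2.1
      obtain ⟨a, ha, hau⟩ := pleq_of_mem_reach h3
      rw [mem_singleton] at ha
      rw [ha] at hau
      exact hnp hau
    have hall : ∀ u ∈ A x, h u ∈ M j → h u = h ⟨y, hy⟩ := by
      intro u hu hm
      by_contra hne
      exact hj2 ⟨u, by rw [hFx]; exact hu⟩ hne hm
    have key : ∀ s, (∀ u ∈ A x, h u ∈ M j → τ s j u < τ s j ⟨y, hy⟩) → W s j y < W s j x := by
      intro s hs
      have hpos : 0 < τ s j ⟨y, hy⟩ := by
        simp only [τ, if_pos hj1]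
        split_ifs <;> omega
      have h3 : (A x).sup (τ s j) < τ s j ⟨y, hy⟩ := by
        rw [Finset.sup_lt_iff hpos]
        intro u hu
        by_cases hm : h u ∈ M j
        · exact hs u hu hm
        · simp only [τ, if_neg hm]
          exact hpos
      have h4 : τ s j ⟨y, hy⟩ ≤ (A y).sup (τ s j) := Finset.le_sup hyA
      have h5 : (A y).sup (τ s j) ≤ n + 1 := Finset.sup_le (fun u _ => hτ s j u)
      simp only [W]
      omega
    by_cases hex : ∃ u0 ∈ A x, h u0 ∈ M j
    · obtain ⟨u0, hu0, hm0⟩ := hex
      have huniq : ∀ u ∈ A x, h u ∈ M j → u = u0 := by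
        intro u hu hm
        exact h1 hu hu0 ((hall u hu hm).trans (hall u0 hu0 hm0).symm)
      have hne : u0.val ≠ y := by
        intro hcon
        apply hyx
        have : (⟨y, hy⟩ : Fin n) = u0 := Fin.ext hcon.symm
        rw [this]; exact hu0
      rcases Nat.lt_or_gt_of_ne hne with hlt | hlt
      · refine ⟨false, j, key false ?_⟩
        intro u hu hm
        rw [huniq u hu hm]
        simp only [τ, if_pos hm0, if_pos hj1, Bool.false_eq_true, if_false]
        omega
      · refine ⟨true, j, key true ?_⟩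
        intro u hu hm
        rw [huniq u hu hm]
        have := u0.isLt
        simp only [τ, if_pos hm0, if_pos hj1, if_true]
        omega
    · refine ⟨true, j, key true ?_⟩
      intro u hu hm
      exact absurd ⟨u, hu, hm⟩ hex
  refine ⟨fun i v => if hi : i.val < k then W true ⟨i.val, hi⟩ v else
    W false ⟨i.val - k, by omega⟩ v, ?_, ?_⟩
  · intro i e he
    dsimp only
    split_ifs
    · exact hWmono _ _ e he
    · exact hWmono _ _ e he
  · intro x y hx hy hxy hnp
    obtain ⟨s, j, hsj⟩ := hsep x y hx hy hxy hnp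
    cases s
    · refine ⟨⟨k + j.val, by omega⟩, ?_⟩
      dsimp only
      rw [dif_neg (by omega), dif_neg (by omega)]
      have : (⟨k + j.val - k, by omega⟩ : Fin k) = j := Fin.ext (by simp)
      rw [this]
      exact hsj
    · refine ⟨⟨j.val, by omega⟩, ?_⟩
      dsimp only
      rw [dif_pos j.isLt, dif_pos j.isLt]
      exact hsj

end Pool.Agent.SparseOrd
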