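import Mathlib
import Pool.Agent.SparseOrd.Bfs

set_option autoImplicit false

namespace Pool.Agent.SparseOrd

open Finset Pool.Agent.MP_ef8d06_pr

theorem Hub_edg_eq {par par' : ℕ → ℕ} {v u : ℕ} (h : edg par v = edg par' u) :
    (v = u ∧ par v = par' u) ∨ (v = par' u ∧ par v = u) := by
  unfold edg at h
  split_ifs at h <;> simp only [Prod.mk.injEq] at h <;> omega

theorem Hub_mono {S : Finset (ℕ × ℕ)} {A B : Finset ℕ} (h : A ⊆ B) : Eg S A ⊆ Eg S B := by
  intro e he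
  simp only [Eg, mem_filter] at he ⊢
  exact ⟨he.1, h he.2⟩

/-- Uniqueness of the parents in a tree over the hub `Y`. -/
theorem par_unique {n : ℕ} {S : Finset (ℕ × ℕ)} (hS : S ⊆ Ed n) {A B Y : Finset ℕ} (hAB : A ⊆ B)
    (hY : UpC S Y) {par lev par' lev' : ℕ → ℕ}
    (h : ∀ v ∈ A, v ∉ Y → Adj S A v (par v) ∧ lev (par v) < lev v)
    (h' : ∀ v ∈ B, v ∉ Y → Adj S B v (par' v) ∧ lev' (par' v) < lev' v)
    (hsurj : ∀ e ∈ Eg S B, e ∉ Eg S Y → ∃ v ∈ B \ Y, e = edg par' v) :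
    ∀ v ∈ A, v ∉ Y → par v = par' v := by
  have key : ∀ m, ∀ v ∈ A, v ∉ Y → lev v = m → par v = par' v := by
    intro m
    induction m using Nat.strong_induction_on with
    | _ m ih =>
      intro v hv hvY hm
      have h1 := (edg_inj hS h).2 v (mem_sdiff.2 ⟨hv, hvY⟩)
      have h2 := edg_notMem hS hY h v (mem_sdiff.2 ⟨hv, hvY⟩)
      obtain ⟨u, hu, he⟩ := hsurj _ (Hub_mono hAB h1) h2
      rw [mem_sdiff] at hu
      rcases Hub_edg_eq he with ⟨e1, e2⟩ | ⟨e1, e2⟩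
      · rw [e2, e1]
      · exfalso
        obtain ⟨hadj, hlev⟩ := h v hv hvY
        have hw : par v ∈ A := hadj.2.1
        have hwY : par v ∉ Y := e2 ▸ hu.2
        have h3 := ih (lev (par v)) (by omega) (par v) hw hwY rfl
        have h4 : par (par v) = v := by rw [h3, e2, ← e1]
        have h5 := (h (par v) hw hwY).2
        rw [h4] at h5
        omega
  exact fun v hv hvY => key _ v hv hvY rfl

theorem Hub_surj {n : ℕ} {S : Finset (ℕ × ℕ)} (hS : S ⊆ Ed n) {B Y : Finset ℕ} (hY : UpC S Y)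
    (hYB : Y ⊆ B) {par lev : ℕ → ℕ}
    (h : ∀ v ∈ B, v ∉ Y → Adj S B v (par v) ∧ lev (par v) < lev v)
    (hd : (Eg S B).card + Y.card ≤ B.card + (Eg S Y).card) :
    ∀ e ∈ Eg S B, e ∉ Eg S Y → ∃ v ∈ B \ Y, e = edg par v := by
  have h1 : (B \ Y).image (edg par) ⊆ Eg S B \ Eg S Y := by
    intro e he
    rw [mem_image] at he
    obtain ⟨v, hv, rfl⟩ := he
    exact mem_sdiff.2 ⟨(edg_inj hS h).2 v hv, edg_notMem hS hY h v hv⟩
  have h2 : ((B \ Y).image (edg par)).card = (B \ Y).card :=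
    card_image_of_injOn (edg_inj hS h).1
  have h3 : (B \ Y).card = B.card - Y.card := card_sdiff_of_subset hYB
  have h4 : (Eg S B \ Eg S Y).card = (Eg S B).card - (Eg S Y).card :=
    card_sdiff_of_subset (Hub_mono hYB)
  have h5 := card_le_card (Hub_mono (S := S) hYB)
  have h6 := card_le_card hYB
  have h7 := eq_of_subset_of_card_le h1 (by omega)
  intro e he heY
  have h8 : e ∈ (B \ Y).image (edg par) := h7 ▸ mem_sdiff.2 ⟨he, heY⟩
  rw [mem_image] at h8
  obtain ⟨v, hv, e1⟩ := h8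
  exact ⟨v, hv, e1.symm⟩

theorem Hub_connTo {S : Finset (ℕ × ℕ)} {A B Y : Finset ℕ} (hA : ConnTo S A Y)
    (hB : ConnTo S B Y) : ConnTo S (A ∪ B) Y := by
  have hm : ∀ {A C : Finset ℕ}, A ⊆ C → ∀ {u v : ℕ}, Relation.ReflTransGen (Adj S A) u v →
      Relation.ReflTransGen (Adj S C) u v := fun h _ _ huv =>
    Relation.ReflTransGen.mono (fun _ _ hab => ⟨h hab.1, h hab.2.1, hab.2.2⟩) _ _ huv
  intro v hv
  rcases mem_union.1 hv with hv | hv
  · obtain ⟨y, hy, h⟩ := hA v hv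
    exact ⟨y, hy, hm subset_union_left h⟩
  · obtain ⟨y, hy, h⟩ := hB v hv
    exact ⟨y, hy, hm subset_union_right h⟩

/-- The hub lemma: if the excess (edges minus vertices) of the union of any two of the up-sets `A j`
(all containing the hub `Y`) is at most that of `Y`, then the same holds for the union of all. -/
theorem hub {n : ℕ} {S : Finset (ℕ × ℕ)} (hS : S ⊆ Ed n) {ι : Type*} [DecidableEq ι] (J : Finset ι)
    (A : ι → Finset ℕ) (Y : Finset ℕ) (hY : UpC S Y) (hA : ∀ j ∈ J, UpC S (A j))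
    (hYA : ∀ j ∈ J, Y ⊆ A j) (hc : ∀ j ∈ J, ConnTo S (A j) Y)
    (hd : ∀ i ∈ J, ∀ j ∈ J,
      (Eg S (A i ∪ A j)).card + Y.card ≤ (A i ∪ A j).card + (Eg S Y).card) :
    (Eg S (Y ∪ J.biUnion A)).card + Y.card ≤ (Y ∪ J.biUnion A).card + (Eg S Y).card := by
  classical
  have h1 : ∀ j : ι, ∃ par lev : ℕ → ℕ, j ∈ J →
      ∀ v ∈ A j, v ∉ Y → Adj S (A j) v (par v) ∧ lev (par v) < lev v := by
    intro j
    by_cases hj : j ∈ J
    · obtain ⟨par, lev, h⟩ := bfs (hc j hj)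
      exact ⟨par, lev, fun _ => h⟩
    · exact ⟨id, id, fun h => absurd h hj⟩
  choose p l hp using h1
  have h2 : ∀ i ∈ J, ∀ j ∈ J, ∀ v ∈ A i, v ∈ A j → v ∉ Y → p i v = p j v := by
    intro i hi j hj v hvi hvj hvY
    obtain ⟨par', lev', h'⟩ := bfs (Hub_connTo (hc i hi) (hc j hj))
    have hs := Hub_surj hS hY ((hYA i hi).trans subset_union_left) h' (hd i hi j hj)
    rw [par_unique hS subset_union_left hY (hp i hi) h' hs v hvi hvY,
      par_unique hS subset_union_right hY (hp j hj) h' hs v hvj hvY]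
  have h3 : ∀ j ∈ J, ∀ e ∈ Eg S (A j), e ∉ Eg S Y → ∃ v ∈ A j \ Y, e = edg (p j) v := by
    intro j hj
    have := hd j hj j hj
    rw [union_self] at this
    exact Hub_surj hS hY (hYA j hj) (hp j hj) this
  let q : ℕ → ι → Prop := fun v j => j ∈ J ∧ v ∈ A j
  let P : ℕ → ℕ := fun v => if h : ∃ j, q v j then p h.choose v else 0
  have hP : ∀ j ∈ J, ∀ v ∈ A j, v ∉ Y → P v = p j v := by
    intro j hj v hv hvY
    have hex : ∃ j, q v j := ⟨j, hj, hv⟩
    simp only [P, dif_pos hex]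
    exact h2 _ hex.choose_spec.1 j hj v hex.choose_spec.2 hv hvY
  set U := Y ∪ J.biUnion A with hU
  have h4 : Eg S U \ Eg S Y ⊆ (U \ Y).image (edg P) := by
    intro e he
    rw [mem_sdiff] at he
    obtain ⟨he1, he2⟩ := he
    have he3 := (mem_filter.1 he1)
    rw [hU, mem_union, mem_biUnion] at he3
    rcases he3.2 with h | ⟨j, hj, hej⟩
    · exact absurd (mem_filter.2 ⟨he3.1, h⟩) he2
    · obtain ⟨v, hv, e1⟩ := h3 j hj e (mem_filter.2 ⟨he3.1, hej⟩) he2
      rw [mem_sdiff] at hv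
      refine mem_image.2 ⟨v, mem_sdiff.2 ⟨?_, hv.2⟩, ?_⟩
      · rw [hU]
        exact mem_union_right _ (mem_biUnion.2 ⟨j, hj, hv.1⟩)
      · rw [e1]
        unfold edg
        rw [hP j hj v hv.1 hv.2]
  have h5 := (card_le_card h4).trans card_image_le
  have hYU : Y ⊆ U := subset_union_left
  have h6 : (U \ Y).card = U.card - Y.card := card_sdiff_of_subset hYU
  have h7 : (Eg S U \ Eg S Y).card = (Eg S U).card - (Eg S Y).card :=
    card_sdiff_of_subset (Hub_mono hYU)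
  have h8 := card_le_card (Hub_mono (S := S) hYU)
  have h9 := card_le_card hYU
  omega

end Pool.Agent.SparseOrd
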