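import Mathlib
import Pool.Agent.SparseOrd.Defs

set_option autoImplicit false

namespace Pool.Agent.SparseOrd

open Finset Pool.Agent.MP_ef8d06_pr

theorem Net_mono {S : Finset (ℕ × ℕ)} {A B : Finset ℕ} (h : A ⊆ B) {u v : ℕ}
    (huv : Relation.ReflTransGen (Adj S A) u v) : Relation.ReflTransGen (Adj S B) u v :=
  Relation.ReflTransGen.mono (fun _ _ hab => ⟨h hab.1, h hab.2.1, hab.2.2⟩) _ _ huv

theorem conn_union {S : Finset (ℕ × ℕ)} {A B : Finset ℕ} (hA : Conn S A) (hB : Conn S B)
    (h : ¬ Disjoint A B) : Conn S (A ∪ B) := by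
  rw [not_disjoint_iff] at h
  obtain ⟨z, hzA, hzB⟩ := h
  refine ⟨⟨z, mem_union_left _ hzA⟩, fun u hu v hv => ?_⟩
  have h1 : Relation.ReflTransGen (Adj S (A ∪ B)) u z := by
    rcases mem_union.1 hu with hu | hu
    · exact Net_mono subset_union_left (hA.2 u hu z hzA)
    · exact Net_mono subset_union_right (hB.2 u hu z hzB)
  have h2 : Relation.ReflTransGen (Adj S (A ∪ B)) z v := by
    rcases mem_union.1 hv with hv | hv
    · exact Net_mono subset_union_left (hA.2 z hzA v hv)
    · exact Net_mono subset_union_right (hB.2 z hzB v hv)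
  exact h1.trans h2

theorem Net_insert {S : Finset (ℕ × ℕ)} {X : Finset ℕ} {U : ℕ → Finset ℕ} {y x : ℕ}
    (hX : Conn S (X.biUnion U)) (hy : Conn S (U y)) (hx : x ∈ X) (h : ¬ Disjoint (U y) (U x)) :
    Conn S ((insert y X).biUnion U) := by
  rw [biUnion_insert, union_comm]
  refine conn_union hX hy ?_
  rw [not_disjoint_iff] at h ⊢
  obtain ⟨z, h1, h2⟩ := h
  exact ⟨z, mem_biUnion.2 ⟨x, hx, h2⟩, h1⟩

/-- `C` is connected for the relation that `U x` and `U y` meet, and every element of `C` is related to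
an element of `N ⊆ C`. Then for every `1 ≤ t ≤ |N|` there is a connected family of at most `3 t - 2`
elements of `C` containing (at least) `t` elements of `N`. -/
theorem net {S : Finset (ℕ × ℕ)} {C N : Finset ℕ} (U : ℕ → Finset ℕ) (hU : ∀ x ∈ C, Conn S (U x))
    (hconn : ∀ x ∈ C, ∀ y ∈ C,
      Relation.ReflTransGen (fun a b => a ∈ C ∧ b ∈ C ∧ ¬ Disjoint (U a) (U b)) x y)
    (hN : N ⊆ C) (hmax : ∀ x ∈ C, ∃ y ∈ N, ¬ Disjoint (U x) (U y)) :
    ∀ t, 1 ≤ t → t ≤ N.card →
      ∃ X ⊆ C, X.card + 2 ≤ 3 * t ∧ t ≤ (X ∩ N).card ∧ Conn S (X.biUnion U) := by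
  have hself : ∀ x ∈ C, ¬ Disjoint (U x) (U x) := by
    intro x hx hd
    obtain ⟨z, hz⟩ := (hU x hx).1
    exact disjoint_left.1 hd hz hz
  intro t
  induction t with
  | zero => intro h; omega
  | succ t ih =>
    intro _ ht
    rcases Nat.eq_zero_or_pos t with rfl | hpos
    · obtain ⟨ν, hν⟩ : N.Nonempty := card_pos.1 (by omega)
      refine ⟨{ν}, by simpa using hN hν, by simp, ?_, ?_⟩
      · rw [inter_eq_left.2 (singleton_subset_iff.2 hν)]; simp
      · simpa using hU ν (hN hν)
    · obtain ⟨X, hXC, hX, hXN, hXc⟩ := ih hpos (by omega)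
      by_cases hbig : t + 1 ≤ (X ∩ N).card
      · exact ⟨X, hXC, by omega, hbig, hXc⟩
      · obtain ⟨ν0, h0, h0'⟩ : ∃ ν0 ∈ N, ν0 ∉ X := by
          by_contra hc
          push Not at hc
          have h3 : N ⊆ X ∩ N := fun x hx => mem_inter.2 ⟨hc x hx, hx⟩
          have h4 := card_le_card h3
          omega
        obtain ⟨ν1, h1⟩ : (X ∩ N).Nonempty := card_pos.1 (by omega)
        have h1' := mem_inter.1 h1
        obtain ⟨a, b, ha, hb, hab, ⟨ν, hν, hνa⟩, ⟨μ, hμ, hμX, hμb⟩⟩ : ∃ a b, a ∈ C ∧ b ∈ C ∧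
            ¬ Disjoint (U b) (U a) ∧ (∃ ν ∈ X, ¬ Disjoint (U a) (U ν)) ∧
            (∃ μ ∈ N, μ ∉ X ∧ ¬ Disjoint (U μ) (U b)) := by
          by_contra hc
          have key : ∀ z, Relation.ReflTransGen
              (fun a b => a ∈ C ∧ b ∈ C ∧ ¬ Disjoint (U a) (U b)) ν1 z →
              z ∈ C ∧ ∃ ν ∈ X, ¬ Disjoint (U z) (U ν) := by
            intro z hz
            induction hz with
            | refl => exact ⟨hN h1'.2, ν1, h1'.1, hself _ (hN h1'.2)⟩
            | tail _ hbc ih2 =>
              obtain ⟨hbC, hcC, hd⟩ := hbc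
              refine ⟨hcC, ?_⟩
              obtain ⟨y, hy, hyd⟩ := hmax _ hcC
              by_cases hyX : y ∈ X
              · exact ⟨y, hyX, hyd⟩
              · exact absurd ⟨_, _, hbC, hcC, fun h => hd h.symm, ih2.2, y, hy, hyX,
                  fun h => hyd h.symm⟩ hc
          obtain ⟨h2, h3⟩ := key ν0 (hconn ν1 (hN h1'.2) ν0 (hN h0))
          exact hc ⟨ν0, ν0, hN h0, hN h0, hself _ (hN h0), h3, ν0, h0, h0', hself _ (hN h0)⟩
        refine ⟨insert μ (insert b (insert a X)), ?_, ?_, ?_, ?_⟩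
        · intro x hx
          simp only [mem_insert] at hx
          rcases hx with rfl | rfl | rfl | hx
          · exact hN hμ
          · exact hb
          · exact ha
          · exact hXC hx
        · have e1 := card_insert_le μ (insert b (insert a X))
          have e2 := card_insert_le b (insert a X)
          have e3 := card_insert_le a X
          omega
        · have e1 : insert μ (X ∩ N) ⊆ insert μ (insert b (insert a X)) ∩ N := by
            intro x hx
            simp only [mem_insert, mem_inter] at hx ⊢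
            rcases hx with rfl | hx
            · exact ⟨Or.inl rfl, hμ⟩
            · exact ⟨Or.inr (Or.inr (Or.inr hx.1)), hx.2⟩
          have e2 := card_le_card e1
          rw [card_insert_of_notMem (fun h => hμX (mem_inter.1 h).1)] at e2
          omega
        · have e1 := Net_insert hXc (hU a ha) hν hνa
          have e2 := Net_insert e1 (hU b hb) (mem_insert_self a X) hab
          exact Net_insert e2 (hU μ (hN hμ)) (mem_insert_self b _) hμb

end Pool.Agent.SparseOrd
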