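import Mathlib
import Pool.Agent.SparseOrd.Hub
import Pool.Agent.SparseOrd.Net

set_option autoImplicit false

namespace Pool.Agent.SparseOrd

open Finset Pool.Agent.MP_ef8d06_pr

theorem Cluster_lt {S : Finset (ℕ × ℕ)} {n : ℕ} (hS : S ⊆ Ed n) {e : ℕ × ℕ} (he : e ∈ S) :
    e.1 < e.2 ∧ e.2 < n := by
  have h := hS he
  simp only [Ed, mem_filter, mem_product, mem_range] at h
  exact ⟨h.2, h.1.2⟩

theorem up_upC {S : Finset (ℕ × ℕ)} {n : ℕ} (hS : S ⊆ Ed n) (X : Finset ℕ) :
    UpC S (reach S X n) := by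
  intro e he h1
  obtain ⟨h2, h3⟩ := Cluster_lt hS he
  exact mem_reach_step h1 h2 h3 he

theorem Cluster_symm {S : Finset (ℕ × ℕ)} {A : Finset ℕ} {u v : ℕ}
    (h : Relation.ReflTransGen (Adj S A) u v) : Relation.ReflTransGen (Adj S A) v u := by
  induction h with
  | refl => exact .refl
  | tail _ hbc ih => exact Relation.ReflTransGen.head ⟨hbc.2.1, hbc.1, hbc.2.2.symm⟩ ih

theorem up_conn {S : Finset (ℕ × ℕ)} {n : ℕ} (hS : S ⊆ Ed n) {x : ℕ} (hx : x < n) :
    Conn S (up S n x) := by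
  have key : ∀ y, y ∈ up S n x → Relation.ReflTransGen (Adj S (up S n x)) y x := by
    intro y
    induction y using Nat.strong_induction_on with
    | _ y ih =>
      intro hy
      have hyn : y < n := mem_reach_lt hy
      rcases (mem_reach_iff S {x} hyn).1 hy with h | ⟨u, hu, hus⟩
      · rw [mem_singleton] at h
        subst h
        exact .refl
      · have huy : u < y := mem_reach_lt hu
        have hun : u ∈ up S n x := mem_reach_of_mem_reach hu (by omega)
        exact Relation.ReflTransGen.head ⟨hy, hun, Or.inr hus⟩ (ih u huy hun)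
  exact ⟨⟨x, mem_reach_of_mem hx (mem_singleton_self x)⟩,
    fun u hu v hv => (key u hu).trans (Cluster_symm (key v hv))⟩

theorem reach_biUnion {S : Finset (ℕ × ℕ)} {n : ℕ} (hS : S ⊆ Ed n) {X : Finset ℕ}
    (hX : X ⊆ range n) : reach S X n = X.biUnion (up S n) := by
  ext y
  rw [mem_biUnion]
  constructor
  · intro hy
    obtain ⟨a, ha, hay⟩ := pleq_of_mem_reach hy
    exact ⟨a, ha, mem_reach_of_pleq hS (mem_singleton_self a) (mem_range.1 (hX ha)) hay
      (mem_reach_lt hy)⟩
  · rintro ⟨a, ha, hy⟩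
    obtain ⟨b, hb, hby⟩ := pleq_of_mem_reach hy
    rw [mem_singleton] at hb
    subst hb
    exact mem_reach_of_pleq hS ha (mem_range.1 (hX ha)) hby (mem_reach_lt hy)

theorem Cluster_maxN {C : Finset ℕ} {U : ℕ → Finset ℕ} (hU : ∀ x ∈ C, (U x).Nonempty) :
    ∃ N ⊆ C, (∀ x ∈ N, ∀ y ∈ N, x ≠ y → Disjoint (U x) (U y)) ∧
      ∀ x ∈ C, ∃ y ∈ N, ¬ Disjoint (U x) (U y) := by
  classical
  let F := C.powerset.filter (fun N => ∀ x ∈ N, ∀ y ∈ N, x ≠ y → Disjoint (U x) (U y))
  have hF : F.Nonempty := ⟨∅, by simp [F]⟩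
  obtain ⟨N, hN, hmax⟩ := exists_max_image F card hF
  simp only [F, mem_filter, mem_powerset] at hN
  refine ⟨N, hN.1, hN.2, fun x hx => ?_⟩
  by_contra hc
  push Not at hc
  have hxN : x ∉ N := by
    intro hxN
    obtain ⟨z, hz⟩ := hU x hx
    exact disjoint_left.1 (hc x hxN) hz hz
  have h1 : insert x N ∈ F := by
    simp only [F, mem_filter, mem_powerset]
    refine ⟨insert_subset hx hN.1, ?_⟩
    intro a ha b hb hab
    rw [mem_insert] at ha hb
    rcases ha with rfl | ha <;> rcases hb with rfl | hb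
    · exact absurd rfl hab
    · exact hc b hb
    · exact (hc a ha).symm
    · exact hN.2 a ha b hb hab
  have h2 := hmax _ h1
  rw [card_insert_of_notMem hxN] at h2
  omega

/-- Structure of one cluster: `C` is a set of vertices with up-sets larger than `D`, connected for the
relation that the up-sets meet. -/
theorem cluster {n : ℕ} {S : Finset (ℕ × ℕ)} (hS : S ⊆ Ed n) {s D : ℕ} (hs : 2 ≤ s)
    (h1 : H1 S n (3 * s)) (h2 : H2 S n s D) {C : Finset ℕ} (hC : C ⊆ range n) (hne : C.Nonempty)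
    (hD : ∀ x ∈ C, D < (up S n x).card)
    (hconn : ∀ x ∈ C, ∀ y ∈ C,
      Relation.ReflTransGen (fun a b => a ∈ C ∧ b ∈ C ∧ ¬ Disjoint (up S n a) (up S n b)) x y) :
    Conn S (C.biUnion (up S n)) ∧
      (Eg S (C.biUnion (up S n))).card ≤ (C.biUnion (up S n)).card := by
  classical
  set U := up S n with hUdef
  have hUc : ∀ x ∈ C, Conn S (U x) := fun x hx => up_conn hS (mem_range.1 (hC hx))
  have hUne : ∀ x ∈ C, (U x).Nonempty := fun x hx => (hUc x hx).1
  have hR : ∀ X ⊆ C, reach S X n = X.biUnion U := fun X hX => reach_biUnion hS (hX.trans hC)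
  obtain ⟨N, hN, hdisj, hmax⟩ := Cluster_maxN hUne
  have hnet := net U hUc hconn hN hmax
  have hNne : N.Nonempty := by
    obtain ⟨x, hx⟩ := hne
    obtain ⟨y, hy, _⟩ := hmax x hx
    exact ⟨y, hy⟩
  have hNs : N.card < s := by
    by_contra hc
    push Not at hc
    obtain ⟨X, hXC, hXc, hXN, hXconn⟩ := hnet s (by omega) hc
    have e1 : (X ∩ N).card * (D + 1) ≤ ((X ∩ N).biUnion U).card := by
      rw [card_biUnion (fun x hx y hy hxy =>
        hdisj x (mem_inter.1 hx).2 y (mem_inter.1 hy).2 hxy), ← smul_eq_mul]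
      exact card_nsmul_le_sum _ _ _ fun x hx => hD x (hN (mem_inter.1 hx).2)
    have e2 : ((X ∩ N).biUnion U).card ≤ (X.biUnion U).card :=
      card_le_card (biUnion_subset_biUnion_of_subset_left _ inter_subset_left)
    have e3 : (X ∩ N).card ≤ X.card := card_le_card inter_subset_left
    have e4 : s * (D + 1) ≤ (X ∩ N).card * (D + 1) := Nat.mul_le_mul_right _ hXN
    have e5 : s * (D + 1) = s * D + s := by ring
    have e6 := h2 X (hXC.trans hC) (by omega) (by omega) (by rw [hR X hXC]; omega)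
    rw [hR X hXC] at e6
    have e7 := conn_card hS hXconn
    omega
  obtain ⟨X₁, hX₁C, hX₁c, hX₁N, hX₁conn⟩ := hnet N.card (card_pos.2 hNne) le_rfl
  have hNX₁ : N ⊆ X₁ := by
    have h3 : X₁ ∩ N = N := eq_of_subset_of_card_le inter_subset_right hX₁N
    rw [← h3]
    exact inter_subset_left
  -- adding one element keeps connectedness
  have hadd : ∀ X ⊆ C, N ⊆ X → Conn S (X.biUnion U) → ∀ x ∈ C,
      Conn S ((insert x X).biUnion U) := by
    intro X hXC hNX hX x hx
    obtain ⟨y, hy, hxy⟩ := hmax x hx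
    exact Net_insert hX (hUc x hx) (hNX hy) hxy
  -- the hub
  obtain ⟨X, hXC, hNX, hXcard, hXconn, hpair⟩ : ∃ X ⊆ C, N ⊆ X ∧ X.card ≤ 3 * s ∧
      Conn S (X.biUnion U) ∧ ∀ x ∈ C, ∀ x' ∈ C,
        (Eg S ((insert x (insert x' X)).biUnion U)).card + (X.biUnion U).card ≤
          ((insert x (insert x' X)).biUnion U).card + (Eg S (X.biUnion U)).card := by
    by_cases hcase : ∃ X ⊆ C, N ⊆ X ∧ X.card + 2 ≤ 3 * s ∧ Conn S (X.biUnion U) ∧
        (X.biUnion U).card ≤ (Eg S (X.biUnion U)).card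
    · obtain ⟨X, hXC, hNX, hXcard, hXconn, hXe⟩ := hcase
      refine ⟨X, hXC, hNX, by omega, hXconn, fun x hx x' hx' => ?_⟩
      have e0 : insert x (insert x' X) ⊆ C := insert_subset hx (insert_subset hx' hXC)
      have e1 := h1 (insert x (insert x' X)) (e0.trans hC) ⟨x, mem_insert_self _ _⟩ (by
        have a1 := card_insert_le x (insert x' X)
        have a2 := card_insert_le x' X
        omega)
      rw [hR _ e0] at e1
      omega
    · refine ⟨X₁, hX₁C, hNX₁, by omega, hX₁conn, fun x hx x' hx' => ?_⟩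
      have e0 : insert x (insert x' X₁) ⊆ C := insert_subset hx (insert_subset hx' hX₁C)
      have e1 := hadd X₁ hX₁C hNX₁ hX₁conn x' hx'
      have e2 := hadd _ (insert_subset hx' hX₁C) (hNX₁.trans (subset_insert _ _)) e1 x hx
      have e3 : (Eg S ((insert x (insert x' X₁)).biUnion U)).card <
          ((insert x (insert x' X₁)).biUnion U).card := by
        by_contra hc
        push Not at hc
        refine hcase ⟨_, e0, (hNX₁.trans (subset_insert _ _)).trans (subset_insert _ _), ?_, e2, hc⟩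
        have a1 := card_insert_le x (insert x' X₁)
        have a2 := card_insert_le x' X₁
        omega
      have e4 := conn_card hS hX₁conn
      omega
  set Y := X.biUnion U with hYdef
  have hYup : UpC S Y := by
    rw [hYdef, ← hR X hXC]
    exact up_upC hS X
  have hUup : ∀ x, UpC S (U x) := fun x => up_upC hS {x}
  have hunion : Y ∪ C.biUnion (fun x => Y ∪ U x) = C.biUnion U := by
    ext z
    simp only [mem_union, mem_biUnion, hYdef]
    constructor
    · rintro (⟨a, ha, hz⟩ | ⟨a, ha, ⟨b, hb, hz⟩ | hz⟩)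
      · exact ⟨a, hXC ha, hz⟩
      · exact ⟨b, hXC hb, hz⟩
      · exact ⟨a, ha, hz⟩
    · rintro ⟨a, ha, hz⟩
      exact Or.inr ⟨a, ha, Or.inr hz⟩
  have hhub := hub hS C (fun x => Y ∪ U x) Y hYup
    (fun x _ e he h => by
      rw [mem_union] at h ⊢
      exact h.imp (hYup e he) (hUup x e he))
    (fun x _ => subset_union_left)
    (fun x hx v hv => by
      have e1 := hadd X hXC hNX hXconn x hx
      rw [biUnion_insert, union_comm] at e1
      obtain ⟨y, hy⟩ := hXconn.1
      exact ⟨y, hy, e1.2 v hv y (mem_union_left _ hy)⟩)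
    (fun x hx x' hx' => by
      have e1 : (Y ∪ U x) ∪ (Y ∪ U x') = (insert x (insert x' X)).biUnion U := by
        rw [biUnion_insert, biUnion_insert, ← hYdef]
        ext z
        simp only [mem_union]
        tauto
      rw [e1]
      exact hpair x hx x' hx')
  rw [hunion] at hhub
  refine ⟨⟨?_, ?_⟩, ?_⟩
  · obtain ⟨x, hx⟩ := hne
    obtain ⟨z, hz⟩ := hUne x hx
    exact ⟨z, mem_biUnion.2 ⟨x, hx, hz⟩⟩
  · intro u hu v hv
    rw [mem_biUnion] at hu hv
    obtain ⟨x, hx, hu⟩ := hu
    obtain ⟨y, hy, hv⟩ := hv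
    have key : ∀ z, Relation.ReflTransGen
        (fun a b => a ∈ C ∧ b ∈ C ∧ ¬ Disjoint (U a) (U b)) x z →
        z ∈ C ∧ ∀ v ∈ U z, Relation.ReflTransGen (Adj S (C.biUnion U)) u v := by
      intro z hz
      induction hz with
      | refl => exact ⟨hx, fun v hv => Net_mono (subset_biUnion_of_mem U hx) ((hUc x hx).2 u hu v hv)⟩
      | tail _ hbc ih =>
        obtain ⟨hb, hc, hd⟩ := hbc
        refine ⟨hc, fun v hv => ?_⟩
        rw [not_disjoint_iff] at hd
        obtain ⟨m, hm1, hm2⟩ := hd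
        exact (ih.2 m hm1).trans (Net_mono (subset_biUnion_of_mem U hc) ((hUc _ hc).2 m hm2 v hv))
    exact (key y (hconn x hx y hy)).2 v hv
  · have e1 := h1 X (hXC.trans hC) (hNne.mono hNX) hXcard
    rw [hR X hXC, ← hYdef] at e1
    omega

end Pool.Agent.SparseOrd
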