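import Mathlib
import Pool.Agent.SparseOrd.Cluster

set_option autoImplicit false

namespace Pool.Agent.SparseOrd

open Finset Pool.Agent.MP_ef8d06_pr

namespace StructAux

/-- bad vertices -/
def Bad (S : Finset (ℕ × ℕ)) (n D x : ℕ) : Prop := x < n ∧ D < (up S n x).card

/-- the generating relation -/
def rel (S : Finset (ℕ × ℕ)) (n D a b : ℕ) : Prop :=
  Bad S n D a ∧ Bad S n D b ∧ ¬ Disjoint (up S n a) (up S n b)

theorem rel_symm {S : Finset (ℕ × ℕ)} {n D a b : ℕ} (h : rel S n D a b) : rel S n D b a :=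
  ⟨h.2.1, h.1, fun hd => h.2.2 hd.symm⟩

theorem rtg_symm {S : Finset (ℕ × ℕ)} {n D a b : ℕ}
    (h : Relation.ReflTransGen (rel S n D) a b) : Relation.ReflTransGen (rel S n D) b a := by
  induction h with
  | refl => exact Relation.ReflTransGen.refl
  | tail _ h2 ih => exact Relation.ReflTransGen.head (rel_symm h2) ih

open Classical in
/-- the cluster of `x` -/
noncomputable def cl (S : Finset (ℕ × ℕ)) (n D x : ℕ) : Finset ℕ :=
  (range n).filter fun y => Bad S n D y ∧ Relation.ReflTransGen (rel S n D) x y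

theorem mem_cl {S : Finset (ℕ × ℕ)} {n D x y : ℕ} :
    y ∈ cl S n D x ↔ Bad S n D y ∧ Relation.ReflTransGen (rel S n D) x y := by
  classical
  unfold cl
  rw [mem_filter, mem_range]
  exact ⟨fun h => h.2, fun h => ⟨h.1.1, h⟩⟩

theorem cl_eq {S : Finset (ℕ × ℕ)} {n D x y : ℕ}
    (h : Relation.ReflTransGen (rel S n D) x y) : cl S n D y = cl S n D x := by
  ext z
  rw [mem_cl, mem_cl]
  exact ⟨fun hz => ⟨hz.1, h.trans hz.2⟩, fun hz => ⟨hz.1, (rtg_symm h).trans hz.2⟩⟩

open Classical in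
/-- the component map -/
noncomputable def kap (S : Finset (ℕ × ℕ)) (n D v : ℕ) : Finset ℕ :=
  if h : ∃ x, Bad S n D x ∧ v ∈ up S n x then (cl S n D h.choose).biUnion (up S n) else ∅

theorem kap_eq {S : Finset (ℕ × ℕ)} {n D v x : ℕ} (hx : Bad S n D x) (hv : v ∈ up S n x) :
    kap S n D v = (cl S n D x).biUnion (up S n) := by
  classical
  have h : ∃ x, Bad S n D x ∧ v ∈ up S n x := ⟨x, hx, hv⟩
  unfold kap
  rw [dif_pos h]
  congr 1
  apply cl_eq
  apply Relation.ReflTransGen.single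
  refine ⟨hx, h.choose_spec.1, fun hd => ?_⟩
  exact (Finset.disjoint_left.1 hd) hv h.choose_spec.2

theorem kap_nonempty {S : Finset (ℕ × ℕ)} {n D v : ℕ} (h : (kap S n D v).Nonempty) :
    ∃ x, Bad S n D x ∧ v ∈ up S n x := by
  classical
  by_contra h'
  unfold kap at h
  rw [dif_neg h'] at h
  exact Finset.not_nonempty_empty h

end StructAux

open StructAux in
/-- HINT. Bad vertices: `D < (up S n x).card`, `x < n`. Clusters: classes of the equivalence relation
generated on the bad vertices by the relation that the up-sets meet. `κ v = C.biUnion (up S n)` if `v` lies in the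
up-set of a bad vertex `x`, where `C` is the cluster of `x` (independent of the choice of `x`), and
`κ v = ∅` otherwise. The up-sets generated by different clusters are disjoint. -/
theorem struct {n : ℕ} {S : Finset (ℕ × ℕ)} (hS : S ⊆ Ed n) {s D : ℕ} (hs : 2 ≤ s)
    (h1 : H1 S n (3 * s)) (h2 : H2 S n s D) :
    ∃ κ : ℕ → Finset ℕ, IsCompMap S n κ ∧ ∀ v < n, D < (up S n v).card → (κ v).Nonempty := by
  classical
  have hself : ∀ x, x < n → x ∈ up S n x := fun x hx =>
    mem_reach_of_mem hx (mem_singleton_self x)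
  have hclself : ∀ x, Bad S n D x → x ∈ cl S n D x := fun x hx =>
    mem_cl.2 ⟨hx, Relation.ReflTransGen.refl⟩
  refine ⟨kap S n D, ⟨?_, ?_⟩, ?_⟩
  · intro v w hw
    obtain ⟨x, hx, hv⟩ := kap_nonempty ⟨w, hw⟩
    rw [kap_eq hx hv] at hw ⊢
    obtain ⟨y, hy, hwy⟩ := mem_biUnion.1 hw
    rw [mem_cl] at hy
    rw [kap_eq hy.1 hwy, cl_eq hy.2]
  · intro v hne
    obtain ⟨x, hx, hv⟩ := kap_nonempty hne
    rw [kap_eq hx hv]
    have hC : cl S n D x ⊆ range n := by
      intro y hy
      exact mem_range.2 (mem_cl.1 hy).1.1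
    have hcl := cluster hS hs h1 h2 hC ⟨x, hclself x hx⟩ (fun y hy => (mem_cl.1 hy).1.2) (by
      intro y hy z hz
      have hyz : Relation.ReflTransGen (rel S n D) y z :=
        (rtg_symm (mem_cl.1 hy).2).trans (mem_cl.1 hz).2
      clear hz
      induction hyz with
      | refl => exact Relation.ReflTransGen.refl
      | tail h3 h4 ih =>
        refine ih.tail ?_
        refine ⟨?_, ?_, h4.2.2⟩
        · exact mem_cl.2 ⟨h4.1, (mem_cl.1 hy).2.trans h3⟩
        · exact mem_cl.2 ⟨h4.2.1, ((mem_cl.1 hy).2.trans h3).tail h4⟩)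
    refine ⟨mem_biUnion.2 ⟨x, hclself x hx, hv⟩, ?_, ?_, hcl.1, hcl.2⟩
    · intro w hw
      obtain ⟨y, hy, hwy⟩ := mem_biUnion.1 hw
      exact reach_subset_range S {y} n hwy
    · intro e he h5
      obtain ⟨y, hy, hwy⟩ := mem_biUnion.1 h5
      exact mem_biUnion.2 ⟨y, hy, up_upC hS {y} e he hwy⟩
  · intro v hv hD
    rw [kap_eq (x := v) ⟨hv, hD⟩ (hself v hv)]
    exact ⟨v, mem_biUnion.2 ⟨v, hclself v ⟨hv, hD⟩, hself v hv⟩⟩

end Pool.Agent.SparseOrd
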