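import Mathlib
import Pool.Agent.SparseOrd.Mono
import Pool.Agent.SparseOrd.Flip
import Pool.Agent.SparseOrd.Struct
import Pool.Agent.SparseOrd.Asm
import Pool.Agent.SparseOrd.GoodSep
import Pool.Agent.SparseOrd.FailB

set_option autoImplicit false

namespace Pool.Agent.SparseOrd

open Finset Filter Topology Pool.Agent.MP_ef8d06_pr

/-- The deterministic statement. -/
theorem dim_le {D k : ℕ}
    (hk : ∀ (n : ℕ) (S : Finset (ℕ × ℕ)), S ⊆ Ed n →
      Sep S n (k + k) (fun x y => (up S n x).card ≤ D ∧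
        ((range n).filter (fun u => y ∈ up S n u)).card ≤ D))
    {n : ℕ} {S : Finset (ℕ × ℕ)} (hS : S ⊆ Ed n) {s : ℕ} (hs : 2 ≤ s)
    (h1 : H1 S n (3 * s)) (h2 : H2 S n s D)
    (h1' : H1 (flp n S) n (3 * s)) (h2' : H2 (flp n S) n s D) :
    orderDim (prel n S) ≤ 2 * k + 21 := by
  obtain ⟨κ, hκ, hκD⟩ := struct hS hs h1 h2
  obtain ⟨κ', hκ', hκD'⟩ := struct (flp_subset n S) hs h1' h2'
  have e1 := asm hS hκ
  have e2 := sep_flp hS (asm (flp_subset n S) hκ')
  have e3 := sep_or (sep_or (hk n S hS) e1) e2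
  have e4 := dim_le_of_sep hS (fun x y hxy hy => by
    have hx : x < n := hxy.trans hy
    by_cases hx1 : (up S n x).card ≤ D
    · by_cases hy1 : ((range n).filter (fun u => y ∈ up S n u)).card ≤ D
      · exact Or.inl (Or.inl ⟨hx1, hy1⟩)
      · right
        rw [card_down hS hy] at hy1
        exact hκD' _ (by omega) (not_le.1 hy1)
    · exact Or.inl (Or.inr (hκD x hx (not_le.1 hx1)))) e3
  omega

lemma DD_bounds {c : ℝ} (hc : 1 ≤ c) : 3 ≤ DD c ∧ (DD c : ℝ) ≤ 7001 * c * Real.exp c ∧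
    Real.log (DD c) ≤ 10 * c := by
  have he : 1 ≤ Real.exp c := Real.one_le_exp (by linarith)
  have h1 : 7000 * c * Real.exp c ≤ (DD c : ℝ) := Nat.le_ceil _
  have h0 : 7000 * 1 * 1 ≤ 7000 * c * Real.exp c := by
    apply mul_le_mul (by linarith) he (by norm_num) (by linarith)
  have h2 : (DD c : ℝ) ≤ 7000 * c * Real.exp c + 1 := (Nat.ceil_lt_add_one (by linarith)).le
  have h3 : (DD c : ℝ) ≤ 7001 * c * Real.exp c := by
    have : 1 ≤ c * Real.exp c := by nlinarith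
    linarith
  refine ⟨?_, h3, ?_⟩
  · have : (3 : ℝ) ≤ DD c := by linarith
    exact_mod_cast this
  · have hD0 : (0 : ℝ) < DD c := by linarith
    have h4 : Real.log (DD c) ≤ Real.log (7001 * c * Real.exp c) := Real.log_le_log hD0 h3
    have h5 : Real.log (7001 * c * Real.exp c) = Real.log 7001 + Real.log c + c := by
      rw [Real.log_mul (by positivity) (Real.exp_pos _).ne', Real.log_mul (by norm_num)
        (by positivity), Real.log_exp]
    have h6 : Real.log c ≤ c - 1 := Real.log_le_sub_one_of_pos (by linarith)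
    have h7 : Real.log 7001 ≤ 9 := by
      rw [Real.log_le_iff_le_exp (by norm_num)]
      have h8 : (2.7 : ℝ) ≤ Real.exp 1 := by
        have := Real.exp_one_gt_d9; linarith
      calc (7001 : ℝ) ≤ 2.7 ^ 9 := by norm_num
        _ ≤ (Real.exp 1) ^ 9 := pow_le_pow_left₀ (by norm_num) h8 9
        _ = Real.exp 9 := by rw [← Real.exp_nat_mul]; norm_num
    linarith

/-- The small range. -/
theorem upper_small {η : ℝ} (hη : 0 < η) :
    ∃ N : ℕ, ∀ n ≥ N, ∀ c : ℝ, 1 ≤ c → c ≤ Real.log n / 1000 →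
      PP (c / n) (Ed n) (fun S => ¬ (orderDim (prel n S) : ℝ) ≤ 10 ^ 8 * c ^ 2 * Real.exp c) ≤
        η := by
  obtain ⟨N, hN⟩ := fail_small (half_pos hη)
  refine ⟨N, fun n hn c hc hcn => ?_⟩
  obtain ⟨s, hs, hP⟩ := hN n hn c hc hcn
  have hlog : 0 ≤ Real.log n := by linarith
  obtain ⟨hp0, hp1⟩ := PP_nonneg' (by linarith : 0 ≤ c) (by linarith : c ≤ Real.log n)
  obtain ⟨hD3, hD1, hD2⟩ := DD_bounds hc
  obtain ⟨k, hk1, hk⟩ := good_sep hD3
  have hflip := PP_flp (c / n) n (fun S => ¬ (H1 S n (3 * s) ∧ H2 S n s (DD c)))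
  have key : PP (c / n) (Ed n) (fun S => ¬ (orderDim (prel n S) : ℝ) ≤
      10 ^ 8 * c ^ 2 * Real.exp c) ≤
      PP (c / n) (Ed n) (fun S => (¬ (H1 S n (3 * s) ∧ H2 S n s (DD c))) ∨
        ¬ (H1 (flp n S) n (3 * s) ∧ H2 (flp n S) n s (DD c))) := by
    refine PP_mono hp0 hp1 fun S hS hbad => ?_
    by_contra hcon
    push Not at hcon
    apply hbad
    have hdim := dim_le hk hS hs hcon.1.1 hcon.1.2 hcon.2.1 hcon.2.2
    have hdim' : (orderDim (prel n S) : ℝ) ≤ 2 * k + 21 := by exact_mod_cast hdim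
    refine hdim'.trans ?_
    have he : 1 ≤ Real.exp c := Real.one_le_exp (by linarith)
    have hD0 : (0 : ℝ) ≤ DD c := by positivity
    have h3 : (DD c : ℝ) * Real.log (DD c) ≤ 7001 * c * Real.exp c * (10 * c) :=
      mul_le_mul hD1 hD2 (Real.log_natCast_nonneg _) (by positivity)
    have h4 : (1 : ℝ) ≤ c ^ 2 * Real.exp c := by
      have : (1 : ℝ) ≤ c ^ 2 := by nlinarith
      nlinarith
    nlinarith
  refine key.trans ((PP_or_le hp0 hp1 _ _ _).trans ?_)
  rw [hflip]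
  linarith

/-- The upper bound in the whole range. -/
theorem upper_all {η : ℝ} (hη : 0 < η) :
    ∃ N : ℕ, ∀ n ≥ N, ∀ c : ℝ, 1 ≤ c → c ≤ Real.log n →
      PP (c / n) (Ed n) (fun S => ¬ (orderDim (prel n S) : ℝ) ≤ 10 ^ 8 * c ^ 2 * Real.exp c) ≤
        η := by
  obtain ⟨N, hN⟩ := upper_small hη
  have h0 : Tendsto (fun n : ℕ => 1 / (n : ℝ)) atTop (𝓝 0) :=
    (tendsto_const_nhds (x := (1 : ℝ))).div_atTop tendsto_natCast_atTop_atTop
  obtain ⟨N', hN'⟩ := eventually_atTop.1 (h0.eventually (gt_mem_nhds hη))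
  refine ⟨max N N', fun n hn c hc hcn => ?_⟩
  rcases le_or_gt c (Real.log n / 1000) with h | h
  · exact hN n ((le_max_left _ _).trans hn) c hc h
  · obtain ⟨hp0, hp1⟩ := PP_nonneg' (by linarith : 0 ≤ c) hcn
    refine le_trans (PP_mono hp0 hp1 fun S hS hbad hgood => ?_)
      ((upper_large (hc.trans hcn) hc hcn).trans (hN' n ((le_max_right _ _).trans hn)).le)
    apply hbad
    refine hgood.trans ?_
    have he : 0 < Real.exp c := Real.exp_pos c
    have h1 : Real.log n ^ 2 ≤ 10 ^ 6 * c ^ 2 := by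
      have h2 : Real.log n ≤ 1000 * c := by linarith
      have h3 : 0 ≤ Real.log n := by linarith
      calc Real.log n ^ 2 ≤ (1000 * c) ^ 2 := pow_le_pow_left₀ h3 h2 2
        _ = 10 ^ 6 * c ^ 2 := by ring
    calc 100 * Real.log n ^ 2 * Real.exp c ≤ 100 * (10 ^ 6 * c ^ 2) * Real.exp c := by
          gcongr
      _ = 10 ^ 8 * c ^ 2 * Real.exp c := by ring

/-- The two-sided bound. -/
theorem main :
    ∃ β : ℝ → ℝ, (∀ c, 1 ≤ c → 0 < β c) ∧ Tendsto β atTop (𝓝 1) ∧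
      ∀ (c : ℕ → ℝ) (p : ℕ → unitInterval),
        (∀ᶠ n : ℕ in atTop, 1 ≤ c n ∧ c n ≤ Real.log n ∧ (p n : ℝ) = c n / n) →
        Tendsto (fun n : ℕ => SimpleGraph.binomialRandom (Fin n) (p n)
          {G | Real.exp (β (c n) * c n) ≤ (orderDim (graphOrder n G) : ℝ) ∧
            (orderDim (graphOrder n G) : ℝ) ≤ 10 ^ 8 * c n ^ 2 * Real.exp (c n)}) atTop (𝓝 1) := by
  obtain ⟨β, hβ0, hβ1, hβ⟩ := exists_beta
  refine ⟨β, hβ0, hβ1, fun c p hcp => ?_⟩
  have h1 := tendsto_of_PP p (fun n S => Real.exp (β (c n) * c n) ≤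
      (orderDim (prel n S) : ℝ) ∧ (orderDim (prel n S) : ℝ) ≤ 10 ^ 8 * c n ^ 2 * Real.exp (c n)) (by
    intro η hη
    obtain ⟨N, hN⟩ := hβ (η / 2) (half_pos hη)
    obtain ⟨N', hN'⟩ := upper_all (half_pos hη)
    filter_upwards [hcp, eventually_ge_atTop N, eventually_ge_atTop N'] with n h2 h3 h4
    rw [h2.2.2]
    obtain ⟨hp0, hp1⟩ := PP_nonneg' (by linarith [h2.1] : 0 ≤ c n) h2.2.1
    have h5 := hN n h3 (c n) h2.1 h2.2.1
    have h6 := hN' n h4 (c n) h2.1 h2.2.1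
    refine le_trans (PP_mono hp0 hp1 (R := fun S =>
      (¬ Real.exp (β (c n) * c n) ≤ (orderDim (prel n S) : ℝ)) ∨
      ¬ (orderDim (prel n S) : ℝ) ≤ 10 ^ 8 * c n ^ 2 * Real.exp (c n))
      fun S hS hbad => not_and_or.1 hbad) ?_
    exact (PP_or_le hp0 hp1 _ _ _).trans ((add_le_add h5 h6).trans (by linarith)))
  refine h1.congr fun n => ?_
  congr 1
  ext G
  simp only [Set.mem_ofPred_eq, prel_pairs]

end Pool.Agent.SparseOrd
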